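import Pool.Agent.W518.DN.Frob
import Pool.Agent.W518.TC.Defs
import Pool.Agent.W518.TC.Ext

/-!
# Flips force every Tate class to be generated in degree two
-/

open Polynomial NumberField Pool.Agent.W518.TC

namespace Pool.Agent.W518.DN

section pairs

variable {Ω H : Type*} [Field Ω] [AddCommGroup H] [Module Ω H]

/-- supersingular numbers -/
def SS (q : ℕ) (a : Ω) : Prop := ∃ t : ℕ, 0 < t ∧ (a ^ 2) ^ t = (q : Ω) ^ t

lemma SS.mul {q : ℕ} {a b : Ω} (ha : SS q a) (hb : SS q b) :
    ∃ s : ℕ, 0 < s ∧ (a * b) ^ s = (q : Ω) ^ s := by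
  obtain ⟨t, ht, h1⟩ := ha
  obtain ⟨t', ht', h2⟩ := hb
  refine ⟨2 * (t * t'), by positivity, ?_⟩
  calc (a * b) ^ (2 * (t * t')) = ((a ^ 2) ^ t) ^ t' * ((b ^ 2) ^ t') ^ t := by ring
    _ = (q : Ω) ^ (2 * (t * t')) := by rw [h1, h2]; ring

lemma SS.of_div {q : ℕ} {a : Ω} (hq : (q : Ω) ≠ 0) (ha : a ≠ 0) (h : SS q ((q : Ω) / a)) :
    SS q a := by
  obtain ⟨t, ht, h1⟩ := h
  refine ⟨t, ht, ?_⟩
  rw [div_pow, div_pow, div_eq_iff (pow_ne_zero _ (pow_ne_zero _ ha))] at h1
  have h2 : (q : Ω) ^ t * (q : Ω) ^ t = (q : Ω) ^ t * (a ^ 2) ^ t := by rw [← h1]; ring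
  exact (mul_left_cancel₀ (pow_ne_zero _ hq) h2).symm

lemma SS.of_eq {q : ℕ} {a : Ω} (ha : a ≠ 0) (h : (q : Ω) / a = a) : SS q a := by
  refine ⟨1, one_pos, ?_⟩
  rw [div_eq_iff ha] at h
  rw [pow_one, pow_one, h, sq]

lemma two_mem_tate (F : Module.End Ω H) (q : ℕ) {a b : Ω} {v w : H} (hv : F v = a • v)
    (hw : F w = b • w) (hab : ∃ s : ℕ, 0 < s ∧ (a * b) ^ s = (q : Ω) ^ s) :
    IsTateClass F q 1 (ExteriorAlgebra.ι Ω v * ExteriorAlgebra.ι Ω w) := by
  obtain ⟨s, hs, h⟩ := hab
  refine ⟨?_, s, hs, ?_⟩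
  · rw [mul_one, ExteriorAlgebra.exteriorPower, pow_two]
    exact Submodule.mul_mem_mul (LinearMap.mem_range_self _ _) (LinearMap.mem_range_self _ _)
  · rw [map_mul, ExteriorAlgebra.map_apply_ι, ExteriorAlgebra.map_apply_ι, pow_eig F v a hv,
      pow_eig F w b hw, map_smul, map_smul, smul_mul_smul_comm, ← mul_pow, h, pow_one]

/-- A monomial of eigenvectors with balanced eigenvalues. -/
theorem mono_mem_adjoin (F : Module.End Ω H) (q : ℕ) (hq : (q : Ω) ≠ 0) [DecidableEq Ω]
    (n : ℕ) : ∀ l : List (Ω × H), l.length = n → Even n → (∀ e ∈ l, F e.2 = e.1 • e.2) →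
      (∀ e ∈ l, e.1 ≠ 0) →
      (∀ a : Ω, a ≠ 0 → ¬ SS q a →
        (l.map Prod.fst).count a = (l.map Prod.fst).count ((q : Ω) / a)) →
      mono (l.map Prod.snd) ∈ Algebra.adjoin Ω {y | IsTateClass F q 1 y} := by
  classical
  induction n using Nat.strong_induction_on with
  | _ n ih =>
  intro l hln hn hF h0 hbal
  by_cases hl : l = []
  · subst hl
    simp only [List.map_nil, mono, List.prod_nil]
    exact one_mem _
  -- find a pair
  obtain ⟨e, e', l', hperm, hpair, hbal'⟩ : ∃ e e' l', l.Perm (e :: e' :: l') ∧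
      (∃ s : ℕ, 0 < s ∧ (e.1 * e'.1) ^ s = (q : Ω) ^ s) ∧
      (∀ a : Ω, a ≠ 0 → ¬ SS q a →
        (l'.map Prod.fst).count a = (l'.map Prod.fst).count ((q : Ω) / a)) := by
    by_cases hex : ∃ e ∈ l, ¬ SS q e.1
    · obtain ⟨e, he, hess⟩ := hex
      have he0 := h0 e he
      have hne : (q : Ω) / e.1 ≠ e.1 := fun h => hess (SS.of_eq he0 h)
      have h1 : 0 < (l.map Prod.fst).count ((q : Ω) / e.1) := by
        rw [← hbal e.1 he0 hess, List.count_pos_iff]
        exact List.mem_map_of_mem he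
      obtain ⟨e', he', hee'⟩ := List.mem_map.1 (List.count_pos_iff.1 h1)
      have hne' : e' ≠ e := by
        rintro rfl; exact hne hee'.symm
      have hp1 : l.Perm (e :: l.erase e) := List.perm_cons_erase he
      have he'' : e' ∈ l.erase e := (List.mem_erase_of_ne hne').2 he'
      have hp2 : (l.erase e).Perm (e' :: (l.erase e).erase e') := List.perm_cons_erase he''
      refine ⟨e, e', (l.erase e).erase e', hp1.trans (hp2.cons e), ⟨1, one_pos, ?_⟩, ?_⟩
      · rw [hee', mul_div_cancel₀ _ he0]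
      · intro a ha hss
        have h2 := hbal a ha hss
        have h3 := (hp1.trans (hp2.cons e)).map Prod.fst
        rw [h3.count_eq, h3.count_eq] at h2
        simp only [List.map_cons, List.count_cons, hee'] at h2
        have h4 : ((e.1 == a) = ((q : Ω) / e.1 == (q : Ω) / a)) := by
          rw [Bool.eq_iff_iff]
          simp only [beq_iff_eq]
          constructor
          · intro h; rw [h]
          · intro h
            have := (div_eq_div_iff he0 ha).1 h
            exact (mul_left_cancel₀ hq this).symm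
        have h5 : (((q : Ω) / e.1 == a) = (e.1 == (q : Ω) / a)) := by
          rw [Bool.eq_iff_iff]
          simp only [beq_iff_eq]
          constructor
          · intro h; rw [← h]; field_simp
          · intro h; rw [h]; field_simp
        rw [h4, h5] at h2
        omega
    · push Not at hex
      obtain ⟨e, l1, rfl⟩ := List.exists_cons_of_ne_nil hl
      have hl1 : l1 ≠ [] := by
        rintro rfl
        simp at hln
        rw [← hln] at hn
        exact absurd hn (by decide)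
      obtain ⟨e', l', rfl⟩ := List.exists_cons_of_ne_nil hl1
      refine ⟨e, e', l', List.Perm.refl _, (hex e (by simp)).mul (hex e' (by simp)), ?_⟩
      intro a ha hss
      have h1 : a ∉ l'.map Prod.fst := by
        intro h
        obtain ⟨x, hx, rfl⟩ := List.mem_map.1 h
        exact hss (hex x (by simp [hx]))
      have h2 : (q : Ω) / a ∉ l'.map Prod.fst := by
        intro h
        obtain ⟨x, hx, hxa⟩ := List.mem_map.1 h
        exact hss (SS.of_div hq ha (hxa ▸ hex x (by simp [hx])))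
      rw [List.count_eq_zero_of_not_mem h1, List.count_eq_zero_of_not_mem h2]
  have hlen : l'.length = n - 2 := by
    have := hperm.length_eq
    simp at this
    omega
  have hn2 : 2 ≤ n := by
    have := hperm.length_eq
    simp at this
    omega
  have hmem : ∀ x ∈ l', x ∈ l := fun x hx => hperm.mem_iff.2 (by simp [hx])
  have hIH := ih (n - 2) (by omega) l' hlen ((Nat.even_sub hn2).2 (by simp [hn]))
    (fun x hx => hF x (hmem x hx)) (fun x hx => h0 x (hmem x hx)) hbal'
  obtain ⟨ε, hε⟩ := mono_perm (Ω := Ω) (hperm.map Prod.snd)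
  rw [hε]
  apply Subalgebra.smul_mem
  have h5 : mono (Ω := Ω) ((e :: e' :: l').map Prod.snd)
      = (ExteriorAlgebra.ι Ω e.2 * ExteriorAlgebra.ι Ω e'.2) * mono (l'.map Prod.snd) := by
    simp [mono, mul_assoc]
  rw [h5]
  refine mul_mem (Algebra.subset_adjoin ?_) hIH
  exact two_mem_tate F q (hF e (hperm.mem_iff.2 (by simp))) (hF e' (hperm.mem_iff.2 (by simp))) hpair

end pairs

section flips

/-- The roots of `lift q g h` are stable under `π ↦ q / π`. -/
lemma root_symm {q : ℕ} {g : ℕ} {h : ℤ[X]} (hm : h.Monic) (hd : h.natDegree = g)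
    {L : Type*} [Field L] [CharZero L] (hq : q ≠ 0) {π : L}
    (hπ : ((lift (q : ℤ) g h).map (Int.castRingHom L)).IsRoot π) :
    π ≠ 0 ∧ ((lift (q : ℤ) g h).map (Int.castRingHom L)).IsRoot (q / π) ∧
      (h.map (Int.castRingHom L)).IsRoot (π + q / π) := by
  have hq0 : (q : L) ≠ 0 := by exact_mod_cast hq
  have hmapL : (lift (q : ℤ) g h).map (Int.castRingHom L)
      = lift (q : L) g (h.map (Int.castRingHom L)) := by
    rw [lift_map]; simp
  have hdL : (h.map (Int.castRingHom L)).natDegree ≤ g := by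
    rw [hm.natDegree_map, hd]
  have hπ0 : π ≠ 0 := by
    rintro rfl
    rw [hmapL, IsRoot.def, lift_eval_zero] at hπ
    have h1 : (h.map (Int.castRingHom L)).coeff g = 1 := by
      rw [coeff_map, ← hd, hm.coeff_natDegree, map_one]
    rw [h1, one_mul] at hπ
    exact pow_ne_zero _ hq0 hπ
  have hπ'0 : (q : L) / π ≠ 0 := div_ne_zero hq0 hπ0
  have hyroot : (h.map (Int.castRingHom L)).IsRoot (π + q / π) := by
    rw [hmapL, IsRoot.def, lift_eval _ _ _ hdL π hπ0] at hπ
    exact (mul_eq_zero.1 hπ).resolve_left (pow_ne_zero _ hπ0)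
  refine ⟨hπ0, ?_, hyroot⟩
  rw [hmapL, IsRoot.def, lift_eval _ _ _ hdL _ hπ'0]
  have : (q : L) / π + q / (q / π) = π + q / π := by field_simp; ring
  rw [this, hyroot.eq_zero, mul_zero]

variable {κ : Type} {q : ℕ} {g : κ → ℕ} {h : κ → ℤ[X]} {L : Type} [Field L] [NumberField L]
  [IsGalois ℚ L]

/-- A multiplicative relation between roots is balanced. -/
theorem balanced_of_flips (hq : q ≠ 0) (hm : ∀ i, (h i).Monic) (hd : ∀ i, (h i).natDegree = g i)
    (hirr : ∀ i, Irreducible ((h i).map (Int.castRingHom ℚ)))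
    (hflip : ∀ i0, ∃ (σ : L ≃ₐ[ℚ] L) (y0 : L), ((h i0).map (Int.castRingHom L)).IsRoot y0 ∧
      ∀ i (π : L), ((lift (q : ℤ) (g i) (h i)).map (Int.castRingHom L)).IsRoot π →
        (π + q / π = y0 → σ π = q / π) ∧ (π + q / π ≠ y0 → σ π = π))
    (R : Multiset L)
    (hR : ∀ π ∈ R, ∃ i, ((lift (q : ℤ) (g i) (h i)).map (Int.castRingHom L)).IsRoot π)
    (m s : ℕ) (hs : 0 < s) (hprod : R.prod ^ s = ((q : L) ^ m) ^ s) [DecidableEq L] (i : κ) (π : L)
    (hπ : ((lift (q : ℤ) (g i) (h i)).map (Int.castRingHom L)).IsRoot π) :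
    SS q π ∨ R.count π = R.count (q / π) := by
  classical
  have hq0 : (q : L) ≠ 0 := by exact_mod_cast hq
  obtain ⟨hπ0, hπ', hy⟩ := root_symm (hm i) (hd i) hq hπ
  have hπ'0 : (q : L) / π ≠ 0 := div_ne_zero hq0 hπ0
  by_cases hself : (q : L) / π = π
  · left; exact SS.of_eq hπ0 hself
  obtain ⟨σ, y0, hy0, hσ⟩ := hflip i
  -- move `y0` to `y`
  set y := π + q / π with hydef
  have hmin : minpoly ℚ y = (h i).map (Int.castRingHom ℚ) := by
    refine (minpoly.eq_of_irreducible_of_monic (hirr i) ?_ ((hm i).map _)).symm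
    rw [aeval_def, ← eval_map, Polynomial.map_map]
    have : (algebraMap ℚ L).comp (Int.castRingHom ℚ) = Int.castRingHom L := RingHom.ext_int _ _
    rw [this]; exact hy
  obtain ⟨τ, hτ⟩ : ∃ τ : L ≃ₐ[ℚ] L, τ y0 = y := by
    refine minpoly.exists_algEquiv_of_root (K := ℚ) (x := y0) (y := y)
      (Algebra.IsAlgebraic.isAlgebraic y) ?_
    rw [hmin, aeval_def, ← eval_map, Polynomial.map_map]
    have : (algebraMap ℚ L).comp (Int.castRingHom ℚ) = Int.castRingHom L := RingHom.ext_int _ _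
    rw [this]; exact hy0
  have hτq : ∀ ρ : L ≃ₐ[ℚ] L, ρ (q : L) = q := fun ρ => map_natCast ρ q
  -- the conjugate flip
  have hroot : ∀ (ρ : L ≃ₐ[ℚ] L) (j : κ) (z : L),
      ((lift (q : ℤ) (g j) (h j)).map (Int.castRingHom L)).IsRoot z →
      ((lift (q : ℤ) (g j) (h j)).map (Int.castRingHom L)).IsRoot (ρ z) := by
    intro ρ j z hz
    have h2 : ((lift (q : ℤ) (g j) (h j)).map (Int.castRingHom L))
        = ((lift (q : ℤ) (g j) (h j)).map (Int.castRingHom L)).map (ρ : L →+* L) := by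
      rw [Polynomial.map_map]; congr 1; exact RingHom.ext_int _ _
    rw [h2]
    exact hz.map
  let σ' : L ≃ₐ[ℚ] L := (τ.symm.trans σ).trans τ
  have hσ'def : ∀ z, σ' z = τ (σ (τ.symm z)) := fun z => rfl
  have hσ' : ∀ j (z : L), ((lift (q : ℤ) (g j) (h j)).map (Int.castRingHom L)).IsRoot z →
      (z + q / z = y → σ' z = q / z) ∧ (z + q / z ≠ y → σ' z = z) := by
    intro j z hz
    have hz' := hroot τ.symm j z hz
    have h1 : τ.symm z + q / τ.symm z = τ.symm (z + q / z) := by
      rw [map_add, map_div₀, hτq]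
    have h2 : τ.symm (z + q / z) = y0 ↔ z + q / z = y := by
      rw [← hτ]
      constructor
      · intro h; rw [← h, AlgEquiv.apply_symm_apply]
      · intro h; rw [h, AlgEquiv.symm_apply_apply]
    obtain ⟨hA, hB⟩ := hσ j _ hz'
    rw [h1] at hA hB
    constructor
    · intro h
      rw [hσ'def, hA (h2.2 h), map_div₀, hτq, AlgEquiv.apply_symm_apply]
    · intro h
      rw [hσ'def, hB (fun h' => h (h2.1 h')), AlgEquiv.apply_symm_apply]
  -- values of `σ'` on the pair
  have hσπ : σ' π = q / π := (hσ' i π hπ).1 rfl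
  have hσπ' : σ' (q / π) = π := by
    rw [map_div₀, hτq, hσπ]; field_simp
  -- the part of `R` away from the pair
  set rest := R.filter (fun z => z ≠ π ∧ z ≠ q / π) with hrest
  have hfix : ∀ z ∈ rest, σ' z = z := by
    intro z hz
    obtain ⟨hzR, hz1, hz2⟩ := Multiset.mem_filter.1 hz
    obtain ⟨j, hj⟩ := hR z hzR
    apply (hσ' j z hj).2
    intro h
    obtain ⟨hz0, -, -⟩ := root_symm (hm j) (hd j) hq hj
    have h1 : (z - π) * (z - q / π) = 0 := by
      have h2 : z * (z + q / z) = z * z + q := by field_simp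
      rw [h, hydef] at h2
      have h3 : (z - π) * (z - q / π) = z * z + π * (q / π) - z * (π + q / π) := by ring
      rw [h3, h2, mul_div_cancel₀ _ hπ0]; ring
    rcases mul_eq_zero.1 h1 with h2 | h2
    · exact hz1 (sub_eq_zero.1 h2)
    · exact hz2 (sub_eq_zero.1 h2)
  have hdecomp : R = Multiset.replicate (R.count π) π +
      (Multiset.replicate (R.count (q / π)) (q / π) + rest) := by
    ext z
    rw [Multiset.count_add, Multiset.count_add, Multiset.count_replicate, Multiset.count_replicate,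
      hrest, Multiset.count_filter]
    by_cases h1 : π = z
    · subst h1; simp [hself]
    · by_cases h2 : (q : L) / π = z
      · subst h2; simp [h1, fun h : (q : L) / π = π => hself h]
      · have h1' : ¬ z = π := fun h => h1 h.symm
        have h2' : ¬ z = q / π := fun h => h2 h.symm
        simp [h1, h2, h1', h2']
  have hRprod : R.prod = π ^ R.count π * ((q / π) ^ R.count (q / π) * rest.prod) := by
    conv_lhs => rw [hdecomp]
    simp
  have hrest0 : rest.prod ≠ 0 := by
    rw [Ne, Multiset.prod_eq_zero_iff]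
    intro h0
    obtain ⟨j, hj⟩ := hR 0 (Multiset.mem_filter.1 h0).1
    exact (root_symm (hm j) (hd j) hq hj).1 rfl
  have hσrest : σ' rest.prod = rest.prod := by
    rw [map_multiset_prod, Multiset.map_congr rfl hfix, Multiset.map_id']
  have h1 : (σ' R.prod) ^ s = R.prod ^ s := by
    rw [← map_pow, hprod, map_pow, map_pow, hτq]
  rw [hRprod, map_mul, map_mul, map_pow, map_pow, hσπ, hσπ', hσrest] at h1
  set c := R.count π with hc
  set d := R.count (q / π) with hdd
  -- cancel the rest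
  have h2 : ((q / π) ^ c * π ^ d) ^ s = (π ^ c * (q / π) ^ d) ^ s := by
    have h3 : ((q / π) ^ c * π ^ d) ^ s * rest.prod ^ s = (π ^ c * (q / π) ^ d) ^ s * rest.prod ^ s
        := by
      rw [← mul_pow, ← mul_pow, mul_assoc, h1, mul_assoc]
    exact mul_right_cancel₀ (pow_ne_zero _ hrest0) h3
  have h3 : ∀ c d : ℕ, c < d → ((q / π : L) ^ c * π ^ d) ^ s = (π ^ c * (q / π) ^ d) ^ s →
      SS q π := by
    intro c d hcd h4
    refine ⟨(d - c) * s, Nat.mul_pos (Nat.sub_pos_of_lt hcd) hs, ?_⟩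
    obtain ⟨e, rfl⟩ := Nat.exists_eq_add_of_lt hcd
    have h5 : c + e + 1 - c = e + 1 := by omega
    rw [h5]
    have h6 : ((q / π : L) ^ c * π ^ c) ^ s * (π ^ (e + 1)) ^ s
        = ((q / π : L) ^ c * π ^ c) ^ s * ((q / π : L) ^ (e + 1)) ^ s := by
      calc _ = ((q / π : L) ^ c * π ^ (c + e + 1)) ^ s := by ring
        _ = (π ^ c * (q / π) ^ (c + e + 1)) ^ s := h4
        _ = _ := by ring
    have h7 : (π ^ (e + 1)) ^ s = ((q / π : L) ^ (e + 1)) ^ s := by
      refine mul_left_cancel₀ ?_ h6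
      exact pow_ne_zero _ (mul_ne_zero (pow_ne_zero _ hπ'0) (pow_ne_zero _ hπ0))
    calc (π ^ 2) ^ ((e + 1) * s) = (π ^ (e + 1)) ^ s * (π ^ (e + 1)) ^ s := by ring
      _ = ((q / π : L) ^ (e + 1)) ^ s * (π ^ (e + 1)) ^ s := by rw [h7]
      _ = ((q / π : L) * π) ^ ((e + 1) * s) := by ring
      _ = _ := by rw [div_mul_cancel₀ _ hπ0]
  rcases lt_trichotomy c d with h4 | h4 | h4
  · left; exact h3 c d h4 h2
  · right; exact h4
  · left
    apply h3 d c h4
    rw [mul_comm ((q / π : L) ^ d), mul_comm (π ^ d), ← h2]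

/-- Flips imply that every Tate class is generated in degree two. -/
theorem good_of_flips [Fintype κ] (hq : q ≠ 0) (hm : ∀ i, (h i).Monic)
    (hd : ∀ i, (h i).natDegree = g i)
    (hirr : ∀ i, Irreducible ((h i).map (Int.castRingHom ℚ)))
    (hPs : ∀ i, ((lift (q : ℤ) (g i) (h i)).map (Int.castRingHom L)).Splits)
    (hflip : ∀ i0, ∃ (σ : L ≃ₐ[ℚ] L) (y0 : L), ((h i0).map (Int.castRingHom L)).IsRoot y0 ∧
      ∀ i (π : L), ((lift (q : ℤ) (g i) (h i)).map (Int.castRingHom L)).IsRoot π →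
        (π + q / π = y0 → σ π = q / π) ∧ (π + q / π ≠ y0 → σ π = π))
    {Ω : Type*} [Field Ω] [IsAlgClosed Ω] [CharZero Ω]
    {V : Type*} [AddCommGroup V] [Module Ω V] (F : Module.End Ω V) (n : κ → ℕ)
    (hV : IsH1 (∏ i, lift (q : ℤ) (g i) (h i) ^ n i) V F) (m : ℕ) (x : ExteriorAlgebra Ω V)
    (hx : IsTateClass F q m x) : x ∈ Algebra.adjoin Ω {y | IsTateClass F q 1 y} := by
  classical
  have := hV.fin
  let ψ : L →ₐ[ℚ] Ω := IsAlgClosed.lift
  have hψinj : Function.Injective ψ := ψ.toRingHom.injective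
  have hqΩ : (q : Ω) ≠ 0 := by exact_mod_cast hq
  have hψq : ψ (q : L) = q := map_natCast ψ q
  obtain ⟨b, ν, hν, hνr⟩ := exists_eigenbasis F hV.semisimple
  obtain ⟨hxV, s, hs, hxF⟩ := hx
  rw [hV.charpoly] at hνr
  -- eigenvalues come from `L`
  have hPm : ∀ i, (lift (q : ℤ) (g i) (h i)).Monic := fun i =>
    (lift_monic _ _ _ (hm i) (hd i)).1
  have heig : ∀ j, ∃ i, ∃ π : L, ((lift (q : ℤ) (g i) (h i)).map (Int.castRingHom L)).IsRoot π ∧
      ψ π = ν j := by
    intro j
    have h1 : ν j ∈ ((∏ i, lift (q : ℤ) (g i) (h i) ^ n i).map (Int.castRingHom Ω)).roots := by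
      rw [← hνr]; exact Multiset.mem_map_of_mem _ (Finset.mem_univ j)
    have h2 := (mem_roots'.1 h1).2
    rw [Polynomial.map_prod, IsRoot.def, eval_prod, Finset.prod_eq_zero_iff] at h2
    obtain ⟨i, _, hi⟩ := h2
    rw [Polynomial.map_pow, eval_pow] at hi
    have h3 := eq_zero_of_pow_eq_zero hi
    refine ⟨i, ?_⟩
    have h4 : (lift (q : ℤ) (g i) (h i)).map (Int.castRingHom Ω)
        = ((lift (q : ℤ) (g i) (h i)).map (Int.castRingHom L)).map (ψ : L →+* Ω) := by
      rw [Polynomial.map_map]; congr 1; exact RingHom.ext_int _ _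
    have h5 : ν j ∈ (((lift (q : ℤ) (g i) (h i)).map (Int.castRingHom L)).map
        (ψ : L →+* Ω)).roots := by
      rw [mem_roots (((hPm i).map _).map _).ne_zero, ← h4]; exact h3
    rw [(hPs i).roots_map] at h5
    obtain ⟨π, hπ, hπν⟩ := Multiset.mem_map.1 h5
    exact ⟨π, (mem_roots ((hPm i).map _).ne_zero).1 hπ, hπν⟩
  -- the class is a combination of monomials
  have hspan := tate_span F (Set.range b) b.span_eq (by
    rintro _ ⟨j, rfl⟩; exact ⟨ν j, hν j⟩) (2 * m) s (((q : Ω) ^ m) ^ s) x hxV hxF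
  refine Submodule.span_le (p := Subalgebra.toSubmodule (Algebra.adjoin Ω
    {y | IsTateClass F q 1 y})) |>.2 ?_ hspan
  rintro t ⟨v, μ, hvS, hvF, hμ, rfl⟩
  rw [SetLike.mem_coe, Subalgebra.mem_toSubmodule]
  -- roots in `L`
  have hex : ∀ i, ∃ π : L, (∃ j, ((lift (q : ℤ) (g j) (h j)).map
      (Int.castRingHom L)).IsRoot π) ∧ ψ π = μ i := by
    intro i
    obtain ⟨j, hj⟩ := hvS i
    obtain ⟨i', π, hπ, hπν⟩ := heig j
    refine ⟨π, ⟨i', hπ⟩, ?_⟩
    have h1 := hvF i
    rw [← hj, hν j] at h1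
    have h2 := smul_left_injective Ω (b.ne_zero j) h1
    rw [hπν, h2]
  choose π hπ hπμ using hex
  set R : Multiset L := Finset.univ.val.map π with hRdef
  have hRprod : R.prod ^ s = ((q : L) ^ m) ^ s := by
    apply hψinj
    rw [map_pow, map_pow, map_pow, hψq, ← hμ]
    congr 1
    rw [hRdef, Finset.prod_map_val, map_prod]
    exact Finset.prod_congr rfl fun i _ => hπμ i
  have hRroot : ∀ z ∈ R, ∃ i, ((lift (q : ℤ) (g i) (h i)).map (Int.castRingHom L)).IsRoot z := by
    intro z hz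
    obtain ⟨i, _, rfl⟩ := Multiset.mem_map.1 hz
    exact hπ i
  have hbal := balanced_of_flips hq hm hd hirr hflip R hRroot m s hs hRprod
  -- the list
  have hlist : v = fun i => (fun i => (μ i, v i)) i |>.2 := rfl
  have h1 : mono (Ω := Ω) (List.ofFn v)
      = mono (Ω := Ω) ((List.ofFn fun i => (μ i, v i)).map Prod.snd) := by
    rw [List.map_ofFn]; rfl
  rw [h1]
  have hμ0 : ∀ i, μ i ≠ 0 := by
    intro i
    obtain ⟨j, hj⟩ := hπ i
    rw [← hπμ i]
    exact fun h0 => (root_symm (hm j) (hd j) hq hj).1 (hψinj (by rw [h0, map_zero]))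
  have hcount : ∀ a : L, (List.ofFn μ).count (ψ a) = R.count a := by
    intro a
    have h2 : ((List.ofFn μ : List Ω) : Multiset Ω) = R.map ψ := by
      rw [hRdef, Multiset.map_map]
      rw [show (⇑ψ ∘ π) = μ from funext hπμ]
      simp [Fin.univ_val_map]
    rw [← Multiset.coe_count, h2, Multiset.count_map_eq_count' _ _ hψinj]
  refine mono_mem_adjoin F q hqΩ (2 * m) _ (by simp) (even_two_mul m) ?_ ?_ ?_
  · intro e he
    obtain ⟨i, rfl⟩ := (List.mem_ofFn' _ _).1 he
    exact hvF i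
  · intro e he
    obtain ⟨i, rfl⟩ := (List.mem_ofFn' _ _).1 he
    exact hμ0 i
  · intro a ha hss
    rw [List.map_ofFn]
    change (List.ofFn μ).count a = (List.ofFn μ).count ((q : Ω) / a)
    by_cases hrange : ∃ c : L, ψ c = a
    · obtain ⟨c, rfl⟩ := hrange
      have hqc : (q : Ω) / ψ c = ψ (q / c) := by rw [map_div₀, hψq]
      rw [hqc, hcount, hcount]
      by_cases hc : ∃ i, ((lift (q : ℤ) (g i) (h i)).map (Int.castRingHom L)).IsRoot c
      · obtain ⟨i, hi⟩ := hc
        rcases hbal i c hi with h2 | h2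
        · exfalso
          apply hss
          obtain ⟨t, ht, h3⟩ := h2
          refine ⟨t, ht, ?_⟩
          have := congrArg ψ h3
          rwa [map_pow, map_pow, map_pow, hψq] at this
        · exact h2
      · have h2 : c ∉ R := fun h => hc (hRroot c h)
        have h3 : (q : L) / c ∉ R := by
          intro h
          obtain ⟨i, hi⟩ := hRroot _ h
          apply hc
          have hq0 : (q : L) ≠ 0 := by exact_mod_cast hq
          have hc0 : c ≠ 0 := by rintro rfl; exact ha (map_zero ψ)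
          have h4 := (root_symm (hm i) (hd i) hq hi).2.1
          rw [div_div_cancel₀ hq0] at h4
          exact ⟨i, h4⟩
        rw [Multiset.count_eq_zero_of_notMem h2, Multiset.count_eq_zero_of_notMem h3]
    · have h2 : a ∉ List.ofFn μ := by
        intro h
        obtain ⟨i, rfl⟩ := (List.mem_ofFn' _ _).1 h
        exact hrange ⟨π i, hπμ i⟩
      have h3 : (q : Ω) / a ∉ List.ofFn μ := by
        intro h
        obtain ⟨i, hi⟩ := (List.mem_ofFn' _ _).1 h
        apply hrange
        refine ⟨q / π i, ?_⟩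
        rw [map_div₀, hψq, hπμ i, hi, div_div_cancel₀ hqΩ]
      rw [List.count_eq_zero_of_not_mem h2, List.count_eq_zero_of_not_mem h3]

end flips

end Pool.Agent.W518.DN
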