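import Pool.Agent.W518.DN.Count
import Pool.Agent.W518.DN.Good

/-!
# Almost all isogeny classes
-/

open Polynomial NumberField

namespace Pool.Agent.W518.DN

open Pool.Agent.W518.TC

/-- For the abelian varieties `A_i` with Frobenius polynomials `P i` over the field with `q`
elements: every Tate class on every product of powers of the `A_i` lies in the algebra generated by
the Tate classes of codimension one (divisor classes). -/
def TateByDivisors {κ : Type} [Fintype κ] (q : ℕ) (P : κ → ℤ[X]) : Prop :=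
  ∀ (n : κ → ℕ) (Ω : Type) [Field Ω] [IsAlgClosed Ω] [CharZero Ω]
    (V : Type) [AddCommGroup V] [Module Ω V] (F : Module.End Ω V), IsH1 (∏ i, P i ^ n i) V F →
    ∀ (m : ℕ) (x : ExteriorAlgebra Ω V), IsTateClass F q m x →
      x ∈ Algebra.adjoin Ω {y | IsTateClass F q 1 y}

theorem good_of_patterns {κ : Type} [Fintype κ] {q : ℕ} (hq : q ≠ 0) (g : κ → ℕ) (h : κ → ℤ[X])
    (hm : ∀ i, (h i).Monic) (hd : ∀ i, (h i).natDegree = g i)
    (hirr : ∀ i, ∃ (l : ℕ) (_ : Fact l.Prime), Irreducible ((h i).map (Int.castRingHom (ZMod l))))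
    (hfl : ∀ i0, ∃ (l : ℕ) (_ : Fact l.Prime), (q : ZMod l) ≠ 0 ∧
      ∃ (y : ∀ i, Fin (g i) → ZMod l), (∀ i, Function.Injective (y i)) ∧
        (∀ i, (h i).map (Int.castRingHom (ZMod l)) = ∏ t, (X - C (y i t))) ∧
        ∃ t0 : Fin (g i0), y i0 t0 ∈ goodB l q ∧
          ∀ i t, (⟨i, t⟩ : Σ i, Fin (g i)) ≠ ⟨i0, t0⟩ → y i t ∈ goodA l q) :
    TateByDivisors q fun i => lift (q : ℤ) (g i) (h i) := by
  classical
  have hirrQ : ∀ i, Irreducible ((h i).map (Int.castRingHom ℚ)) := by
    intro i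
    obtain ⟨l, hl, hi⟩ := hirr i
    have h1 : Irreducible (h i) := (hm i).irreducible_of_irreducible_map _ _ hi
    exact (IsPrimitive.Int.irreducible_iff_irreducible_map_cast (hm i).isPrimitive).1 h1
  have hPm : ∀ i, (lift (q : ℤ) (g i) (h i)).Monic := fun i => (lift_monic _ _ _ (hm i) (hd i)).1
  set f : ℤ[X] := ∏ i, (lift (q : ℤ) (g i) (h i) * h i) with hf
  have hfm : f.Monic := monic_prod_of_monic _ _ fun i _ => (hPm i).mul (hm i)
  set PQ : ℚ[X] := f.map (Int.castRingHom ℚ) with hPQ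
  have hLN : NumberField PQ.SplittingField :=
    { to_charZero := charZero_of_injective_algebraMap (algebraMap ℚ PQ.SplittingField).injective
      to_finiteDimensional := inferInstance }
  have hsf : IsSplittingField ℚ PQ.SplittingField PQ := Polynomial.IsSplittingField.splittingField PQ
  have hnormal : Normal ℚ PQ.SplittingField := Normal.of_isSplittingField PQ
  have hGal : IsGalois ℚ PQ.SplittingField := ⟨⟩
  have hsplit : (f.map (Int.castRingHom PQ.SplittingField)).Splits := by
    have h1 := SplittingField.splits PQ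
    convert h1 using 1
    rw [hPQ, Polynomial.map_map]; congr 1
  have hf0 : f.map (Int.castRingHom PQ.SplittingField) ≠ 0 := (hfm.map _).ne_zero
  have hsub : ∀ i, (((lift (q : ℤ) (g i) (h i)) * h i).map
      (Int.castRingHom PQ.SplittingField)).Splits := by
    intro i
    refine hsplit.of_dvd hf0 ?_
    exact Polynomial.map_dvd _ (Finset.dvd_prod_of_mem _ (Finset.mem_univ i))
  have hPs : ∀ i, ((lift (q : ℤ) (g i) (h i)).map (Int.castRingHom PQ.SplittingField)).Splits :=
    fun i => (hsub i).of_dvd (((hPm i).mul (hm i)).map _).ne_zero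
      (Polynomial.map_dvd _ (dvd_mul_right _ _))
  have hhs : ∀ i, ((h i).map (Int.castRingHom PQ.SplittingField)).Splits := fun i =>
    (hsub i).of_dvd (((hPm i).mul (hm i)).map _).ne_zero (Polynomial.map_dvd _ (dvd_mul_left _ _))
  intro n Ω _ _ _ V _ _ F hV m x hx
  refine good_of_flips (L := PQ.SplittingField) hq hm hd hirrQ hPs ?_ F n hV m x hx
  intro i0
  obtain ⟨l, hl, hql, y, hy, hhy, t0, hB, hA⟩ := hfl i0
  exact exists_flip q g h hm hd PQ.SplittingField hhs l hql y hy hhy i0 t0 hB hA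

section patterns

variable {κ : Type} [Fintype κ] [DecidableEq κ] (g : κ → ℕ) (q : ℕ)

/-- The conditions modulo `l`. -/
noncomputable def pat (l : ℕ) [Fact l.Prime] : κ ⊕ κ → ∀ i : κ, Finset (Fin (g i) → ZMod l)
  | Sum.inl i0, i => if i = i0 then irrSet l (g i) else Finset.univ
  | Sum.inr i0, i => rootSet l fun t => if i = i0 ∧ (t : ℕ) = 0 then goodB l q else goodA l q

/-- The residue classes satisfying a condition. -/
noncomputable def patSet (l : ℕ) [Fact l.Prime] (c : κ ⊕ κ) :
    Finset ((Σ i, Fin (g i)) → ZMod l) := by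
  classical
  exact Finset.univ.filter fun b => ∀ i, (fun t => b ⟨i, t⟩) ∈ pat g q l c i

omit [DecidableEq κ] in
lemma card_curry {A : Type} [Fintype A] [DecidableEq A] (E : ∀ i : κ, Finset (Fin (g i) → A))
    [DecidableEq κ] [DecidablePred fun b : (Σ i, Fin (g i)) → A => ∀ i, (fun t => b ⟨i, t⟩) ∈ E i] :
    (Finset.univ.filter fun b : (Σ i, Fin (g i)) → A => ∀ i, (fun t => b ⟨i, t⟩) ∈ E i).card
      = ∏ i, (E i).card := by
  rw [← Fintype.card_piFinset]
  refine Finset.card_bij' (fun b _ i t => b ⟨i, t⟩) (fun c _ j => c j.1 j.2) ?_ ?_ ?_ ?_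
  · intro b hb
    rw [Fintype.mem_piFinset]
    exact (Finset.mem_filter.1 hb).2
  · intro c hc
    rw [Finset.mem_filter]
    exact ⟨Finset.mem_univ _, Fintype.mem_piFinset.1 hc⟩
  · intro b _; rfl
  · intro c _; rfl

omit [Fintype κ] in
theorem pat_card {l : ℕ} [hl : Fact l.Prime] (hg : ∀ i, 1 ≤ g i) (hlg : ∀ i, 4 * g i + 8 ≤ l)
    (hq : (q : ZMod l) ≠ 0) (c : κ ⊕ κ) (i : κ) :
    l ^ g i ≤ (4 * g i) ^ g i * (pat g q l c i).card := by
  rcases c with i0 | i0
  · by_cases h : i = i0
    · simp only [pat, if_pos h]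
      have h1 := irrSet_card l (by have := hlg i; omega) (hg i)
      refine h1.trans (Nat.mul_le_mul_right _ ?_)
      calc 2 * g i ≤ 4 * g i := by omega
        _ ≤ (4 * g i) ^ g i := Nat.le_self_pow (by have := hg i; omega) _
    · simp only [pat, if_neg h]
      have h1 : 1 ≤ (4 * g i) ^ g i := Nat.one_le_pow _ _ (by have := hg i; omega)
      rw [Finset.card_univ, Fintype.card_fun, ZMod.card, Fintype.card_fin]
      exact Nat.le_mul_of_pos_left _ h1
  · simp only [pat]
    refine rootSet_card' (hlg i) _ fun t => ?_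
    split_ifs
    · exact card_goodB hq
    · exact card_goodA

theorem patSet_card {l : ℕ} [hl : Fact l.Prime] (hg : ∀ i, 1 ≤ g i) (hlg : ∀ i, 4 * g i + 8 ≤ l)
    (hq : (q : ZMod l) ≠ 0) (c : κ ⊕ κ) :
    (∏ i, ((4 * g i : ℕ) ^ g i : ℝ))⁻¹ * (l : ℝ) ^ (Fintype.card (Σ i, Fin (g i))) ≤
      ((patSet g q l c).card : ℝ) := by
  classical
  have h1 : (patSet g q l c).card = ∏ i, (pat g q l c i).card := by
    rw [patSet]
    convert card_curry g (pat g q l c) using 2
  have h2 : l ^ Fintype.card (Σ i, Fin (g i)) ≤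
      (∏ i, (4 * g i) ^ g i) * (patSet g q l c).card := by
    rw [h1, Fintype.card_sigma, ← Finset.prod_mul_distrib]
    simp only [Fintype.card_fin]
    rw [← Finset.prod_pow_eq_pow_sum]
    exact Finset.prod_le_prod' fun i _ => pat_card g q hg hlg hq c i
  have h3 : (0 : ℝ) < ∏ i, ((4 * g i : ℕ) ^ g i : ℝ) := by
    refine Finset.prod_pos fun i _ => ?_
    have := hg i
    positivity
  rw [inv_mul_le_iff₀ h3]
  exact_mod_cast h2

end patterns

end Pool.Agent.W518.DN
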