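import Pool.Agent.W518.DN.Residue
import Pool.Agent.W518.DN.Good

/-!
# Degrees of roots of slope smaller than one half
-/

open Polynomial

namespace Pool.Agent.W518.DN

/-- a maximal segment of constant slope smaller than `1 / 2` -/
structure Seg (μ : ℕ → ℚ) (g K0 K1 : ℕ) : Prop where
  lt : K0 < K1
  le : K1 ≤ g
  left : ∀ j < K0, μ j < μ K0
  const : ∀ j, K0 ≤ j → j < K1 → μ j = μ K0
  right : ∀ j, K1 ≤ j → μ K0 < μ j

section sums

variable {μ : ℕ → ℚ} {g K0 K1 : ℕ}

lemma Ssum_sub {k l : ℕ} (h : k ≤ l) : Ssum μ l - Ssum μ k = ∑ j ∈ Finset.Ico k l, μ j := by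
  rw [Ssum, Ssum, Finset.sum_Ico_eq_sub _ h]

lemma Ssum_seg (hS : Seg μ g K0 K1) {k : ℕ} (h0 : K0 ≤ k) (h1 : k ≤ K1) :
    Ssum μ k - Ssum μ K0 = (k - K0 : ℕ) * μ K0 := by
  rw [Ssum_sub h0, Finset.sum_congr rfl fun j hj => hS.const j (Finset.mem_Ico.1 hj).1
    ((Finset.mem_Ico.1 hj).2.trans_le h1)]
  simp

lemma Ssum_lt (hS : Seg μ g K0 K1) {k : ℕ} (h : k < K0) :
    Ssum μ K0 - Ssum μ k < (K0 - k : ℕ) * μ K0 := by
  rw [Ssum_sub h.le]
  calc ∑ j ∈ Finset.Ico k K0, μ j < ∑ _j ∈ Finset.Ico k K0, μ K0 :=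
        Finset.sum_lt_sum_of_nonempty (Finset.nonempty_Ico.2 h) fun j hj =>
          hS.left j (Finset.mem_Ico.1 hj).2
    _ = _ := by simp

lemma Ssum_gt (hS : Seg μ g K0 K1) {k : ℕ} (h : K1 < k) :
    (k - K0 : ℕ) * μ K0 < Ssum μ k - Ssum μ K0 := by
  rw [Ssum_sub (hS.lt.le.trans h.le)]
  calc _ = ∑ _j ∈ Finset.Ico K0 k, μ K0 := by simp
    _ < ∑ j ∈ Finset.Ico K0 k, μ j := by
      refine Finset.sum_lt_sum (fun j hj => ?_) ⟨K1, ?_, hS.right K1 le_rfl⟩
      · rcases lt_or_ge j K1 with h1 | h1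
        · exact (hS.const j (Finset.mem_Ico.1 hj).1 h1).ge
        · exact (hS.right j h1).le
      · exact Finset.mem_Ico.2 ⟨hS.lt.le, h⟩

end sums

variable (p : ℕ) [hp : Fact p.Prime]

lemma nv_add_eq {x y : AlgebraicClosure ℚ_[p]} (h : nv p y < nv p x) : nv p (x + y) = nv p x := by
  refine le_antisymm ((nv_na p x y).trans (max_le le_rfl h.le)) ?_
  have h1 := nv_na p (x + y) (-y)
  rw [add_neg_cancel_right, map_neg_eq_map] at h1
  rcases le_max_iff.1 h1 with h2 | h2
  · exact h2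
  · exact absurd h (not_lt.2 h2)

/-- Two polynomials over `ZMod p` with a common root in the residue field. -/
lemma natDegree_le_of_common_root {A B : (ZMod p)[X]} (hA : Irreducible A) (hB : B ≠ 0) (d : kk p)
    (hAd : (A.map (jj p)).eval d = 0) (hBd : (B.map (jj p)).eval d = 0) :
    A.natDegree ≤ B.natDegree := by
  have hdvd : A ∣ B := by
    by_contra hnd
    have hcop : IsCoprime A B := (hA.coprime_iff_not_dvd).2 hnd
    obtain ⟨U, V, hUV⟩ := hcop
    have h1 := congrArg (fun F : (ZMod p)[X] => (F.map (jj p)).eval d) hUV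
    simp only [Polynomial.map_add, Polynomial.map_mul, eval_add, eval_mul, hAd, hBd, mul_zero,
      add_zero, Polynomial.map_one, eval_one] at h1
    exact zero_ne_one h1
  exact natDegree_le_of_dvd hdvd hB

lemma pw_natpow (n : ℕ) : pw p (n : ℚ) = ((p : ℝ) ^ n)⁻¹ := by
  have := pw_int hp.out.two_le (n : ℤ)
  rw [Int.cast_natCast] at this
  rw [this, zpow_neg, zpow_natCast]

lemma nv_ppow (n : ℕ) : nv p ((p : AlgebraicClosure ℚ_[p]) ^ n) = pw p n := by
  rw [map_pow, nv_p, pw_natpow, inv_pow]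

lemma nv_int_le (n : ℤ) : nv p (n : AlgebraicClosure ℚ_[p]) ≤ 1 := by
  have := nv_algebraMap p (n : ℚ_[p])
  rw [map_intCast] at this
  rw [this]; exact Padic.norm_int_le_one n

/-- The absolute value of an element of `ℚ_p` is an integral power of `p`. -/
lemma norm_eq_pw {x : ℚ_[p]} (hx : x ≠ 0) : ∃ n : ℤ, ‖x‖ = pw p n := by
  refine ⟨x.valuation, ?_⟩
  rw [Padic.norm_eq_zpow_neg_valuation hx, pw_int hp.out.two_le]

/-- The reduction of the minimal polynomial of an element of slope `u / e`. -/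
theorem exists_B {α : AlgebraicClosure ℚ_[p]} (hα0 : α ≠ 0) {t : ℚ} (ht0 : 0 ≤ t)
    (hα : nv p α = pw p t) (δ : OO p)
    (hδ : (δ : AlgebraicClosure ℚ_[p]) = (p : AlgebraicClosure ℚ_[p]) ^ t.num.toNat / α ^ t.den) :
    ∃ B : (ZMod p)[X], B ≠ 0 ∧ B.natDegree ≤ (minpoly ℚ_[p] α).natDegree / t.den ∧
      (B.map (jj p)).eval (red p δ) = 0 := by
  classical
  have hp2 := hp.out.two_le
  set H := minpoly ℚ_[p] α with hH
  set m := H.natDegree with hm
  set e := t.den with he
  set u := t.num.toNat with hu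
  have hαi : IsIntegral ℚ_[p] α := Algebra.IsIntegral.isIntegral α
  have hHm : H.Monic := minpoly.monic hαi
  have hepos : 0 < e := t.den_pos
  have hute : (u : ℚ) = t * e := by
    have h1 : (t.num : ℚ) = t * t.den := (Rat.mul_den_eq_num t).symm
    have h2 : ((t.num.toNat : ℤ) : ℚ) = t.num := by
      rw [Int.toNat_of_nonneg (Rat.num_nonneg.2 ht0)]
    rw [hu, he, ← h1, ← h2]; push_cast; rfl
  -- the terms
  let Xt : ℕ → AlgebraicClosure ℚ_[p] := fun i => algebraMap ℚ_[p] _ (H.coeff (m - i)) / α ^ i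
  have hXnv : ∀ i, nv p (Xt i) = ‖H.coeff (m - i)‖ / pw p (i * t) := by
    intro i
    rw [map_div₀, map_pow, hα, nv_algebraMap, pw_nsmul hp2]
  have hXle : ∀ i ≤ m, nv p (Xt i) ≤ 1 := by
    intro i hi
    rw [hXnv, div_le_one (pw_pos hp2 _), pw_nsmul hp2]
    have := coeff_minpoly_le p α (m - i)
    rw [← hH, ← hm, hα, show m - (m - i) = i by omega] at this
    exact this
  have hXsum : ∑ i ∈ Finset.range (m + 1), Xt i = 0 := by
    have h1 : aeval α H = 0 := minpoly.aeval _ _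
    rw [aeval_eq_sum_range, ← hm, ← Finset.sum_range_reflect] at h1
    have h2 : ∑ i ∈ Finset.range (m + 1), Xt i = (∑ j ∈ Finset.range (m + 1),
        H.coeff (m + 1 - 1 - j) • α ^ (m + 1 - 1 - j)) / α ^ m := by
      rw [Finset.sum_div]
      refine Finset.sum_congr rfl fun i hi => ?_
      rw [Finset.mem_range] at hi
      have h3 : α ^ m = α ^ (m - i) * α ^ i := by rw [← pow_add]; congr 1; omega
      rw [Algebra.smul_def, Nat.add_sub_cancel, h3]
      have h4 : α ^ (m - i) ≠ 0 := pow_ne_zero _ hα0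
      have h5 : α ^ i ≠ 0 := pow_ne_zero _ hα0
      field_simp [Xt]
      simp only [Xt]
      field_simp
    rw [h2, h1, zero_div]
  -- residues
  have hr : ∀ k : ℕ, e * k ≤ m → ‖H.coeff (m - e * k) / (p : ℚ_[p]) ^ (u * k)‖ ≤ 1 := by
    intro k hk
    have h1 := hXle (e * k) hk
    rw [hXnv] at h1
    rw [norm_div, norm_pow, Padic.norm_p]
    have h2 : ((p : ℝ)⁻¹) ^ (u * k) = pw p (((e * k : ℕ) : ℚ) * t) := by
      have h3 : ((e * k : ℕ) : ℚ) * t = ((u * k : ℕ) : ℚ) := by
        push_cast; rw [hute]; ring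
      rw [h3, pw_natpow, inv_pow]
    rw [h2]; exact h1
  let rr : ℕ → ℤ_[p] := fun k => if hk : e * k ≤ m then ⟨_, hr k hk⟩ else 0
  have hrr : ∀ k, e * k ≤ m → ((rr k : ℤ_[p]) : ℚ_[p])
      = H.coeff (m - e * k) / (p : ℚ_[p]) ^ (u * k) := by
    intro k hk
    have : rr k = ⟨_, hr k hk⟩ := dif_pos hk
    rw [this]
  let B : (ZMod p)[X] := ∑ k ∈ Finset.range (m / e + 1), C (PadicInt.toZMod (rr k)) * X ^ k
  have hB0 : B.coeff 0 = 1 := by
    simp only [B, finsetSum_coeff, coeff_C_mul, coeff_X_pow]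
    rw [Finset.sum_eq_single 0]
    · have h1 : rr 0 = 1 := by
        apply Subtype.ext
        rw [hrr 0 (by simp), mul_zero, mul_zero, Nat.sub_zero, pow_zero, div_one, hm,
          hHm.coeff_natDegree]; rfl
      rw [h1]; simp
    · intro k _ hk; rw [if_neg (fun h => hk h.symm), mul_zero]
    · intro h; simp at h
  refine ⟨B, ?_, ?_, ?_⟩
  · intro h0; rw [h0, coeff_zero] at hB0; exact zero_ne_one hB0
  · refine natDegree_sum_le_of_forall_le _ _ fun k hk => ?_
    refine (natDegree_C_mul_X_pow_le _ _).trans ?_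
    rw [Finset.mem_range] at hk; omega
  · -- evaluate
    let Xo : ℕ → OO p := fun i => if hi : i ≤ m then ⟨Xt i, hXle i hi⟩ else 0
    have h1 : ∑ i ∈ Finset.range (m + 1), red p (Xo i) = 0 := by
      rw [← map_sum]
      have h2 : ∑ i ∈ Finset.range (m + 1), Xo i = 0 := by
        apply Subtype.ext
        push_cast
        rw [← hXsum]
        refine Finset.sum_congr rfl fun i hi => ?_
        rw [Finset.mem_range] at hi
        simp only [Xo, dif_pos (show i ≤ m by omega)]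
      rw [h2, map_zero]
    have hinj : Set.InjOn (fun k => e * k) (Finset.range (m / e + 1) : Set ℕ) := by
      intro k _ k' _ h
      exact Nat.eq_of_mul_eq_mul_left hepos h
    have h3 : ∑ i ∈ Finset.range (m + 1), red p (Xo i)
        = ∑ i ∈ (Finset.range (m / e + 1)).image (fun k => e * k), red p (Xo i) := by
      symm
      refine Finset.sum_subset ?_ ?_
      · intro i hi
        obtain ⟨k, hk, rfl⟩ := Finset.mem_image.1 hi
        rw [Finset.mem_range] at hk ⊢
        have : e * k ≤ m := by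
          calc e * k ≤ e * (m / e) := Nat.mul_le_mul_left _ (by omega)
            _ ≤ m := Nat.mul_div_le m e
        omega
      · intro i hi hi'
        rw [Finset.mem_range] at hi
        have hndvd : ¬ e ∣ i := by
          rintro ⟨k, rfl⟩
          apply hi'
          refine Finset.mem_image.2 ⟨k, ?_, rfl⟩
          rw [Finset.mem_range, Nat.lt_succ_iff, Nat.le_div_iff_mul_le hepos]
          rw [mul_comm]; omega
        rw [red_eq_zero]
        simp only [Xo, dif_pos (show i ≤ m by omega)]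
        refine lt_of_le_of_ne (hXle i (by omega)) ?_
        rw [hXnv]
        intro h4
        rw [div_eq_one_iff_eq (pw_pos hp2 _).ne'] at h4
        have hc0 : H.coeff (m - i) ≠ 0 := by
          intro h5; rw [h5, norm_zero] at h4; exact (pw_pos hp2 _).ne h4
        obtain ⟨n, hn⟩ := norm_eq_pw p hc0
        rw [hn] at h4
        have h5 := pw_inj hp2 h4
        -- `n = i * t`
        apply hndvd
        have h6 : (n : ℚ) * e = i * u := by rw [h5, hute]; ring
        have h7 : (e : ℤ) ∣ (i : ℤ) * u := ⟨n, by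
          have : (((i : ℤ) * u : ℤ) : ℚ) = (((e : ℤ) * n : ℤ) : ℚ) := by
            push_cast; linarith
          exact_mod_cast this⟩
        have h8 : e ∣ i * u := by exact_mod_cast h7
        have h9 : Nat.Coprime e u := by
          have := t.reduced
          rw [Nat.coprime_comm] at this
          have h10 : t.num.natAbs = u := by
            rw [hu]; have := Rat.num_nonneg.2 ht0; omega
          rwa [h10] at this
        exact h9.dvd_of_dvd_mul_right h8
    rw [h3, Finset.sum_image hinj] at h1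
    rw [← h1]
    simp only [B, Polynomial.map_sum, Polynomial.map_mul, map_C, Polynomial.map_pow, map_X,
      eval_finsetSum, eval_mul, eval_C, eval_pow, eval_X]
    refine Finset.sum_congr rfl fun k hk => ?_
    rw [Finset.mem_range] at hk
    have hkm : e * k ≤ m := by
      calc e * k ≤ e * (m / e) := Nat.mul_le_mul_left _ (by omega)
        _ ≤ m := Nat.mul_div_le m e
    rw [← red_iot, ← map_pow, ← map_mul]
    congr 1
    apply Subtype.ext
    push_cast
    rw [iot_coe, hδ, hrr k hkm]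
    simp only [Xo, dif_pos hkm, Xt]
    rw [map_div₀, map_pow, map_natCast]
    have hp0 : (p : AlgebraicClosure ℚ_[p]) ≠ 0 := by exact_mod_cast hp.out.ne_zero
    rw [div_pow, ← pow_mul, ← pow_mul]
    have h5 : (p : AlgebraicClosure ℚ_[p]) ^ (u * k) ≠ 0 := pow_ne_zero _ hp0
    have h6 : α ^ (e * k) ≠ 0 := pow_ne_zero _ hα0
    field_simp

/-- the exponents of `p` dividing the coefficients -/
noncomputable def sk (a : ℕ) (μ : ℕ → ℚ) (k : ℕ) : ℕ := ⌈(a : ℚ) * Ssum μ k⌉₊

/-- The reduction of the trace polynomial along a segment. -/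
noncomputable def segPoly (c : ℕ → ZMod p) (e K0 K1 : ℕ) : (ZMod p)[X] :=
  ∑ k ∈ Finset.range ((K1 - K0) / e + 1), C (c (K0 + e * k)) * X ^ k

theorem eval_A {a g : ℕ} {μ : ℕ → ℚ} (hμ0 : ∀ j, 0 ≤ μ j) {h : ℤ[X]}
    (hd : h.natDegree = g) (b : ℕ → ℤ) (hb : ∀ k ≤ g, h.coeff (g - k) = (p : ℤ) ^ sk a μ k * b k)
    {K0 K1 : ℕ} (hS : Seg μ g K0 K1) (hint : ∃ n : ℕ, (a : ℚ) * Ssum μ K0 = n)
    (ha : 0 < a) {y : AlgebraicClosure ℚ_[p]} (hy0 : y ≠ 0)
    (hroot : (h.map (Int.castRingHom (AlgebraicClosure ℚ_[p]))).IsRoot y) {t : ℚ}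
    (ht : t = a * μ K0) (hy : nv p y = pw p t) (δ : OO p)
    (hδ : (δ : AlgebraicClosure ℚ_[p]) = (p : AlgebraicClosure ℚ_[p]) ^ t.num.toNat / y ^ t.den) :
    ((segPoly p (fun k => (b k : ZMod p)) t.den K0 K1).map (jj p)).eval (red p δ) = 0 := by
  classical
  have hp2 := hp.out.two_le
  have ha' : (0 : ℚ) < a := by exact_mod_cast ha
  have ht0 : 0 ≤ t := by rw [ht]; exact mul_nonneg ha'.le (hμ0 _)
  set e := t.den with he
  set u := t.num.toNat with hu
  have hepos : 0 < e := t.den_pos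
  have hute : (u : ℚ) = t * e := by
    have h1 : (t.num : ℚ) = t * t.den := (Rat.mul_den_eq_num t).symm
    have h2 : ((t.num.toNat : ℤ) : ℚ) = t.num := by
      rw [Int.toNat_of_nonneg (Rat.num_nonneg.2 ht0)]
    rw [hu, he, ← h1, ← h2]; push_cast; rfl
  have hcop : Nat.Coprime e u := by
    have := t.reduced
    rw [Nat.coprime_comm] at this
    have h10 : t.num.natAbs = u := by
      rw [hu]; have := Rat.num_nonneg.2 ht0; omega
    rwa [h10] at this
  obtain ⟨n0, hn0⟩ := hint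
  have hsK0 : (sk a μ K0 : ℚ) = a * Ssum μ K0 := by rw [sk, hn0, Nat.ceil_natCast]
  have hsle : ∀ k, a * Ssum μ k ≤ (sk a μ k : ℚ) := fun k => Nat.le_ceil _
  have hp0 : (p : AlgebraicClosure ℚ_[p]) ≠ 0 := by exact_mod_cast hp.out.ne_zero
  have hK0g : K0 ≤ g := hS.lt.le.trans hS.le
  -- the terms
  set D : AlgebraicClosure ℚ_[p] := (p : AlgebraicClosure ℚ_[p]) ^ sk a μ K0 * y ^ (g - K0)
    with hD
  have hD0 : D ≠ 0 := mul_ne_zero (pow_ne_zero _ hp0) (pow_ne_zero _ hy0)
  let Xt : ℕ → AlgebraicClosure ℚ_[p] := fun k =>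
    ((b k : ℤ) : AlgebraicClosure ℚ_[p]) * ((p : AlgebraicClosure ℚ_[p]) ^ sk a μ k *
      y ^ (g - k)) / D
  have hXnv : ∀ k ≤ g, nv p (Xt k) = nv p ((b k : ℤ) : AlgebraicClosure ℚ_[p]) *
      pw p (sk a μ k - sk a μ K0 + ((K0 : ℚ) - k) * t) := by
    intro k hk
    have h1 : nv p D ≠ 0 := (nv p).ne_zero hD0
    have h2 : nv p D = pw p (sk a μ K0 + ((g : ℚ) - K0) * t) := by
      rw [hD, map_mul, map_pow, nv_p, map_pow, hy, pw_add hp2, ← Nat.cast_sub hK0g,
        pw_nsmul hp2, pw_natpow, inv_pow]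
    have h3 : nv p ((p : AlgebraicClosure ℚ_[p]) ^ sk a μ k * y ^ (g - k))
        = pw p (sk a μ k + ((g : ℚ) - k) * t) := by
      rw [map_mul, map_pow, nv_p, map_pow, hy, pw_add hp2, ← Nat.cast_sub hk,
        pw_nsmul hp2, pw_natpow, inv_pow]
    simp only [Xt]
    rw [map_div₀, map_mul, h3, h2, mul_div_assoc]
    congr 1
    rw [div_eq_iff (pw_pos hp2 _).ne', ← pw_add hp2]
    congr 1; ring
  -- exponents
  have hE0 : ∀ k ≤ g, 0 ≤ (sk a μ k - sk a μ K0 + ((K0 : ℚ) - k) * t : ℚ) ∧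
      ((k < K0 ∨ K1 < k) → 0 < (sk a μ k - sk a μ K0 + ((K0 : ℚ) - k) * t : ℚ)) := by
    intro k hk
    have h1 := hsle k
    rw [hsK0]
    rcases lt_or_ge k K0 with h2 | h2
    · have h3 := Ssum_lt hS h2
      have h4 : ((K0 - k : ℕ) : ℚ) = (K0 : ℚ) - k := Nat.cast_sub h2.le
      rw [h4] at h3
      have h5 : 0 < a * (Ssum μ k - Ssum μ K0 + ((K0 : ℚ) - k) * μ K0) :=
        mul_pos ha' (by linarith)
      have h6 : 0 < (sk a μ k - a * Ssum μ K0 + ((K0 : ℚ) - k) * t : ℚ) := by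
        rw [ht]; nlinarith
      exact ⟨h6.le, fun _ => h6⟩
    · rcases le_or_gt k K1 with h3 | h3
      · have h4 := Ssum_seg hS h2 h3
        have h5 : ((k - K0 : ℕ) : ℚ) = (k : ℚ) - K0 := Nat.cast_sub h2
        rw [h5] at h4
        refine ⟨?_, fun h6 => by omega⟩
        have h7 : a * Ssum μ k - a * Ssum μ K0 = ((k : ℚ) - K0) * t := by
          rw [ht, ← mul_sub, h4]; ring
        linarith
      · have h4 := Ssum_gt hS h3
        have h5 : ((k - K0 : ℕ) : ℚ) = (k : ℚ) - K0 := Nat.cast_sub h2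
        rw [h5] at h4
        have h5 : 0 < a * (Ssum μ k - Ssum μ K0 - ((k : ℚ) - K0) * μ K0) :=
          mul_pos ha' (by linarith)
        have h6 : 0 < (sk a μ k - a * Ssum μ K0 + ((K0 : ℚ) - k) * t : ℚ) := by
          rw [ht]; nlinarith
        exact ⟨h6.le, fun _ => h6⟩
  have hpw_le : ∀ x : ℚ, 0 ≤ x → pw p x ≤ 1 := by
    intro x hx
    rw [← pw_zero (p := p), pw_le_iff hp2]; exact hx
  have hpw_lt : ∀ x : ℚ, 0 < x → pw p x < 1 := by
    intro x hx
    rw [← pw_zero (p := p), pw_lt_iff hp2]; exact hx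
  have hXle : ∀ k ≤ g, nv p (Xt k) ≤ 1 := by
    intro k hk
    rw [hXnv k hk]
    exact mul_le_one₀ (nv_int_le p _) (pw_pos hp2 _).le (hpw_le _ (hE0 k hk).1)
  have hXsum : ∑ k ∈ Finset.range (g + 1), Xt k = 0 := by
    rw [IsRoot.def, eval_map, eval₂_eq_sum_range, hd, ← Finset.sum_range_reflect] at hroot
    have h2 : ∑ k ∈ Finset.range (g + 1), Xt k = (∑ j ∈ Finset.range (g + 1),
        (Int.castRingHom (AlgebraicClosure ℚ_[p])) (h.coeff (g + 1 - 1 - j)) *
          y ^ (g + 1 - 1 - j)) / D := by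
      rw [Finset.sum_div]
      refine Finset.sum_congr rfl fun k hk => ?_
      rw [Finset.mem_range] at hk
      rw [Nat.add_sub_cancel, hb k (by omega)]
      simp only [Xt, eq_intCast]
      congr 1
      push_cast
      ring
    rw [h2, hroot, zero_div]
  let Xo : ℕ → OO p := fun i => if hi : i ≤ g then ⟨Xt i, hXle i hi⟩ else 0
  have hXo : ∀ i ≤ g, ((Xo i : OO p) : AlgebraicClosure ℚ_[p]) = Xt i := by
    intro i hi
    have : Xo i = ⟨Xt i, hXle i hi⟩ := dif_pos hi
    rw [this]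
  have h1 : ∑ i ∈ Finset.range (g + 1), red p (Xo i) = 0 := by
    rw [← map_sum]
    have h2 : ∑ i ∈ Finset.range (g + 1), Xo i = 0 := by
      apply Subtype.ext
      push_cast
      rw [← hXsum]
      refine Finset.sum_congr rfl fun i hi => ?_
      rw [Finset.mem_range] at hi
      exact hXo i (by omega)
    rw [h2, map_zero]
  set f := (K1 - K0) / e with hf
  have hle : ∀ k, k < f + 1 → K0 + e * k ≤ K1 := by
    intro k hk
    have : e * k ≤ K1 - K0 := by
      calc e * k ≤ e * f := Nat.mul_le_mul_left _ (by omega)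
        _ ≤ K1 - K0 := Nat.mul_div_le _ _
    have := hS.lt
    omega
  have hinj : Set.InjOn (fun k => K0 + e * k) (Finset.range (f + 1) : Set ℕ) := by
    intro k _ k' _ h
    exact Nat.eq_of_mul_eq_mul_left hepos (Nat.add_left_cancel h)
  have h3 : ∑ i ∈ Finset.range (g + 1), red p (Xo i)
      = ∑ i ∈ (Finset.range (f + 1)).image (fun k => K0 + e * k), red p (Xo i) := by
    symm
    refine Finset.sum_subset ?_ ?_
    · intro i hi
      obtain ⟨k, hk, rfl⟩ := Finset.mem_image.1 hi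
      rw [Finset.mem_range] at hk ⊢
      have := hle k hk
      have := hS.le
      omega
    · intro i hi hi'
      rw [Finset.mem_range] at hi
      have hig : i ≤ g := by omega
      rw [red_eq_zero, hXo i hig, hXnv i hig]
      refine mul_lt_one_of_nonneg_of_lt_one_right (nv_int_le p _) (pw_pos hp2 _).le ?_
      apply hpw_lt
      rcases lt_or_ge i K0 with h4 | h4
      · exact (hE0 i hig).2 (Or.inl h4)
      rcases lt_or_ge K1 i with h5 | h5
      · exact (hE0 i hig).2 (Or.inr h5)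
      refine lt_of_le_of_ne (hE0 i hig).1 ?_
      intro h6
      -- then `e` divides `i - K0`
      have hndvd : ¬ e ∣ i - K0 := by
        rintro ⟨k, hk⟩
        apply hi'
        refine Finset.mem_image.2 ⟨k, ?_, by omega⟩
        rw [Finset.mem_range, Nat.lt_succ_iff, hf, Nat.le_div_iff_mul_le hepos]
        rw [mul_comm]; omega
      apply hndvd
      have h7 : ((i - K0 : ℕ) : ℚ) = (i : ℚ) - K0 := Nat.cast_sub h4
      have h8 : ((i - K0 : ℕ) : ℚ) * u = ((sk a μ i : ℚ) - sk a μ K0) * e := by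
        rw [hute, h7]
        have : ((i : ℚ) - K0) * t = (sk a μ i : ℚ) - sk a μ K0 := by linarith
        rw [← mul_assoc, this]
      have h9 : (e : ℤ) ∣ ((i - K0 : ℕ) : ℤ) * u := ⟨(sk a μ i : ℤ) - sk a μ K0, by
        have : ((((i - K0 : ℕ) : ℤ) * u : ℤ) : ℚ)
            = (((e : ℤ) * ((sk a μ i : ℤ) - sk a μ K0) : ℤ) : ℚ) := by
          push_cast; rw [h8]; ring
        exact_mod_cast this⟩
      have h10 : e ∣ (i - K0) * u := by exact_mod_cast h9
      exact hcop.dvd_of_dvd_mul_right h10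
  rw [h3, Finset.sum_image hinj] at h1
  rw [← h1, segPoly]
  simp only [Polynomial.map_sum, Polynomial.map_mul, map_C, Polynomial.map_pow, map_X,
    eval_finsetSum, eval_mul, eval_C, eval_pow, eval_X]
  refine Finset.sum_congr rfl fun k hk => ?_
  rw [Finset.mem_range] at hk
  have hkK1 := hle k hk
  have hkg : K0 + e * k ≤ g := hkK1.trans hS.le
  rw [jj_int, ← map_pow, ← map_mul]
  congr 1
  apply Subtype.ext
  rw [hXo _ hkg]
  push_cast
  rw [hδ]
  simp only [Xt]
  -- the exponent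
  have hsk : sk a μ (K0 + e * k) = sk a μ K0 + u * k := by
    have h4 := Ssum_seg hS (k := K0 + e * k) (by omega) hkK1
    rw [show K0 + e * k - K0 = e * k by omega] at h4
    have h5 : (a : ℚ) * Ssum μ (K0 + e * k) = ((n0 + u * k : ℕ) : ℚ) := by
      have h6 : (a : ℚ) * (Ssum μ (K0 + e * k) - Ssum μ K0) = ((e * k : ℕ) : ℚ) * t := by
        rw [h4, ht]; ring
      push_cast at h6 ⊢
      rw [← hn0, hute]; linarith
    have h6 : sk a μ K0 = n0 := by rw [sk, hn0, Nat.ceil_natCast]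
    rw [h6, sk, h5, Nat.ceil_natCast]
  rw [hsk, hD]
  have h7 : y ^ (g - K0) = y ^ (g - (K0 + e * k)) * y ^ (e * k) := by
    rw [← pow_add]; congr 1; omega
  rw [h7, div_pow, ← pow_mul, ← pow_mul, pow_add]
  have h8 : (p : AlgebraicClosure ℚ_[p]) ^ (u * k) ≠ 0 := pow_ne_zero _ hp0
  have h9 : (p : AlgebraicClosure ℚ_[p]) ^ (sk a μ K0) ≠ 0 := pow_ne_zero _ hp0
  have h10 : y ^ (e * k) ≠ 0 := pow_ne_zero _ hy0
  have h11 : y ^ (g - (K0 + e * k)) ≠ 0 := pow_ne_zero _ hy0
  field_simp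

end Pool.Agent.W518.DN
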