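import Pool.Agent.W518.DN.Local

/-!
# Existence of residue classes
-/

open Polynomial

namespace Pool.Agent.W518.DN

variable (p : ℕ) [hp : Fact p.Prime]

lemma exists_z0 : ∃ z0 : ZMod p, Irreducible (X ^ 2 - C z0 * X + 1 : (ZMod p)[X]) := by
  classical
  let U : Finset (ZMod p) := (Finset.univ.erase 0).image fun u => u + u⁻¹
  have hcard : U.card < Fintype.card (ZMod p) := by
    refine Finset.card_image_le.trans_lt ?_
    rw [Finset.card_erase_of_mem (Finset.mem_univ _), Finset.card_univ]
    exact Nat.sub_lt Fintype.card_pos one_pos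
  obtain ⟨z0, hz0⟩ : ∃ z, z ∉ U := by
    by_contra hcon
    push Not at hcon
    have : U = Finset.univ := Finset.eq_univ_iff_forall.2 hcon
    rw [this, Finset.card_univ] at hcard
    exact lt_irrefl _ hcard
  refine ⟨z0, ?_⟩
  have hd : (X ^ 2 - C z0 * X + 1 : (ZMod p)[X]).natDegree = 2 := by compute_degree!
  have h0 : (X ^ 2 - C z0 * X + 1 : (ZMod p)[X]) ≠ 0 := by
    intro h; rw [h] at hd; simp at hd
  rw [Polynomial.irreducible_iff_roots_eq_zero_of_degree_le_three (by omega) (by omega)]
  rw [Multiset.eq_zero_iff_forall_notMem]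
  intro u hu
  have hu' := (mem_roots h0).1 hu
  rw [IsRoot.def] at hu'
  simp only [eval_add, eval_sub, eval_pow, eval_X, eval_mul, eval_C, eval_one] at hu'
  have hu0 : u ≠ 0 := by
    rintro rfl; simp at hu'
  apply hz0
  refine Finset.mem_image.2 ⟨u, Finset.mem_erase.2 ⟨hu0, Finset.mem_univ _⟩, ?_⟩
  field_simp
  linear_combination hu'

lemma exists_irr {f : ℕ} (hf : 1 ≤ f) :
    ∃ F : (ZMod p)[X], Irreducible F ∧ F.natDegree = f ∧ F.coeff 0 = 1 := by
  obtain ⟨F, hF, hFd, hF0⟩ : ∃ F : (ZMod p)[X], Irreducible F ∧ F.natDegree = f ∧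
      F.coeff 0 ≠ 0 := by
    rcases hf.lt_or_eq with h1 | h1
    · let K := GaloisField p f
      have hgen : ∃ x : K, IntermediateField.adjoin (ZMod p) {x} = ⊤ :=
        Field.exists_primitive_element (ZMod p) K
      obtain ⟨x, hx⟩ := hgen
      have hxi : IsIntegral (ZMod p) x := Algebra.IsIntegral.isIntegral x
      have hd : (minpoly (ZMod p) x).natDegree = f := by
        rw [← IntermediateField.adjoin.finrank hxi, hx, IntermediateField.finrank_top']
        exact GaloisField.finrank p (by omega)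
      refine ⟨minpoly (ZMod p) x, minpoly.irreducible hxi, hd, ?_⟩
      intro h0
      have h2 : X ∣ minpoly (ZMod p) x := X_dvd_iff.2 h0
      have h3 := (irreducible_X.dvd_irreducible_iff_associated (minpoly.irreducible hxi)).1 h2
      have h4 := degree_eq_degree_of_associated h3
      rw [degree_X, degree_eq_natDegree (minpoly.ne_zero hxi), hd] at h4
      have : (1 : ℕ) = f := by exact_mod_cast h4
      omega
    · refine ⟨X + C 1, irreducible_of_degree_eq_one (degree_X_add_C 1), ?_, by simp⟩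
      rw [natDegree_X_add_C]; exact h1
  refine ⟨C (F.coeff 0)⁻¹ * F, ?_, ?_, ?_⟩
  · rw [irreducible_isUnit_mul (isUnit_C.2 (isUnit_iff_ne_zero.2 (inv_ne_zero hF0)))]
    exact hF
  · rw [natDegree_C_mul (inv_ne_zero hF0), hFd]
  · rw [coeff_C_mul, inv_mul_cancel₀ hF0]

/-- solution of a recursion -/
lemma exists_rec (st : ℕ → ℕ) (hst : ∀ k, 1 ≤ k → st k < k) (w : ℕ → ZMod p) :
    ∃ c : ℕ → ZMod p, c 0 = 1 ∧ ∀ k, 1 ≤ k → c k = c (st k) * w k := by
  have key : ∀ n : ℕ, ∃ c : ℕ → ZMod p, c 0 = 1 ∧ ∀ k, 1 ≤ k → k ≤ n → c k = c (st k) * w k := by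
    intro n
    induction n with
    | zero => exact ⟨fun _ => 1, rfl, fun k h1 h2 => by omega⟩
    | succ n ih =>
      obtain ⟨c, hc0, hc⟩ := ih
      refine ⟨fun k => if k = n + 1 then c (st (n + 1)) * w (n + 1) else c k, ?_, ?_⟩
      · simp [hc0]
      · intro k h1 h2
        have h3 := hst k h1
        have h4 : st k ≠ n + 1 := by omega
        simp only [h4, if_false]
        split_ifs with h5
        · rw [h5]
        · exact hc k h1 (by omega)
  choose c hc0 hc using key
  have hagree : ∀ k n m, k ≤ n → k ≤ m → c n k = c m k := by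
    intro k
    induction k using Nat.strong_induction_on with
    | _ k ih =>
      intro n m hn hm
      rcases Nat.eq_zero_or_pos k with h0 | h0
      · rw [h0, hc0, hc0]
      · have h1 := hst k h0
        rw [hc n k h0 hn, hc m k h0 hm, ih (st k) h1 n m (by omega) (by omega)]
  refine ⟨fun k => c k k, hc0 0, fun k hk => ?_⟩
  have h1 := hst k hk
  change c k k = c (st k) (st k) * w k
  rw [hc k k hk le_rfl, hagree (st k) k (st k) (by omega) le_rfl]

lemma segPoly_eq {F : (ZMod p)[X]} {f : ℕ} (hF : F.natDegree = f) (c : ℕ → ZMod p) {e K0 K1 : ℕ}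
    (hf : (K1 - K0) / e = f) (h : ∀ i ≤ f, c (K0 + e * i) = c K0 * F.coeff i) :
    segPoly p c e K0 K1 = C (c K0) * F := by
  rw [segPoly, hf]
  conv_rhs => rw [F.as_sum_range, hF, Finset.mul_sum]
  refine Finset.sum_congr rfl fun i hi => ?_
  rw [Finset.mem_range] at hi
  rw [h i (by omega), C_mul, mul_assoc, C_mul_X_pow_eq_monomial]

/-- There are residue classes which satisfy the local conditions. -/
theorem exists_class (a g : ℕ) {s : Fin g → ℚ} (hs : IsNewton s) :
    ∃ c : ℕ → ZMod p, c 0 = 1 ∧ ResCond p a g (extS s) c := by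
  classical
  obtain ⟨z0, hz0⟩ := exists_z0 p
  choose! F hFi hFd hF0 using fun f (hf : 1 ≤ f) => exists_irr p (f := f) hf
  set μ := extS s with hμ
  have hmono : Monotone μ := extS_monotone hs
  have hex : ∀ k, ∃ j, μ j = μ (k - 1) := fun k => ⟨k - 1, rfl⟩
  let st : ℕ → ℕ := fun k => Nat.find (hex k)
  have hst : ∀ k, 1 ≤ k → st k < k := fun k hk => by
    have : st k ≤ k - 1 := Nat.find_min' (hex k) rfl
    omega
  let en : ℕ → ℕ := fun k => if h : ∃ j, μ (k - 1) < μ j then Nat.find h else 0
  let w : ℕ → ZMod p := fun k =>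
    if μ (k - 1) < 1 / 2 then
      (if ((a : ℚ) * μ (k - 1)).den ∣ k - st k then
        (F ((en k - st k) / ((a : ℚ) * μ (k - 1)).den)).coeff
          ((k - st k) / ((a : ℚ) * μ (k - 1)).den)
      else 0)
    else ((X - C z0) ^ (g - st k) : (ZMod p)[X]).coeff (g - k)
  obtain ⟨c, hc0, hc⟩ := exists_rec p st hst w
  -- segments
  have hseg : ∀ K0 K1, Seg μ g K0 K1 → ∀ k, K0 < k → k ≤ K1 → st k = K0 ∧ en k = K1 ∧
      μ (k - 1) = μ K0 := by
    intro K0 K1 hS k hk0 hk1
    have hm : μ (k - 1) = μ K0 := hS.const (k - 1) (by omega) (by omega)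
    refine ⟨?_, ?_, hm⟩
    · refine le_antisymm (Nat.find_min' (hex k) hm.symm) ?_
      by_contra hlt
      rw [not_le] at hlt
      have h1 := hS.left _ hlt
      have h2 : μ (st k) = μ (k - 1) := Nat.find_spec (hex k)
      rw [h2, hm] at h1
      exact lt_irrefl _ h1
    · have hex' : ∃ j, μ (k - 1) < μ j := ⟨K1, by rw [hm]; exact hS.right K1 le_rfl⟩
      have h1 : en k = Nat.find hex' := dif_pos hex'
      rw [h1]
      refine le_antisymm (Nat.find_min' hex' (by rw [hm]; exact hS.right K1 le_rfl)) ?_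
      by_contra hlt
      rw [not_le] at hlt
      have h2 : μ K0 < μ (Nat.find hex') := lt_of_eq_of_lt hm.symm (Nat.find_spec hex')
      rcases lt_or_ge (Nat.find hex') K0 with h3 | h3
      · exact lt_asymm (hS.left _ h3) h2
      · exact absurd (hS.const _ h3 hlt) h2.ne'
  have hvint : ∀ K0 K1, Seg μ g K0 K1 → ((a : ℚ) * μ K0).den ∣ K1 - K0 := by
    intro K0 K1 hS
    have hv0 : K0 = 0 ∨ μ (K0 - 1) < μ K0 := by
      rcases Nat.eq_zero_or_pos K0 with h0 | h0
      · exact Or.inl h0
      · exact Or.inr (hS.left _ (by omega))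
    have hv1 : μ (K1 - 1) < μ K1 := by
      have h1 : μ (K1 - 1) = μ K0 :=
        hS.const (K1 - 1) (by have := hS.lt; omega) (by have := hS.lt; omega)
      rw [h1]; exact hS.right K1 le_rfl
    obtain ⟨n0, hn0⟩ := ssum_int hs (hS.lt.le.trans hS.le) hv0
    obtain ⟨n1, hn1⟩ := ssum_int hs hS.le (Or.inr hv1)
    have h2 := Ssum_seg hS hS.lt.le le_rfl
    refine den_dvd (c := (a : ℤ) * (n1 - n0)) ?_
    push_cast
    rw [← hn0, ← hn1, h2]; ring
  have hcseg : ∀ K0 K1, Seg μ g K0 K1 → ∀ i ≤ (K1 - K0) / ((a : ℚ) * μ K0).den,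
      c (K0 + ((a : ℚ) * μ K0).den * i) =
        c K0 * (F ((K1 - K0) / ((a : ℚ) * μ K0).den)).coeff i := by
    intro K0 K1 hS i hi
    have hepos : 0 < ((a : ℚ) * μ K0).den := Rat.den_pos _
    have hf1 : 1 ≤ (K1 - K0) / ((a : ℚ) * μ K0).den := by
      rw [Nat.one_le_div_iff hepos]
      exact Nat.le_of_dvd (by have := hS.lt; omega) (hvint K0 K1 hS)
    rcases Nat.eq_zero_or_pos i with h0 | h0
    · rw [h0, mul_zero, add_zero, hF0 _ hf1, mul_one]
    · set e := ((a : ℚ) * μ K0).den with he
      have hei : 0 < e * i := Nat.mul_pos hepos h0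
      have hle : K0 + e * i ≤ K1 := by
        have : e * i ≤ K1 - K0 := by
          calc e * i ≤ e * ((K1 - K0) / e) := Nat.mul_le_mul_left _ hi
            _ ≤ K1 - K0 := Nat.mul_div_le _ _
        have := hS.lt
        omega
      obtain ⟨h1, h2, h3⟩ := hseg K0 K1 hS (K0 + e * i) (by omega) hle
      rw [hc _ (by omega), h1]
      congr 1
      have hhalf : μ (K0 + e * i - 1) < 1 / 2 := by
        rw [h3]; exact (hS.right K1 le_rfl).trans_le (extS_le hs.le_half _)
      simp only [w]
      rw [if_pos hhalf, h1, h2, h3, ← he, Nat.add_sub_cancel_left, if_pos (dvd_mul_right _ _),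
        Nat.mul_div_cancel_left _ hepos]
  have hFlead : ∀ f, 1 ≤ f → (F f).coeff f ≠ 0 := by
    intro f hf
    have h1 := leadingCoeff_ne_zero.2 (hFi f hf).ne_zero
    rwa [leadingCoeff, hFd f hf] at h1
  have hvtx : ∀ k, (k = 0 ∨ (k ≤ g ∧ μ (k - 1) < μ k)) → c k ≠ 0 := by
    intro k
    induction k using Nat.strong_induction_on with
    | _ k ih =>
      rintro (hk | ⟨hkg, hk⟩)
      · rw [hk, hc0]; exact one_ne_zero
      · have hk1 : 1 ≤ k := by
          by_contra h0
          have : k = 0 := by omega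
          rw [this] at hk; exact lt_irrefl _ hk
        have hS : Seg μ g (st k) k := by
          have h1 := hst k hk1
          have h2 : μ (st k) = μ (k - 1) := Nat.find_spec (hex k)
          refine ⟨h1, hkg, ?_, ?_, ?_⟩
          · intro j hj
            refine lt_of_le_of_ne (hmono hj.le) ?_
            rw [h2]; exact Nat.find_min (hex k) hj
          · intro j hj hj'
            exact le_antisymm (h2 ▸ hmono (by omega : j ≤ k - 1)) (hmono hj)
          · intro j hj
            rw [h2]; exact hk.trans_le (hmono hj)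
        have hepos : 0 < ((a : ℚ) * μ (st k)).den := Rat.den_pos _
        have hdv := hvint _ _ hS
        have h3 := hcseg _ _ hS _ le_rfl
        rw [Nat.mul_div_cancel' hdv, show st k + (k - st k) = k by have := hst k hk1; omega] at h3
        have hf1 : 1 ≤ (k - st k) / ((a : ℚ) * μ (st k)).den := by
          rw [Nat.one_le_div_iff hepos]
          exact Nat.le_of_dvd (by have := hst k hk1; omega) hdv
        rw [h3]
        refine mul_ne_zero (ih (st k) (hst k hk1) ?_) (hFlead _ hf1)
        rcases Nat.eq_zero_or_pos (st k) with h0 | h0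
        · exact Or.inl h0
        · right
          exact ⟨(hst k hk1).le.trans hkg, hS.left _ (by omega)⟩
  refine ⟨c, hc0, ⟨by rw [hc0]; exact one_ne_zero, fun k _ hk hv => hvtx k (Or.inr ⟨hk, hv⟩),
    ?_, ?_⟩⟩
  · intro K0 K1 hS
    have hepos : 0 < ((a : ℚ) * μ K0).den := Rat.den_pos _
    have hf1 : 1 ≤ (K1 - K0) / ((a : ℚ) * μ K0).den := by
      rw [Nat.one_le_div_iff hepos]
      exact Nat.le_of_dvd (by have := hS.lt; omega) (hvint K0 K1 hS)
    have hcK0 : c K0 ≠ 0 := by
      apply hvtx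
      rcases Nat.eq_zero_or_pos K0 with h0 | h0
      · exact Or.inl h0
      · exact Or.inr ⟨hS.lt.le.trans hS.le, hS.left _ (by omega)⟩
    rw [segPoly_eq p (hFd _ hf1) c rfl (hcseg K0 K1 hS)]
    refine ⟨?_, ?_⟩
    · rw [irreducible_isUnit_mul (isUnit_C.2 (isUnit_iff_ne_zero.2 hcK0))]
      exact hFi _ hf1
    · rw [natDegree_C_mul hcK0, hFd _ hf1]
  · intro _ K hKg hK1 hK2
    refine ⟨z0, hz0, ?_⟩
    have hcoef : ∀ i ≤ g - K, c (K + i) = c K * ((X - C z0) ^ (g - K) : (ZMod p)[X]).coeff
        (g - K - i) := by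
      intro i hi
      rcases Nat.eq_zero_or_pos i with h0 | h0
      · have h1 : ((X - C z0) ^ (g - K) : (ZMod p)[X]).coeff (g - K) = 1 := by
          have h2 : ((X - C z0) ^ (g - K) : (ZMod p)[X]).Monic := (monic_X_sub_C z0).pow _
          have h3 : ((X - C z0) ^ (g - K) : (ZMod p)[X]).natDegree = g - K := by
            rw [(monic_X_sub_C z0).natDegree_pow, natDegree_X_sub_C, mul_one]
          have h4 := h2.coeff_natDegree
          rwa [h3] at h4
        rw [h0, add_zero, Nat.sub_zero, h1, mul_one]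
      · have hst' : st (K + i) = K := by
          have h1 : μ (K + i - 1) = 1 / 2 := hK2 _ (by omega)
          refine le_antisymm (Nat.find_min' (hex _) (by rw [h1, hK2 K le_rfl])) ?_
          by_contra hlt
          rw [not_le] at hlt
          have h2 : μ (st (K + i)) = μ (K + i - 1) := Nat.find_spec (hex _)
          have h3 := hK1 _ hlt
          rw [h2, h1] at h3
          exact lt_irrefl _ h3
        rw [hc _ (by omega), hst']
        congr 1
        have h1 : ¬ μ (K + i - 1) < 1 / 2 := by rw [hK2 _ (by omega)]; exact lt_irrefl _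
        simp only [w]
        rw [if_neg h1, hst', show g - (K + i) = g - K - i by omega]
    have hnd : ((X - C z0) ^ (g - K) : (ZMod p)[X]).natDegree = g - K := by
      rw [(monic_X_sub_C z0).natDegree_pow, natDegree_X_sub_C, mul_one]
    conv_rhs => rw [((X - C z0) ^ (g - K) : (ZMod p)[X]).as_sum_range, hnd, Finset.mul_sum,
      ← Finset.sum_range_reflect]
    refine Finset.sum_congr rfl fun i hi => ?_
    rw [Finset.mem_range] at hi
    rw [hcoef i (by omega), Nat.add_sub_cancel, ← C_mul_X_pow_eq_monomial, C_mul, mul_assoc]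

end Pool.Agent.W518.DN
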