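import Mathlib

/-!
# A simple sieve in several variables
-/

namespace Pool.Agent.W518.DN

instance primes_fact (l : Nat.Primes) : Fact ((l : ℕ).Prime) := ⟨l.2⟩

/-- If, for each prime `l` of a finite set `T`, a set of residue classes of density at least `c` is
forbidden, then few points of a box survive. -/
theorem sieve {J : Type} [Fintype J] [DecidableEq J] (B : J → ℕ) (T : Finset Nat.Primes)
    (S : (l : Nat.Primes) → Finset (J → ZMod (l : ℕ))) (c : ℝ) (hc1 : c ≤ 1)
    (hS : ∀ l ∈ T, c * ((l : ℕ) : ℝ) ^ (Fintype.card J) ≤ ((S l).card : ℝ)) :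
    ((((Fintype.piFinset fun j => Finset.Icc (-(B j : ℤ)) (B j)).filter
      (fun b : J → ℤ => ∀ l ∈ T, (fun j => ((b j : ℤ) : ZMod (l : ℕ))) ∉ S l)).card : ℕ) : ℝ) ≤
      (1 - c) ^ T.card * ∏ j, (2 * (B j : ℝ) + ((∏ l ∈ T, (l : ℕ) : ℕ) : ℝ)) := by
  classical
  set m : ℕ := ∏ l ∈ T, (l : ℕ) with hm
  have hmpos : 0 < m := Finset.prod_pos fun l _ => l.2.pos
  set X : Finset (J → ℤ) := (Fintype.piFinset fun j => Finset.Icc (-(B j : ℤ)) (B j)).filter
      (fun b : J → ℤ => ∀ l ∈ T, (fun j => ((b j : ℤ) : ZMod (l : ℕ))) ∉ S l) with hX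
  let f : (J → ℤ) → ((l : T) → (J → ZMod ((l : Nat.Primes) : ℕ))) := fun b l j => (b j : ZMod _)
  let t : Finset ((l : T) → (J → ZMod ((l : Nat.Primes) : ℕ))) :=
    Fintype.piFinset fun l : T => (S l.1)ᶜ
  have hf : ∀ b ∈ X, f b ∈ t := by
    intro b hb
    rw [hX, Finset.mem_filter] at hb
    rw [Fintype.mem_piFinset]
    intro l
    rw [Finset.mem_compl]
    exact hb.2 l.1 l.2
  have hfib : ∀ y ∈ t, (X.filter fun b => f b = y).card ≤ ∏ j, (2 * B j / m + 1) := by
    intro y _
    have h1 : (Fintype.piFinset fun j => Finset.range (2 * B j / m + 1)).card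
        = ∏ j, (2 * B j / m + 1) := by
      rw [Fintype.card_piFinset]; simp
    rw [← h1]
    refine Finset.card_le_card_of_injOn (fun b j => ((b j + B j) / m).toNat) ?_ ?_
    · intro b hb
      rw [Finset.mem_coe, Finset.mem_filter, hX, Finset.mem_filter, Fintype.mem_piFinset] at hb
      rw [Finset.mem_coe, Fintype.mem_piFinset]
      intro j
      have h2 := Finset.mem_Icc.1 (hb.1.1 j)
      rw [Finset.mem_range]
      have h3 : (b j + B j) / (m : ℤ) ≤ (2 * B j) / (m : ℤ) :=
        Int.ediv_le_ediv (by exact_mod_cast hmpos) (by linarith [h2.2])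
      have h4 : 0 ≤ (b j + B j) / (m : ℤ) :=
        Int.ediv_nonneg (by linarith [h2.1]) (by positivity)
      have h5 : ((2 * B j / m : ℕ) : ℤ) = (2 * B j) / (m : ℤ) := by push_cast; rfl
      rw [← h5] at h3
      change ((b j + B j) / (m : ℤ)).toNat < 2 * B j / m + 1
      generalize hu : (b j + B j) / (m : ℤ) = u at h3 h4 ⊢
      generalize hv : 2 * B j / m = v at h3 ⊢
      omega
    · intro b hb b' hb' hbb
      rw [Finset.mem_coe, Finset.mem_filter, hX, Finset.mem_filter, Fintype.mem_piFinset] at hb hb'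
      funext j
      have h2 := Finset.mem_Icc.1 (hb.1.1 j)
      have h2' := Finset.mem_Icc.1 (hb'.1.1 j)
      have h3 := congrFun hbb j
      simp only at h3
      have h4 : 0 ≤ (b j + B j) / (m : ℤ) :=
        Int.ediv_nonneg (by linarith [h2.1]) (by positivity)
      have h4' : 0 ≤ (b' j + B j) / (m : ℤ) :=
        Int.ediv_nonneg (by linarith [h2'.1]) (by positivity)
      have h5 : (b j + B j) / (m : ℤ) = (b' j + B j) / (m : ℤ) := by omega
      have hdiv : (m : ℤ) ∣ b j - b' j := by
        have h6 : ∀ l ∈ T, ((l : ℕ) : ℤ) ∣ b j - b' j := by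
          intro l hl
          have h7 := congrFun (congrFun (hb.2.trans hb'.2.symm) ⟨l, hl⟩) j
          simp only [f] at h7
          rw [← ZMod.intCast_zmod_eq_zero_iff_dvd]
          push_cast
          rw [h7, sub_self]
        rw [hm]
        push_cast
        refine Finset.prod_dvd_of_coprime ?_ h6
        intro l hl l' hl' hll
        rw [Function.onFun]
        rw [Nat.isCoprime_iff_coprime]
        exact (Nat.coprime_primes l.2 l'.2).2 fun h => hll (Subtype.ext h)
      have h8 : (b j + B j) % (m : ℤ) = (b' j + B j) % (m : ℤ) := by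
        apply Int.ModEq.symm
        rw [Int.modEq_iff_dvd]
        have : b j + (B j : ℤ) - (b' j + B j) = b j - b' j := by ring
        rw [this]; exact hdiv
      have h9 := Int.mul_ediv_add_emod (b j + B j) (m : ℤ)
      have h9' := Int.mul_ediv_add_emod (b' j + B j) (m : ℤ)
      rw [h5, h8] at h9
      linarith
  have hcard := Finset.card_le_mul_card_image_of_maps_to hf _ hfib
  have ht : t.card = ∏ l : T, ((S l.1)ᶜ).card := Fintype.card_piFinset _
  have ht2 : (t.card : ℝ) ≤ ∏ l : T, ((1 - c) * (((l : Nat.Primes) : ℕ) : ℝ) ^ Fintype.card J) := by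
    rw [ht]
    push_cast
    refine Finset.prod_le_prod (fun _ _ => by positivity) fun l _ => ?_
    have h1 : ((S l.1)ᶜ).card + (S l.1).card = ((l : Nat.Primes) : ℕ) ^ Fintype.card J := by
      rw [Finset.card_compl_add_card, Fintype.card_fun, ZMod.card]
    have h2 : (((S l.1)ᶜ).card : ℝ) + ((S l.1).card : ℝ)
        = (((l : Nat.Primes) : ℕ) : ℝ) ^ Fintype.card J := by exact_mod_cast h1
    have h3 := hS l.1 l.2
    linarith
  have ht3 : ∏ l : T, ((1 - c) * (((l : Nat.Primes) : ℕ) : ℝ) ^ Fintype.card J)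
      = (1 - c) ^ T.card * ∏ _j : J, (m : ℝ) := by
    rw [Finset.prod_mul_distrib, Finset.prod_const, Finset.prod_const, Finset.card_univ,
      Finset.card_univ, Fintype.card_coe, Finset.prod_pow]
    congr 1
    congr 1
    rw [hm]
    push_cast
    exact Finset.prod_coe_sort T fun l => ((l : ℕ) : ℝ)
  calc (X.card : ℝ) ≤ ((∏ j, (2 * B j / m + 1) : ℕ) : ℝ) * (t.card : ℝ) := by exact_mod_cast hcard
    _ ≤ ((∏ j, (2 * B j / m + 1) : ℕ) : ℝ) * ((1 - c) ^ T.card * ∏ _j : J, (m : ℝ)) := by
        rw [← ht3]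
        exact mul_le_mul_of_nonneg_left ht2 (by positivity)
    _ = (1 - c) ^ T.card * ∏ j, (((2 * B j / m + 1 : ℕ) : ℝ) * (m : ℝ)) := by
        rw [Finset.prod_mul_distrib]
        push_cast
        ring
    _ ≤ (1 - c) ^ T.card * ∏ j, (2 * (B j : ℝ) + (m : ℝ)) := by
        refine mul_le_mul_of_nonneg_left ?_ (pow_nonneg (by linarith) _)
        refine Finset.prod_le_prod (fun _ _ => by positivity) fun j _ => ?_
        have h1 : (2 * B j / m + 1) * m ≤ 2 * B j + m := by
          have := Nat.div_mul_le_self (2 * B j) m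
          nlinarith
        exact_mod_cast h1

end Pool.Agent.W518.DN
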