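import Pool.Agent.W518.DN.Recip

/-!
# Polynomials of Frobenius are reciprocal
-/

open Polynomial

namespace Pool.Agent.W518.DN

open Pool.Agent.W518.TC

/-- A monic rational polynomial in which the irreducible factors with a real root have even
multiplicity is nonnegative at `0`. -/
lemma eval_zero_nonneg (P : ℚ[X]) (hP : P.Monic)
    (hreal : ∀ g : ℚ[X], g.Monic → Irreducible g → (∃ r : ℝ, (g.map (algebraMap ℚ ℝ)).IsRoot r) →
      2 ∣ multiplicity g P) : 0 ≤ P.eval 0 := by
  classical
  have hP0 : P ≠ 0 := hP.ne_zero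
  have h1 : (UniqueFactorizationMonoid.normalizedFactors P).prod = P := by
    rw [UniqueFactorizationMonoid.prod_normalizedFactors_eq hP0]
    exact hP.normalize_eq_self
  rw [← h1, eval_multiset_prod, Finset.prod_multiset_map_count]
  refine Finset.prod_nonneg fun g hg => ?_
  rw [Multiset.mem_toFinset] at hg
  have hirr : Irreducible g := UniqueFactorizationMonoid.irreducible_of_normalized_factor g hg
  have hgm : g.Monic := by
    have h2 : normalize g = g := UniqueFactorizationMonoid.normalize_normalized_factor g hg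
    rw [← h2]
    exact monic_normalize hirr.ne_zero
  by_cases hr : ∃ r : ℝ, (g.map (algebraMap ℚ ℝ)).IsRoot r
  · have h3 := hreal g hgm hirr hr
    have h4 : multiplicity g P = (UniqueFactorizationMonoid.normalizedFactors P).count g := by
      have h5 := UniqueFactorizationMonoid.emultiplicity_eq_count_normalizedFactors hirr hP0
      rw [hgm.normalize_eq_self] at h5
      exact multiplicity_eq_of_emultiplicity_eq_some h5
    rw [h4] at h3
    exact (even_iff_two_dvd.2 h3).pow_nonneg _
  · apply pow_nonneg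
    by_contra hneg
    push Not at hneg hr
    have hgmr : (g.map (algebraMap ℚ ℝ)).Monic := hgm.map _
    have hdeg : 0 < (g.map (algebraMap ℚ ℝ)).degree := by
      rw [degree_map]
      exact degree_pos_of_irreducible hirr
    have htop := Polynomial.tendsto_atTop_of_leadingCoeff_nonneg (g.map (algebraMap ℚ ℝ)) hdeg
      (by rw [hgmr.leadingCoeff]; exact zero_le_one)
    obtain ⟨x, hx0, hx⟩ := ((htop.eventually (Filter.eventually_ge_atTop 0)).and
      (Filter.eventually_ge_atTop 0)).exists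
    have h0 : (g.map (algebraMap ℚ ℝ)).eval 0 ≤ 0 := by
      have : (g.map (algebraMap ℚ ℝ)).eval 0 = ((g.eval 0 : ℚ) : ℝ) := by
        rw [← coeff_zero_eq_eval_zero, coeff_map, coeff_zero_eq_eval_zero]
        rfl
      rw [this]
      exact_mod_cast hneg.le
    have hcont : ContinuousOn (fun y => (g.map (algebraMap ℚ ℝ)).eval y) (Set.Icc 0 x) :=
      (g.map (algebraMap ℚ ℝ)).continuous.continuousOn
    obtain ⟨y, _, hy⟩ := intermediate_value_Icc hx hcont ⟨h0, hx0⟩
    exact hr y hy

/-- A polynomial of Frobenius of degree `2 g` is `q`-reciprocal. -/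
theorem recip_of_isFrobPoly {p a g : ℕ} [hp : Fact p.Prime] {P : ℤ[X]} (hP : IsFrobPoly p a P)
    (hd : P.natDegree = 2 * g) : Recip ((p : ℤ) ^ a) g P := by
  set q : ℤ := (p : ℤ) ^ a with hq
  have hq0 : (q : ℂ) ≠ 0 := by
    simp only [hq, Int.cast_pow, Int.cast_natCast]
    exact pow_ne_zero _ (by exact_mod_cast hp.out.ne_zero)
  set PC := P.map (Int.castRingHom ℂ) with hPC
  have hPCm : PC.Monic := hP.monic.map _
  have hPCd : PC.natDegree = 2 * g := by rw [hPC, hP.monic.natDegree_map, hd]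
  -- `x ^ (2 g) P (q / x) = P(0) P(x)`
  have hsplit : PC.Splits := IsAlgClosed.splits PC
  have hprod : PC = (PC.roots.map fun z => X - C z).prod := by
    conv_lhs => rw [hsplit.eq_prod_roots, hPCm.leadingCoeff, C_1, one_mul]
  have hcard : Multiset.card PC.roots = 2 * g := by
    rw [← hPCd]; exact hsplit.natDegree_eq_card_roots.symm
  have hz : ∀ z ∈ PC.roots, z * (starRingEnd ℂ) z = q := by
    intro z hz
    have h1 := hP.weil z ((mem_roots hPCm.ne_zero).1 hz)
    rw [Complex.mul_conj, Complex.normSq_eq_norm_sq, h1]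
    simp [hq]
  have hconj : ∀ x : ℂ, PC.eval ((starRingEnd ℂ) x) = (starRingEnd ℂ) (PC.eval x) := by
    intro x
    have h1 : PC.map (starRingEnd ℂ) = PC := by
      rw [hPC, Polynomial.map_map]; congr 1; exact RingHom.ext_int _ _
    conv_lhs => rw [← h1]
    rw [eval_map, eval₂_hom]
  have hev : ∀ x : ℂ, PC.eval x = (PC.roots.map fun z => x - z).prod := by
    intro x
    conv_lhs => rw [hprod]
    rw [eval_multiset_prod, Multiset.map_map]
    simp
  have hfun : ∀ x : ℂ, x ≠ 0 → x ^ (2 * g) * PC.eval (q / x) = PC.eval 0 * PC.eval x := by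
    intro x hx
    have h1 : PC.eval x = (PC.roots.map fun z => x - (starRingEnd ℂ) z).prod := by
      have h2 : PC.eval x = (starRingEnd ℂ) (PC.eval ((starRingEnd ℂ) x)) := by
        rw [← hconj]; simp
      rw [h2, hev, map_multiset_prod, Multiset.map_map]
      congr 1
      refine Multiset.map_congr rfl fun z _ => ?_
      simp
    rw [h1, hev, hev, ← hcard, ← Multiset.prod_map_mul]
    have h3 : x ^ (Multiset.card PC.roots) = (PC.roots.map fun _ => x).prod := by
      rw [Multiset.map_const', Multiset.prod_replicate]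
    rw [h3, ← Multiset.prod_map_mul]
    congr 1
    refine Multiset.map_congr rfl fun z hzz => ?_
    have h4 := hz z hzz
    rw [mul_sub, mul_div_cancel₀ _ hx, ← h4]
    ring
  -- coefficients
  set S : ℂ[X] := ∑ i ∈ Finset.range (2 * g + 1), C (PC.coeff (2 * g - i) * (q : ℂ) ^ (2 * g - i)) * X ^ i
    with hS
  have hSe : ∀ x : ℂ, x ≠ 0 → S.eval x = x ^ (2 * g) * PC.eval (q / x) := by
    intro x hx
    have h1 : PC.eval (q / x) = ∑ i ∈ Finset.range (2 * g + 1), PC.coeff i * (q / x) ^ i :=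
      eval_eq_sum_range' (by omega) _
    rw [h1, ← Finset.sum_range_reflect, Finset.mul_sum, hS, eval_finsetSum]
    refine Finset.sum_congr rfl fun i hi => ?_
    rw [Finset.mem_range] at hi
    simp only [eval_mul, eval_C, eval_pow, eval_X]
    rw [show 2 * g + 1 - 1 - i = 2 * g - i by omega, div_pow]
    have h2 : x ^ (2 * g) = x ^ (2 * g - i) * x ^ i := by rw [← pow_add]; congr 1; omega
    rw [h2]
    field_simp
  have hSP : S = C (PC.eval 0) * PC := by
    apply eq_of_infinite_eval_eq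
    refine Set.Infinite.mono (s := {x : ℂ | x ≠ 0}) ?_ ?_
    · intro x hx
      simp only [Set.mem_ofPred_eq]
      rw [hSe x hx, hfun x hx, eval_mul, eval_C]
    · have : ({x : ℂ | x ≠ 0}) = ({0} : Set ℂ)ᶜ := by ext; simp
      rw [this]
      exact (Set.finite_singleton (0 : ℂ)).infinite_compl
  have hScoeff : ∀ i ≤ 2 * g, S.coeff i = PC.coeff (2 * g - i) * (q : ℂ) ^ (2 * g - i) := by
    intro i hi
    rw [hS, finsetSum_coeff, Finset.sum_eq_single i]
    · rw [coeff_C_mul, coeff_X_pow, if_pos rfl, mul_one]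
    · intro j _ hji
      rw [coeff_C_mul, coeff_X_pow, if_neg (Ne.symm hji), mul_zero]
    · intro h; exact absurd (Finset.mem_range.2 (by omega)) h
  have hc : ∀ i ≤ 2 * g, PC.coeff (2 * g - i) * (q : ℂ) ^ (2 * g - i) = PC.eval 0 * PC.coeff i := by
    intro i hi
    rw [← hScoeff i hi, hSP, coeff_C_mul]
  -- the constant term
  have hPC0 : PC.eval 0 = ((P.coeff 0 : ℤ) : ℂ) := by
    rw [← coeff_zero_eq_eval_zero, hPC, coeff_map]; simp
  have hPCc : ∀ i, PC.coeff i = ((P.coeff i : ℤ) : ℂ) := by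
    intro i; rw [hPC, coeff_map]; simp
  have hsq : P.coeff 0 * P.coeff 0 = q ^ (2 * g) := by
    have h1 := hc 0 (by omega)
    rw [Nat.sub_zero, hPC0, hPCc, hPCc] at h1
    have h2 : P.coeff (2 * g) = 1 := by rw [← hd]; exact hP.monic
    rw [h2] at h1
    have h3 : ((q ^ (2 * g) : ℤ) : ℂ) = ((P.coeff 0 * P.coeff 0 : ℤ) : ℂ) := by
      push_cast
      rw [← h1]; push_cast; ring
    exact (Int.cast_injective h3).symm
  have hnn : 0 ≤ P.coeff 0 := by
    have h1 := eval_zero_nonneg (P.map (Int.castRingHom ℚ)) (hP.monic.map _) hP.real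
    rw [← coeff_zero_eq_eval_zero, coeff_map] at h1
    simpa using h1
  have hqpos : 0 < q := by
    rw [hq]; exact pow_pos (by exact_mod_cast hp.out.pos) _
  have h0 : P.coeff 0 = q ^ g := by
    have h1 : P.coeff 0 ^ 2 = (q ^ g) ^ 2 := by
      have h2 : q ^ (2 * g) = (q ^ g) ^ 2 := by rw [mul_comm, pow_mul]
      rw [sq, hsq, h2]
    exact (pow_left_inj₀ hnn (pow_nonneg hqpos.le _) two_ne_zero).1 h1
  refine ⟨hd.le, fun i hi => ?_⟩
  have h1 := hc (g - i) (by omega)
  rw [hPC0, h0, hPCc, hPCc, show 2 * g - (g - i) = g + i by omega] at h1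
  have h2 : P.coeff (g + i) * q ^ (g + i) = q ^ g * P.coeff (g - i) := by
    have : ((P.coeff (g + i) * q ^ (g + i) : ℤ) : ℂ) = ((q ^ g * P.coeff (g - i) : ℤ) : ℂ) := by
      push_cast at h1 ⊢
      exact h1
    exact Int.cast_injective this
  rw [pow_add] at h2
  have h3 : q ^ g ≠ 0 := pow_ne_zero _ hqpos.ne'
  have h4 : q ^ g * P.coeff (g - i) = q ^ g * (q ^ i * P.coeff (g + i)) := by
    rw [← h2]; ring
  exact mul_left_cancel₀ h3 h4

/-- The trace polynomial of a polynomial of Frobenius. -/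
theorem exists_trace {p a g : ℕ} [hp : Fact p.Prime] {P : ℤ[X]} (hP : IsFrobPoly p a P)
    (hd : P.natDegree = 2 * g) : ∃ h : ℤ[X], h.Monic ∧ h.natDegree = g ∧
      P = lift ((p : ℤ) ^ a) g h := by
  obtain ⟨h, hh, e⟩ := exists_lift ((p : ℤ) ^ a) g P (recip_of_isFrobPoly hP hd)
  have hlead : P.coeff (2 * g) = h.coeff g := by
    rw [e, lift, finsetSum_coeff, Finset.sum_eq_single g]
    · rw [Nat.sub_self, pow_zero, mul_one, coeff_C_mul]
      have h2 : ((X ^ 2 + C ((p : ℤ) ^ a)) ^ g : ℤ[X]).Monic :=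
        (monic_X_pow_add_C _ two_ne_zero).pow g
      have h3 : ((X ^ 2 + C ((p : ℤ) ^ a)) ^ g : ℤ[X]).natDegree = 2 * g := by
        rw [(monic_X_pow_add_C _ two_ne_zero).natDegree_pow, natDegree_X_pow_add_C, mul_comm]
      have h4 : ((X ^ 2 + C ((p : ℤ) ^ a)) ^ g : ℤ[X]).coeff (2 * g) = 1 := by
        rw [← h3]; exact h2
      rw [h4, mul_one]
    · intro k hk hkg
      rw [Finset.mem_range] at hk
      apply coeff_eq_zero_of_natDegree_lt
      refine lt_of_le_of_lt (natDegree_mul_le) ?_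
      have h1 : (C (h.coeff k) * X ^ (g - k) : ℤ[X]).natDegree ≤ g - k :=
        natDegree_C_mul_X_pow_le _ _
      have h2 : ((X ^ 2 + C ((p : ℤ) ^ a)) ^ k : ℤ[X]).natDegree ≤ k * 2 :=
        natDegree_pow_le.trans (Nat.mul_le_mul_left _ (natDegree_sq_le _))
      omega
    · intro h; simp at h
  have h1 : h.coeff g = 1 := by
    rw [← hlead, ← hd]; exact hP.monic
  have h2 : h.natDegree = g :=
    le_antisymm hh (le_natDegree_of_ne_zero (by rw [h1]; exact one_ne_zero))
  exact ⟨h, by rw [Monic, leadingCoeff, h2, h1], h2, e⟩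

/-- Bound for the coefficients of the trace polynomial. -/
theorem coeff_bound {q : ℕ} (hq : 0 < q) {g : ℕ} {h : ℤ[X]} (hm : h.Monic) (hd : h.natDegree = g)
    (hw : ∀ z : ℂ, ((lift (q : ℤ) g h).map (Int.castRingHom ℂ)).IsRoot z → ‖z‖ ^ 2 = (q : ℝ))
    (i : ℕ) : (|h.coeff i| : ℝ) ≤ (2 * √q) ^ (g - i) * g.choose i := by
  have hq0 : (q : ℂ) ≠ 0 := by exact_mod_cast hq.ne'
  have hroots : ∀ y ∈ (h.map (Int.castRingHom ℂ)).roots, ‖y‖ ≤ 2 * √q := by
    intro y hy
    have hy' := (mem_roots (hm.map _).ne_zero).1 hy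
    obtain ⟨z, hz⟩ := IsAlgClosed.exists_root (X ^ 2 - C y * X + C (q : ℂ)) (by
      have : (X ^ 2 - C y * X + C (q : ℂ) : ℂ[X]).degree = 2 := by
        compute_degree!
      rw [this]; norm_num)
    simp only [IsRoot.def, eval_add, eval_sub, eval_pow, eval_X, eval_mul, eval_C] at hz
    have hz0 : z ≠ 0 := by
      rintro rfl
      simp at hz
      exact hq.ne' hz
    have hy2 : y = z + q / z := by
      field_simp
      linear_combination -hz
    have h1 : ((lift (q : ℤ) g h).map (Int.castRingHom ℂ)).IsRoot z := by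
      rw [lift_map, IsRoot.def, lift_eval _ _ _ (by rw [hm.natDegree_map, hd]) z hz0]
      have : (Int.castRingHom ℂ) (q : ℤ) = (q : ℂ) := by simp
      rw [this, ← hy2, hy'.eq_zero, mul_zero]
    have h2 := hw z h1
    have h3 : ‖z‖ = √q := by
      rw [← h2, Real.sqrt_sq (norm_nonneg _)]
    rw [hy2]
    refine (norm_add_le _ _).trans ?_
    rw [norm_div, h3]
    have h4 : ‖(q : ℂ)‖ = √q * √q := by
      rw [Real.mul_self_sqrt (by positivity)]; simp
    have h5 : √(q : ℝ) ≠ 0 := by
      have : (0 : ℝ) < q := by exact_mod_cast hq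
      positivity
    rw [h4, mul_div_assoc, div_self h5]
    linarith
  have := coeff_le_of_roots_le (p := h) (f := Int.castRingHom ℂ) (B := 2 * √q) i hm
    (IsAlgClosed.splits _) hroots
  rw [coeff_map, hd] at this
  simpa using this

end Pool.Agent.W518.DN
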