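import Pool.Agent.W518.DN.Real
import Pool.Agent.W518.DN.Weil
import Pool.Agent.W518.DN.Sieve

/-!
# Counting Weil polynomials
-/

open Polynomial

namespace Pool.Agent.W518.DN

open Pool.Agent.W518.TC

lemma lift_inj {q : ℕ} (hq : q ≠ 0) {g : ℕ} {h1 h2 : ℤ[X]} (hd1 : h1.natDegree ≤ g)
    (hd2 : h2.natDegree ≤ g) (e : lift (q : ℤ) g h1 = lift (q : ℤ) g h2) : h1 = h2 := by
  have hq0 : (q : ℂ) ≠ 0 := by exact_mod_cast hq
  have hinj : Function.Injective (Int.castRingHom ℂ) := Int.cast_injective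
  apply map_injective _ hinj
  apply Polynomial.funext
  intro w
  obtain ⟨s, hs⟩ := IsAlgClosed.exists_eq_mul_self (w ^ 2 - 4 * q)
  set x := (w + s) / 2 with hx
  have hxeq : x * (w - x) = q := by
    rw [hx]; linear_combination (-1 / 4 : ℂ) * hs.symm
  have hx0 : x ≠ 0 := by
    intro h0; rw [h0, zero_mul] at hxeq; exact hq0 hxeq.symm
  have hw : x + q / x = w := by
    rw [← hxeq]; field_simp; ring
  have e' := congrArg (fun P : ℤ[X] => (P.map (Int.castRingHom ℂ)).eval x) e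
  simp only [lift_map] at e'
  rw [lift_eval _ _ _ ((natDegree_map_le).trans hd1) _ hx0,
    lift_eval _ _ _ ((natDegree_map_le).trans hd2) _ hx0] at e'
  have e'' := mul_left_cancel₀ (pow_ne_zero _ hx0) e'
  simp only [eq_intCast, Int.cast_natCast] at e''
  rw [hw] at e''
  exact e''

/-- integers close to `c` which are not divisible by `p` -/
noncomputable def goodInts (p : ℕ) (c r : ℝ) : Finset ℤ :=
  (Finset.Icc ⌈c - r⌉ ⌊c + r⌋).filter fun n => ¬ (p : ℤ) ∣ n

lemma mem_goodInts {p : ℕ} {c r : ℝ} {n : ℤ} :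
    n ∈ goodInts p c r ↔ |(n : ℝ) - c| ≤ r ∧ ¬ (p : ℤ) ∣ n := by
  rw [goodInts, Finset.mem_filter, Finset.mem_Icc, Int.ceil_le, Int.le_floor, abs_le]
  constructor
  · rintro ⟨⟨h1, h2⟩, h3⟩
    exact ⟨⟨by linarith, by linarith⟩, h3⟩
  · rintro ⟨⟨h1, h2⟩, h3⟩
    exact ⟨⟨by linarith, by linarith⟩, h3⟩

lemma card_goodInts {p : ℕ} (hp : 2 ≤ p) (c r : ℝ) (hr : 2 ≤ r) :
    r / 2 ≤ ((goodInts p c r).card : ℝ) := by
  classical
  set u := ⌈c - r⌉ with hu
  set v := ⌊c + r⌋ with hv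
  have hu1 : (u : ℝ) < c - r + 1 := Int.ceil_lt_add_one _
  have hv1 : c + r - 1 < v := Int.sub_one_lt_floor _
  have huv : (2 * r - 2 : ℝ) < v - u := by linarith
  have huv' : (0 : ℤ) ≤ v - u := by
    have : (0 : ℝ) < v - u := by linarith
    exact_mod_cast this.le
  set N : ℕ := ((v - u + 1) / 2).toNat with hN
  have hN1 : (N : ℤ) = (v - u + 1) / 2 := by rw [hN, Int.toNat_of_nonneg]; omega
  have hN2 : v - u ≤ 2 * (N : ℤ) := by omega
  have hN3 : 2 * (N : ℤ) ≤ v - u + 1 := by omega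
  have hcard : N ≤ (goodInts p c r).card := by
    have h1 : (Finset.range N).card ≤ (goodInts p c r).card := by
      refine Finset.card_le_card_of_injOn
        (fun k : ℕ => if (p : ℤ) ∣ u + 2 * k then u + 2 * k + 1 else u + 2 * k) ?_ ?_
      · intro k hk
        have hk' : (k : ℤ) < N := by exact_mod_cast Finset.mem_range.1 hk
        simp only [goodInts, Finset.coe_filter, Set.mem_ofPred_eq, Finset.mem_Icc, ← hu, ← hv]
        split_ifs with h
        · refine ⟨⟨by omega, by omega⟩, fun h2 => ?_⟩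
          have h3 : (p : ℤ) ∣ 1 := by
            have := dvd_sub h2 h
            rwa [add_sub_cancel_left] at this
          have := Int.le_of_dvd one_pos h3
          omega
        · exact ⟨⟨by omega, by omega⟩, h⟩
      · intro k _ k' _ h
        simp only at h
        split_ifs at h <;> omega
    simpa using h1
  have : (N : ℝ) ≥ r / 2 := by
    have h1 : ((v - u : ℤ) : ℝ) ≤ ((2 * (N : ℤ) : ℤ) : ℝ) := by exact_mod_cast hN2
    push_cast at h1
    linarith
  exact this.le.trans (by exact_mod_cast hcard)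

section tuples

variable {κ : Type} [Fintype κ] [DecidableEq κ] (g : κ → ℕ)

/-- The tuple of polynomials with given coefficients. -/
noncomputable def hTup {A : Type*} [CommRing A] (b : (Σ i, Fin (g i)) → A) (i : κ) : A[X] :=
  hp fun t => b ⟨i, t⟩

/-- tuples of Weil polynomials -/
def Wset (p a : ℕ) [Fact p.Prime] : Set (κ → ℤ[X]) :=
  {P | ∀ i, IsFrobPoly p a (P i) ∧ (P i).natDegree = 2 * g i}

noncomputable def Phi (q : ℕ) (b : (Σ i, Fin (g i)) → ℤ) (i : κ) : ℤ[X] :=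
  lift (q : ℤ) (g i) (hTup g b i)

omit [Fintype κ] [DecidableEq κ] in
lemma Phi_injective {q : ℕ} (hq : q ≠ 0) : Function.Injective (Phi g q) := by
  intro b b' h
  funext j
  obtain ⟨i, t⟩ := j
  have h1 := congrFun h i
  have h2 := lift_inj hq (hp_natDegree _).le (hp_natDegree _).le h1
  have h3 := hp_injective h2
  exact congrFun h3 t

noncomputable def box (q : ℕ) (j : Σ i, Fin (g i)) : ℕ :=
  ⌊(2 * √q) ^ (g j.1 - (j.2 : ℕ)) * (g j.1).choose j.2⌋₊

lemma exists_of_mem_Wset {p a : ℕ} [hp : Fact p.Prime] {P : κ → ℤ[X]} (hP : P ∈ Wset g p a) :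
    ∃ b ∈ Fintype.piFinset fun j => Finset.Icc (-(box g (p ^ a) j : ℤ)) (box g (p ^ a) j),
      P = Phi g (p ^ a) b := by
  choose h hm hd hPh using fun i => exists_trace (hP i).1 (hP i).2
  have hqZ : (p : ℤ) ^ a = ((p ^ a : ℕ) : ℤ) := by push_cast; rfl
  have hq : 0 < p ^ a := pow_pos hp.out.pos _
  refine ⟨fun j => (h j.1).coeff j.2, ?_, ?_⟩
  · rw [Fintype.mem_piFinset]
    rintro ⟨i, t⟩
    rw [Finset.mem_Icc, ← abs_le]
    have h1 := coeff_bound hq (hm i) (hd i) (by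
      intro z hz
      rw [← hqZ, ← hPh i] at hz
      rw [(hP i).1.weil z hz]; push_cast; rfl) t
    have h2 : (((h i).coeff t).natAbs : ℝ) ≤ (2 * √((p ^ a : ℕ) : ℝ)) ^ (g i - (t : ℕ)) *
        (g i).choose t := by
      rw [Nat.cast_natAbs]; exact_mod_cast h1
    have h3 := Nat.le_floor h2
    rw [Int.abs_eq_natAbs]
    exact_mod_cast h3
  · funext i
    rw [Phi, hTup, hp_of_monic (h i) (hm i) (hd i), hPh i, hqZ]

lemma Wset_finite (p a : ℕ) [Fact p.Prime] : (Wset g p a).Finite := by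
  refine Set.Finite.subset (((Fintype.piFinset fun j =>
    Finset.Icc (-(box g (p ^ a) j : ℤ)) (box g (p ^ a) j)).finite_toSet).image
      (Phi g (p ^ a))) ?_
  intro P hP
  obtain ⟨b, hb, e⟩ := exists_of_mem_Wset g hP
  exact ⟨b, hb, e.symm⟩

theorem Wset_lower {p a : ℕ} [hp : Fact p.Prime] (hg : ∀ i, 1 ≤ g i)
    (hq : ∀ i, 2 / del (g i) ≤ √((p ^ a : ℕ) : ℝ)) :
    ∏ j : (Σ i, Fin (g i)), (del (g j.1) / 2 * √((p ^ a : ℕ) : ℝ) ^ (g j.1 - (j.2 : ℕ))) ≤
      ((Wset g p a).ncard : ℝ) := by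
  classical
  set Q : ℝ := √((p ^ a : ℕ) : ℝ) with hQ
  have hq0 : p ^ a ≠ 0 := pow_ne_zero _ hp.out.ne_zero
  have hQ2 : Q ^ 2 = (p : ℝ) ^ a := by
    rw [hQ, Real.sq_sqrt (Nat.cast_nonneg _)]; push_cast; rfl
  have hQ1 : 1 ≤ Q := by
    rw [hQ, Real.one_le_sqrt]; exact_mod_cast Nat.one_le_iff_ne_zero.2 hq0
  have hQ0 : 0 < Q := by linarith
  have hqZ : (p : ℤ) ^ a = ((p ^ a : ℕ) : ℤ) := by push_cast; rfl
  let D : (Σ i, Fin (g i)) → Finset ℤ := fun j =>
    goodInts p ((refP (g j.1)).coeff j.2 * Q ^ (g j.1 - (j.2 : ℕ)))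
      (del (g j.1) * Q ^ (g j.1 - (j.2 : ℕ)))
  have hsub : Phi g (p ^ a) '' (Fintype.piFinset D : Set _) ⊆ Wset g p a := by
    rintro _ ⟨b, hb, rfl⟩ i
    have hb' : ∀ j, b j ∈ D j := Fintype.mem_piFinset.1 hb
    have hm : (hTup g b i).Monic := hp_monic _
    have hd : (hTup g b i).natDegree = g i := hp_natDegree _
    obtain ⟨y, hyinj, hy⟩ := exists_real_roots (hg i) hQ0 (fun t => b ⟨i, t⟩)
      (fun t => (mem_goodInts.1 (hb' ⟨i, t⟩)).1)
    constructor
    · rw [Phi, ← hqZ]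
      refine isFrobPoly_of_real hm hd ?_ y hyinj (fun t => (hy t).1) (fun t => ?_)
      · have h1 := (mem_goodInts.1 (hb' ⟨i, ⟨0, hg i⟩⟩)).2
        have h2 : (hTup g b i).coeff 0 = b ⟨i, ⟨0, hg i⟩⟩ := by
          have := hp_coeff (fun t => b ⟨i, t⟩) ⟨0, hg i⟩
          exact this
        rwa [h2]
      · rw [← hQ2]; exact (hy t).2
    · rw [Phi, (lift_monic _ _ _ hm hd).2]
  have h1 : (Fintype.piFinset D).card ≤ (Wset g p a).ncard := by
    rw [← Set.ncard_coe_finset, ← Set.ncard_image_of_injective _ (Phi_injective g hq0)]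
    exact Set.ncard_le_ncard hsub (Wset_finite g p a)
  have h2 : ∏ j : (Σ i, Fin (g i)), (del (g j.1) / 2 * Q ^ (g j.1 - (j.2 : ℕ))) ≤
      ((Fintype.piFinset D).card : ℝ) := by
    rw [Fintype.card_piFinset]
    push_cast
    refine Finset.prod_le_prod (fun j _ => ?_) fun j _ => ?_
    · have := del_pos (hg j.1); positivity
    · have h3 : 2 ≤ del (g j.1) * Q ^ (g j.1 - (j.2 : ℕ)) := by
        have h4 := del_pos (hg j.1)
        have h5 := hq j.1
        rw [div_le_iff₀ h4] at h5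
        have h6 : Q ≤ Q ^ (g j.1 - (j.2 : ℕ)) :=
          le_self_pow₀ hQ1 (Nat.sub_ne_zero_of_lt j.2.2)
        nlinarith
      have h4 := card_goodInts hp.out.two_le
        ((refP (g j.1)).coeff j.2 * Q ^ (g j.1 - (j.2 : ℕ))) _ h3
      calc _ = del (g j.1) * Q ^ (g j.1 - (j.2 : ℕ)) / 2 := by ring
        _ ≤ _ := h4
  exact h2.trans (by exact_mod_cast h1)

end tuples

end Pool.Agent.W518.DN
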