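import Pool.Agent.W518.DN.CaseB

/-!
# Degrees of the roots of Weil polynomials over `ℚ_p`
-/

open Polynomial

namespace Pool.Agent.W518.DN

variable (p : ℕ) [hp : Fact p.Prime]

/-- Valuation of the constant coefficient of a minimal polynomial. -/
lemma val_minpoly {α : AlgebraicClosure ℚ_[p]} (hα0 : α ≠ 0) {z : ℚ} (hz : nv p α = pw p z) :
    ((minpoly ℚ_[p] α).natDegree : ℚ) * z = ((minpoly ℚ_[p] α).coeff 0).valuation := by
  have hp2 := hp.out.two_le
  have hαi : IsIntegral ℚ_[p] α := Algebra.IsIntegral.isIntegral α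
  set H := minpoly ℚ_[p] α with hH
  set m := H.natDegree with hm
  have hmpos : 0 < m := minpoly.natDegree_pos hαi
  have hc0 : H.coeff 0 ≠ 0 := minpoly.coeff_zero_ne_zero hαi hα0
  have hspec : nv p α = ‖H.coeff 0‖ ^ (1 / (m : ℝ)) := by
    rw [nv_apply, spectralNorm.spectralNorm_eq_norm_coeff_zero_rpow]
  have hspec' : nv p α ^ m = ‖H.coeff 0‖ := by
    rw [hspec, ← Real.rpow_natCast, ← Real.rpow_mul (norm_nonneg _), one_div,
      inv_mul_cancel₀ (by exact_mod_cast hmpos.ne'), Real.rpow_one]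
  rw [hz, ← pw_nsmul hp2, Padic.norm_eq_zpow_neg_valuation hc0, ← pw_int hp2] at hspec'
  exact pw_inj hp2 hspec'

/-- Elements generating the same field have the same degree. -/
lemma natDegree_eq_of_mem {α β : AlgebraicClosure ℚ_[p]}
    (h1 : β ∈ IntermediateField.adjoin ℚ_[p] {α}) (h2 : α ∈ IntermediateField.adjoin ℚ_[p] {β}) :
    (minpoly ℚ_[p] α).natDegree = (minpoly ℚ_[p] β).natDegree := by
  have hα : IsIntegral ℚ_[p] α := Algebra.IsIntegral.isIntegral α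
  have hβ : IsIntegral ℚ_[p] β := Algebra.IsIntegral.isIntegral β
  rw [← IntermediateField.adjoin.finrank hα, ← IntermediateField.adjoin.finrank hβ]
  have h3 : IntermediateField.adjoin ℚ_[p] {α} = IntermediateField.adjoin ℚ_[p] {β} :=
    le_antisymm (IntermediateField.adjoin_simple_le_iff.2 h2)
      (IntermediateField.adjoin_simple_le_iff.2 h1)
  rw [h3]

lemma natDegree_div {α q : AlgebraicClosure ℚ_[p]} (hα : α ≠ 0) (hq : q ≠ 0)
    (hqm : ∃ c : ℚ_[p], algebraMap _ _ c = q) :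
    (minpoly ℚ_[p] α).natDegree = (minpoly ℚ_[p] (q / α)).natDegree := by
  obtain ⟨c, rfl⟩ := hqm
  apply natDegree_eq_of_mem
  · exact div_mem (IntermediateField.algebraMap_mem _ c)
      (IntermediateField.mem_adjoin_simple_self _ α)
  · have h1 : α = algebraMap _ _ c / (algebraMap _ _ c / α) := by
      rw [div_div_cancel₀ hq]
    rw [h1]
    have h2 : algebraMap ℚ_[p] (AlgebraicClosure ℚ_[p]) c / α ∈
        IntermediateField.adjoin ℚ_[p] {algebraMap ℚ_[p] (AlgebraicClosure ℚ_[p]) c / α} :=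
      IntermediateField.mem_adjoin_simple_self _ _
    rw [← h1]
    have h3 := div_mem (IntermediateField.algebraMap_mem _ c) h2
    rwa [← h1] at h3

lemma natDegree_div' {α q : AlgebraicClosure ℚ_[p]} (hq : q ≠ 0)
    (hqm : ∃ c : ℚ_[p], algebraMap _ _ c = q) :
    (minpoly ℚ_[p] α).natDegree = (minpoly ℚ_[p] (α / q)).natDegree := by
  obtain ⟨c, rfl⟩ := hqm
  apply natDegree_eq_of_mem
  · exact div_mem (IntermediateField.mem_adjoin_simple_self _ α)
      (IntermediateField.algebraMap_mem _ c)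
  · have h2 : α / algebraMap ℚ_[p] (AlgebraicClosure ℚ_[p]) c ∈
        IntermediateField.adjoin ℚ_[p] {α / algebraMap ℚ_[p] (AlgebraicClosure ℚ_[p]) c} :=
      IntermediateField.mem_adjoin_simple_self _ _
    have h3 := mul_mem h2 (IntermediateField.algebraMap_mem _ c)
    rwa [div_mul_cancel₀ _ hq] at h3

lemma den_dvd {t : ℚ} {n : ℕ} {c : ℤ} (h : (n : ℚ) * t = c) : t.den ∣ n := by
  have h4 : (n : ℚ) * t.num = (c : ℚ) * t.den := by
    rw [← h, mul_assoc, Rat.mul_den_eq_num]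
  have h5 : (t.den : ℤ) ∣ (n : ℤ) * t.num := ⟨c, by
    have : (((n : ℤ) * t.num : ℤ) : ℚ) = (((t.den : ℤ) * c : ℤ) : ℚ) := by
      push_cast; rw [h4]; ring
    exact_mod_cast this⟩
  have h6 : IsCoprime (t.den : ℤ) t.num := by
    rw [Int.isCoprime_iff_gcd_eq_one, Int.gcd_comm]
    exact t.reduced
  exact_mod_cast h6.dvd_of_dvd_mul_right h5

section main

variable {a g : ℕ} (ha : 0 < a) {μ : ℕ → ℚ} (hμ0 : ∀ j, 0 ≤ μ j) (hhalf : ∀ j, μ j ≤ 1 / 2)
  {h : ℤ[X]} (hm : h.Monic) (hd : h.natDegree = g) (b : ℕ → ℤ)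
  (hb : ∀ k ≤ g, h.coeff (g - k) = (p : ℤ) ^ sk a μ k * b k)
include ha hμ0 hhalf hm hd hb

/-- Lower bound for the degree of a root of slope smaller than `1 / 2`. -/
theorem degree_ge {K0 K1 : ℕ} (hS : Seg μ g K0 K1) (hint0 : ∃ n : ℕ, (a : ℚ) * Ssum μ K0 = n)
    (hint1 : ∃ n : ℕ, (a : ℚ) * Ssum μ K1 = n)
    (hirr : Irreducible (segPoly p (fun k => (b k : ZMod p)) ((a : ℚ) * μ K0).den K0 K1))
    (hdeg : (segPoly p (fun k => (b k : ZMod p)) ((a : ℚ) * μ K0).den K0 K1).natDegree =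
      (K1 - K0) / ((a : ℚ) * μ K0).den)
    {α : AlgebraicClosure ℚ_[p]} (hα : ((lift ((p ^ a : ℕ) : ℤ) g h).map
      (Int.castRingHom (AlgebraicClosure ℚ_[p]))).IsRoot α) (hnv : nv p α = pw p (a * μ K0)) :
    K1 - K0 ≤ (minpoly ℚ_[p] α).natDegree := by
  have hp2 := hp.out.two_le
  have ha' : (0 : ℚ) < a := by exact_mod_cast ha
  have hq : p ^ a ≠ 0 := pow_ne_zero _ hp.out.ne_zero
  obtain ⟨hα0, hα', hy⟩ := root_symm hm hd hq hα
  set t : ℚ := a * μ K0 with ht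
  have ht0 : 0 ≤ t := mul_nonneg ha'.le (hμ0 _)
  set q : AlgebraicClosure ℚ_[p] := ((p ^ a : ℕ) : AlgebraicClosure ℚ_[p]) with hqd
  have hvq : nv p q = pw p a := by rw [hqd, Nat.cast_pow, nv_ppow]
  have hlt : t < a - t := by
    have h1 := (hS.right K1 le_rfl).trans_le (hhalf K1)
    have h2 : a * μ K0 < a * (1 / 2) := mul_lt_mul_of_pos_left h1 ha'
    rw [ht]; linarith
  have hvq' : nv p (q / α) = pw p (a - t) := by
    rw [map_div₀, hvq, hnv, div_eq_iff (pw_pos hp2 _).ne', ← pw_add hp2]; congr 1; ring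
  have hvy : nv p (α + q / α) = pw p t := by
    rw [nv_add_eq p (by rw [hvq', hnv, pw_lt_iff hp2]; exact hlt), hnv]
  have hy0 : α + q / α ≠ 0 := by
    intro h0; rw [h0, map_zero] at hvy; exact (pw_pos hp2 _).ne hvy
  -- the unit
  have hunit : ∀ z : AlgebraicClosure ℚ_[p], nv p z = pw p t →
      nv p ((p : AlgebraicClosure ℚ_[p]) ^ t.num.toNat / z ^ t.den) = 1 := by
    intro z hz
    have h1 : (t.num : ℚ) = t * t.den := (Rat.mul_den_eq_num t).symm
    have h2 : ((t.num.toNat : ℕ) : ℚ) = t * t.den := by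
      rw [← h1]
      have h3 : ((t.num.toNat : ℤ) : ℚ) = t.num := by
        rw [Int.toNat_of_nonneg (Rat.num_nonneg.2 ht0)]
      exact_mod_cast h3
    rw [map_div₀, nv_ppow, map_pow, hz, ← pw_nsmul hp2, h2, mul_comm t]
    exact div_self (pw_pos hp2 _).ne'
  obtain ⟨δα, hδα⟩ : ∃ δ : OO p, (δ : AlgebraicClosure ℚ_[p]) =
      (p : AlgebraicClosure ℚ_[p]) ^ t.num.toNat / α ^ t.den :=
    ⟨⟨_, (mem_OO p).2 (hunit α hnv).le⟩, rfl⟩
  obtain ⟨δy, hδy⟩ : ∃ δ : OO p, (δ : AlgebraicClosure ℚ_[p]) =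
      (p : AlgebraicClosure ℚ_[p]) ^ t.num.toNat / (α + q / α) ^ t.den :=
    ⟨⟨_, (mem_OO p).2 (hunit _ hvy).le⟩, rfl⟩
  have hw : nv p (q / α / α) < 1 := by
    rw [map_div₀, hvq', hnv, div_lt_one (pw_pos hp2 _), pw_lt_iff hp2]; exact hlt
  obtain ⟨w, hwc⟩ : ∃ w : OO p, (w : AlgebraicClosure ℚ_[p]) = q / α / α :=
    ⟨⟨_, (mem_OO p).2 hw.le⟩, rfl⟩
  have hw0 : red p w = 0 := by rw [red_eq_zero, hwc]; exact hw
  have hredeq : red p δα = red p δy := by
    have h1 : δα = δy * (1 + w) ^ t.den := by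
      apply Subtype.ext
      push_cast
      rw [hδα, hδy, hwc]
      have h2 : α + q / α = α * (1 + q / α / α) := by field_simp
      rw [h2, mul_pow]
      have h3 : (1 + q / α / α) ^ t.den ≠ 0 := by
        apply pow_ne_zero
        intro h0
        rw [h2, h0, mul_zero] at hy0
        exact hy0 rfl
      rw [← div_div, div_mul_cancel₀ _ h3]
    rw [h1, map_mul, map_pow, map_add, map_one, hw0, add_zero, one_pow, mul_one]
  obtain ⟨B, hB0, hBd, hBe⟩ := exists_B p hα0 ht0 hnv δα hδα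
  have hA := eval_A p hμ0 hd b hb hS hint0 ha hy0 hy ht hvy δy hδy
  rw [hredeq] at hBe
  have h1 := natDegree_le_of_common_root p hirr hB0 _ hA hBe
  rw [hdeg] at h1
  have hdvd : t.den ∣ K1 - K0 := by
    obtain ⟨n0, hn0⟩ := hint0
    obtain ⟨n1, hn1⟩ := hint1
    have h2 := Ssum_seg hS hS.lt.le le_rfl
    refine den_dvd (c := (n1 : ℤ) - n0) ?_
    rw [ht]
    push_cast
    rw [← hn0, ← hn1, ← mul_sub, h2]
    ring
  have h2 := h1.trans hBd
  calc K1 - K0 = t.den * ((K1 - K0) / t.den) := (Nat.mul_div_cancel' hdvd).symm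
    _ ≤ t.den * ((minpoly ℚ_[p] α).natDegree / t.den) := Nat.mul_le_mul_left _ h2
    _ ≤ _ := Nat.mul_div_le _ _

end main

end Pool.Agent.W518.DN
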