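import Pool.Agent.W518.DN.Good

/-!
# Flips force every Tate class to be generated in degree two, version with a supersingular factor
-/

open Polynomial NumberField Pool.Agent.W518.TC

namespace Pool.Agent.W518.DN

section flips

variable {κ : Type} {q : ℕ} {g : κ → ℕ} {h : κ → ℤ[X]} {L : Type} [Field L] [NumberField L]
  [IsGalois ℚ L]

/-- A multiplicative relation between roots is balanced. -/
theorem balanced_of_flips_ss (hq : q ≠ 0) (hm : ∀ i, (h i).Monic) (hd : ∀ i, (h i).natDegree = g i)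
    (hirr : ∀ i, Irreducible ((h i).map (Int.castRingHom ℚ)))
    (hflip : ∀ i0, ∃ (σ : L ≃ₐ[ℚ] L) (y0 : L), ((h i0).map (Int.castRingHom L)).IsRoot y0 ∧
      ∀ i (π : L), ((lift (q : ℤ) (g i) (h i)).map (Int.castRingHom L)).IsRoot π →
        (π + q / π = y0 → σ π = q / π) ∧ (π + q / π ≠ y0 → σ π = π))
    (R : Multiset L)
    (hR : ∀ π ∈ R, (∃ i, ((lift (q : ℤ) (g i) (h i)).map (Int.castRingHom L)).IsRoot π) ∨
      (π ≠ 0 ∧ SS q π))
    (m s : ℕ) (hs : 0 < s) (hprod : R.prod ^ s = ((q : L) ^ m) ^ s) [DecidableEq L] (i : κ) (π : L)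
    (hπ : ((lift (q : ℤ) (g i) (h i)).map (Int.castRingHom L)).IsRoot π) :
    SS q π ∨ R.count π = R.count (q / π) := by
  classical
  have hq0 : (q : L) ≠ 0 := by exact_mod_cast hq
  obtain ⟨hπ0, hπ', hy⟩ := root_symm (hm i) (hd i) hq hπ
  have hπ'0 : (q : L) / π ≠ 0 := div_ne_zero hq0 hπ0
  by_cases hself : (q : L) / π = π
  · left; exact SS.of_eq hπ0 hself
  obtain ⟨σ, y0, hy0, hσ⟩ := hflip i
  -- move `y0` to `y`
  set y := π + q / π with hydef
  have hmin : minpoly ℚ y = (h i).map (Int.castRingHom ℚ) := by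
    refine (minpoly.eq_of_irreducible_of_monic (hirr i) ?_ ((hm i).map _)).symm
    rw [aeval_def, ← eval_map, Polynomial.map_map]
    have : (algebraMap ℚ L).comp (Int.castRingHom ℚ) = Int.castRingHom L := RingHom.ext_int _ _
    rw [this]; exact hy
  obtain ⟨τ, hτ⟩ : ∃ τ : L ≃ₐ[ℚ] L, τ y0 = y := by
    refine minpoly.exists_algEquiv_of_root (K := ℚ) (x := y0) (y := y)
      (Algebra.IsAlgebraic.isAlgebraic y) ?_
    rw [hmin, aeval_def, ← eval_map, Polynomial.map_map]
    have : (algebraMap ℚ L).comp (Int.castRingHom ℚ) = Int.castRingHom L := RingHom.ext_int _ _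
    rw [this]; exact hy0
  have hτq : ∀ ρ : L ≃ₐ[ℚ] L, ρ (q : L) = q := fun ρ => map_natCast ρ q
  -- the conjugate flip
  have hroot : ∀ (ρ : L ≃ₐ[ℚ] L) (j : κ) (z : L),
      ((lift (q : ℤ) (g j) (h j)).map (Int.castRingHom L)).IsRoot z →
      ((lift (q : ℤ) (g j) (h j)).map (Int.castRingHom L)).IsRoot (ρ z) := by
    intro ρ j z hz
    have h2 : ((lift (q : ℤ) (g j) (h j)).map (Int.castRingHom L))
        = ((lift (q : ℤ) (g j) (h j)).map (Int.castRingHom L)).map (ρ : L →+* L) := by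
      rw [Polynomial.map_map]; congr 1; exact RingHom.ext_int _ _
    rw [h2]
    exact hz.map
  let σ' : L ≃ₐ[ℚ] L := (τ.symm.trans σ).trans τ
  have hσ'def : ∀ z, σ' z = τ (σ (τ.symm z)) := fun z => rfl
  have hσ' : ∀ j (z : L), ((lift (q : ℤ) (g j) (h j)).map (Int.castRingHom L)).IsRoot z →
      (z + q / z = y → σ' z = q / z) ∧ (z + q / z ≠ y → σ' z = z) := by
    intro j z hz
    have hz' := hroot τ.symm j z hz
    have h1 : τ.symm z + q / τ.symm z = τ.symm (z + q / z) := by
      rw [map_add, map_div₀, hτq]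
    have h2 : τ.symm (z + q / z) = y0 ↔ z + q / z = y := by
      rw [← hτ]
      constructor
      · intro h; rw [← h, AlgEquiv.apply_symm_apply]
      · intro h; rw [h, AlgEquiv.symm_apply_apply]
    obtain ⟨hA, hB⟩ := hσ j _ hz'
    rw [h1] at hA hB
    constructor
    · intro h
      rw [hσ'def, hA (h2.2 h), map_div₀, hτq, AlgEquiv.apply_symm_apply]
    · intro h
      rw [hσ'def, hB (fun h' => h (h2.1 h')), AlgEquiv.apply_symm_apply]
  -- values of `σ'` on the pair
  have hσπ : σ' π = q / π := (hσ' i π hπ).1 rfl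
  have hσπ' : σ' (q / π) = π := by
    rw [map_div₀, hτq, hσπ]; field_simp
  -- the part of `R` away from the pair
  set rest := R.filter (fun z => z ≠ π ∧ z ≠ q / π) with hrest
  have hfix1 : ∀ z ∈ rest, ∃ E : ℕ, 0 < E ∧ (σ' z) ^ E = z ^ E := by
    intro z hz
    obtain ⟨hzR, hz1, hz2⟩ := Multiset.mem_filter.1 hz
    rcases hR z hzR with ⟨j, hj⟩ | ⟨hz0, t, ht, hzt⟩
    swap
    · refine ⟨2 * t, by positivity, ?_⟩
      rw [pow_mul, pow_mul, hzt, ← hτq σ', ← map_pow, ← map_pow, ← map_pow, hzt]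
    refine ⟨1, one_pos, ?_⟩
    rw [pow_one, pow_one]
    apply (hσ' j z hj).2
    intro h
    obtain ⟨hz0, -, -⟩ := root_symm (hm j) (hd j) hq hj
    have h1 : (z - π) * (z - q / π) = 0 := by
      have h2 : z * (z + q / z) = z * z + q := by field_simp
      rw [h, hydef] at h2
      have h3 : (z - π) * (z - q / π) = z * z + π * (q / π) - z * (π + q / π) := by ring
      rw [h3, h2, mul_div_cancel₀ _ hπ0]; ring
    rcases mul_eq_zero.1 h1 with h2 | h2
    · exact hz1 (sub_eq_zero.1 h2)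
    · exact hz2 (sub_eq_zero.1 h2)
  have hfix : ∃ E : ℕ, 0 < E ∧ (σ' rest.prod) ^ E = rest.prod ^ E := by
    clear_value rest
    clear hrest
    induction rest using Multiset.induction_on with
    | empty => exact ⟨1, one_pos, by simp⟩
    | cons z S ih =>
      obtain ⟨E, hE, h1⟩ := hfix1 z (Multiset.mem_cons_self _ _)
      obtain ⟨E', hE', h2⟩ := ih (fun w hw => hfix1 w (Multiset.mem_cons_of_mem hw))
      refine ⟨E * E', Nat.mul_pos hE hE', ?_⟩
      rw [Multiset.prod_cons, map_mul, mul_pow, mul_pow, pow_mul, h1, mul_comm E E', pow_mul _ E' E,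
        h2]
      ring
  have hdecomp : R = Multiset.replicate (R.count π) π +
      (Multiset.replicate (R.count (q / π)) (q / π) + rest) := by
    ext z
    rw [Multiset.count_add, Multiset.count_add, Multiset.count_replicate, Multiset.count_replicate,
      hrest, Multiset.count_filter]
    by_cases h1 : π = z
    · subst h1; simp [hself]
    · by_cases h2 : (q : L) / π = z
      · subst h2; simp [h1, fun h : (q : L) / π = π => hself h]
      · have h1' : ¬ z = π := fun h => h1 h.symm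
        have h2' : ¬ z = q / π := fun h => h2 h.symm
        simp [h1, h2, h1', h2']
  have hRprod : R.prod = π ^ R.count π * ((q / π) ^ R.count (q / π) * rest.prod) := by
    conv_lhs => rw [hdecomp]
    simp
  have hrest0 : rest.prod ≠ 0 := by
    rw [Ne, Multiset.prod_eq_zero_iff]
    intro h0
    rcases hR 0 (Multiset.mem_filter.1 h0).1 with ⟨j, hj⟩ | ⟨h1, -⟩
    · exact (root_symm (hm j) (hd j) hq hj).1 rfl
    · exact h1 rfl
  obtain ⟨E, hE, hσrest⟩ := hfix
  have h0 : (σ' R.prod) ^ s = R.prod ^ s := by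
    rw [← map_pow, hprod, map_pow, map_pow, hτq]
  rw [hRprod, map_mul, map_mul, map_pow, map_pow, hσπ, hσπ'] at h0
  set c := R.count π with hc
  set d := R.count (q / π) with hdd
  -- cancel the rest
  have h2 : ((q / π) ^ c * π ^ d) ^ (s * E) = (π ^ c * (q / π) ^ d) ^ (s * E) := by
    have h3 : ((q / π) ^ c * π ^ d) ^ (s * E) * rest.prod ^ (s * E) =
        (π ^ c * (q / π) ^ d) ^ (s * E) * rest.prod ^ (s * E) := by
      calc _ = ((q / π) ^ c * π ^ d) ^ (s * E) * ((rest.prod) ^ E) ^ s := by ring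
        _ = ((q / π) ^ c * π ^ d) ^ (s * E) * ((σ' rest.prod) ^ E) ^ s := by rw [hσrest]
        _ = (((q / π) ^ c * (π ^ d * σ' rest.prod)) ^ s) ^ E := by ring
        _ = ((π ^ c * ((q / π) ^ d * rest.prod)) ^ s) ^ E := by rw [h0]
        _ = _ := by ring
    exact mul_right_cancel₀ (pow_ne_zero _ hrest0) h3
  have h3 : ∀ c d : ℕ, c < d → ((q / π : L) ^ c * π ^ d) ^ (s * E) = (π ^ c * (q / π) ^ d) ^ (s * E) →
      SS q π := by
    intro c d hcd h4
    refine ⟨(d - c) * (s * E), Nat.mul_pos (Nat.sub_pos_of_lt hcd) (Nat.mul_pos hs hE), ?_⟩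
    obtain ⟨e, rfl⟩ := Nat.exists_eq_add_of_lt hcd
    have h5 : c + e + 1 - c = e + 1 := by omega
    rw [h5]
    have h6 : ((q / π : L) ^ c * π ^ c) ^ (s * E) * (π ^ (e + 1)) ^ (s * E)
        = ((q / π : L) ^ c * π ^ c) ^ (s * E) * ((q / π : L) ^ (e + 1)) ^ (s * E) := by
      calc _ = ((q / π : L) ^ c * π ^ (c + e + 1)) ^ (s * E) := by ring
        _ = (π ^ c * (q / π) ^ (c + e + 1)) ^ (s * E) := h4
        _ = _ := by ring
    have h7 : (π ^ (e + 1)) ^ (s * E) = ((q / π : L) ^ (e + 1)) ^ (s * E) := by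
      refine mul_left_cancel₀ ?_ h6
      exact pow_ne_zero _ (mul_ne_zero (pow_ne_zero _ hπ'0) (pow_ne_zero _ hπ0))
    calc (π ^ 2) ^ ((e + 1) * (s * E)) = (π ^ (e + 1)) ^ (s * E) * (π ^ (e + 1)) ^ (s * E) := by ring
      _ = ((q / π : L) ^ (e + 1)) ^ (s * E) * (π ^ (e + 1)) ^ (s * E) := by rw [h7]
      _ = ((q / π : L) * π) ^ ((e + 1) * (s * E)) := by ring
      _ = _ := by rw [div_mul_cancel₀ _ hπ0]
  rcases lt_trichotomy c d with h4 | h4 | h4
  · left; exact h3 c d h4 h2
  · right; exact h4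
  · left
    apply h3 d c h4
    rw [mul_comm ((q / π : L) ^ d), mul_comm (π ^ d), ← h2]

/-- Flips imply that every Tate class is generated in degree two. -/
theorem good_of_flips_ss [Fintype κ] (hq : q ≠ 0) (hm : ∀ i, (h i).Monic)
    (hd : ∀ i, (h i).natDegree = g i)
    (hirr : ∀ i, Irreducible ((h i).map (Int.castRingHom ℚ)))
    (hPs : ∀ i, ((lift (q : ℤ) (g i) (h i)).map (Int.castRingHom L)).Splits)
    (hflip : ∀ i0, ∃ (σ : L ≃ₐ[ℚ] L) (y0 : L), ((h i0).map (Int.castRingHom L)).IsRoot y0 ∧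
      ∀ i (π : L), ((lift (q : ℤ) (g i) (h i)).map (Int.castRingHom L)).IsRoot π →
        (π + q / π = y0 → σ π = q / π) ∧ (π + q / π ≠ y0 → σ π = π))
    {Ω : Type*} [Field Ω] [IsAlgClosed Ω] [CharZero Ω]
    {V : Type*} [AddCommGroup V] [Module Ω V] (F : Module.End Ω V) (n : κ → ℕ)
    (T : ℤ[X]) (hTm : T.Monic) (hTs : (T.map (Int.castRingHom L)).Splits)
    (hTss : ∀ z : L, (T.map (Int.castRingHom L)).IsRoot z → z ≠ 0 ∧ SS q z)
    (hV : IsH1 (T * ∏ i, lift (q : ℤ) (g i) (h i) ^ n i) V F) (m : ℕ) (x : ExteriorAlgebra Ω V)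
    (hx : IsTateClass F q m x) : x ∈ Algebra.adjoin Ω {y | IsTateClass F q 1 y} := by
  classical
  have := hV.fin
  let ψ : L →ₐ[ℚ] Ω := IsAlgClosed.lift
  have hψinj : Function.Injective ψ := ψ.toRingHom.injective
  have hqΩ : (q : Ω) ≠ 0 := by exact_mod_cast hq
  have hψq : ψ (q : L) = q := map_natCast ψ q
  obtain ⟨b, ν, hν, hνr⟩ := exists_eigenbasis F hV.semisimple
  obtain ⟨hxV, s, hs, hxF⟩ := hx
  rw [hV.charpoly] at hνr
  -- eigenvalues come from `L`
  have hPm : ∀ i, (lift (q : ℤ) (g i) (h i)).Monic := fun i =>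
    (lift_monic _ _ _ (hm i) (hd i)).1
  have heig : ∀ j, ∃ π : L, ((∃ i, ((lift (q : ℤ) (g i) (h i)).map (Int.castRingHom L)).IsRoot π) ∨
      (π ≠ 0 ∧ SS q π)) ∧ ψ π = ν j := by
    intro j
    have h1 : ν j ∈ ((T * ∏ i, lift (q : ℤ) (g i) (h i) ^ n i).map
        (Int.castRingHom Ω)).roots := by
      rw [← hνr]; exact Multiset.mem_map_of_mem _ (Finset.mem_univ j)
    have h2 := (mem_roots'.1 h1).2
    rw [Polynomial.map_mul, IsRoot.def, eval_mul, mul_eq_zero] at h2
    rcases h2 with h2 | h2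
    · have h4 : T.map (Int.castRingHom Ω) = (T.map (Int.castRingHom L)).map (ψ : L →+* Ω) := by
        rw [Polynomial.map_map]; congr 1; exact RingHom.ext_int _ _
      have h5 : ν j ∈ ((T.map (Int.castRingHom L)).map (ψ : L →+* Ω)).roots := by
        rw [mem_roots ((hTm.map _).map _).ne_zero, ← h4]; exact h2
      rw [hTs.roots_map] at h5
      obtain ⟨π, hπ, hπν⟩ := Multiset.mem_map.1 h5
      exact ⟨π, Or.inr (hTss π ((mem_roots (hTm.map _).ne_zero).1 hπ)), hπν⟩
    rw [Polynomial.map_prod, eval_prod, Finset.prod_eq_zero_iff] at h2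
    obtain ⟨i, _, hi⟩ := h2
    rw [Polynomial.map_pow, eval_pow] at hi
    have h3 := eq_zero_of_pow_eq_zero hi
    have h4 : (lift (q : ℤ) (g i) (h i)).map (Int.castRingHom Ω)
        = ((lift (q : ℤ) (g i) (h i)).map (Int.castRingHom L)).map (ψ : L →+* Ω) := by
      rw [Polynomial.map_map]; congr 1; exact RingHom.ext_int _ _
    have h5 : ν j ∈ (((lift (q : ℤ) (g i) (h i)).map (Int.castRingHom L)).map
        (ψ : L →+* Ω)).roots := by
      rw [mem_roots (((hPm i).map _).map _).ne_zero, ← h4]; exact h3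
    rw [(hPs i).roots_map] at h5
    obtain ⟨π, hπ, hπν⟩ := Multiset.mem_map.1 h5
    exact ⟨π, Or.inl ⟨i, (mem_roots ((hPm i).map _).ne_zero).1 hπ⟩, hπν⟩
  -- the class is a combination of monomials
  have hspan := tate_span F (Set.range b) b.span_eq (by
    rintro _ ⟨j, rfl⟩; exact ⟨ν j, hν j⟩) (2 * m) s (((q : Ω) ^ m) ^ s) x hxV hxF
  refine Submodule.span_le (p := Subalgebra.toSubmodule (Algebra.adjoin Ω
    {y | IsTateClass F q 1 y})) |>.2 ?_ hspan
  rintro t ⟨v, μ, hvS, hvF, hμ, rfl⟩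
  rw [SetLike.mem_coe, Subalgebra.mem_toSubmodule]
  -- roots in `L`
  have hex : ∀ i, ∃ π : L, ((∃ j, ((lift (q : ℤ) (g j) (h j)).map
      (Int.castRingHom L)).IsRoot π) ∨ (π ≠ 0 ∧ SS q π)) ∧ ψ π = μ i := by
    intro i
    obtain ⟨j, hj⟩ := hvS i
    obtain ⟨π, hπ, hπν⟩ := heig j
    refine ⟨π, hπ, ?_⟩
    have h1 := hvF i
    rw [← hj, hν j] at h1
    have h2 := smul_left_injective Ω (b.ne_zero j) h1
    rw [hπν, h2]
  choose π hπ hπμ using hex
  set R : Multiset L := Finset.univ.val.map π with hRdef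
  have hRprod : R.prod ^ s = ((q : L) ^ m) ^ s := by
    apply hψinj
    rw [map_pow, map_pow, map_pow, hψq, ← hμ]
    congr 1
    rw [hRdef, Finset.prod_map_val, map_prod]
    exact Finset.prod_congr rfl fun i _ => hπμ i
  have hRroot : ∀ z ∈ R, (∃ i, ((lift (q : ℤ) (g i) (h i)).map (Int.castRingHom L)).IsRoot z) ∨
      (z ≠ 0 ∧ SS q z) := by
    intro z hz
    obtain ⟨i, _, rfl⟩ := Multiset.mem_map.1 hz
    exact hπ i
  have hbal := balanced_of_flips_ss hq hm hd hirr hflip R hRroot m s hs hRprod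
  -- the list
  have hlist : v = fun i => (fun i => (μ i, v i)) i |>.2 := rfl
  have h1 : mono (Ω := Ω) (List.ofFn v)
      = mono (Ω := Ω) ((List.ofFn fun i => (μ i, v i)).map Prod.snd) := by
    rw [List.map_ofFn]; rfl
  rw [h1]
  have hμ0 : ∀ i, μ i ≠ 0 := by
    intro i
    rw [← hπμ i]
    intro h0
    have h1 : π i = 0 := hψinj (by rw [h0, map_zero])
    rcases hπ i with ⟨j, hj⟩ | ⟨h2, -⟩
    · exact (root_symm (hm j) (hd j) hq hj).1 h1
    · exact h2 h1
  have hcount : ∀ a : L, (List.ofFn μ).count (ψ a) = R.count a := by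
    intro a
    have h2 : ((List.ofFn μ : List Ω) : Multiset Ω) = R.map ψ := by
      rw [hRdef, Multiset.map_map]
      rw [show (⇑ψ ∘ π) = μ from funext hπμ]
      simp [Fin.univ_val_map]
    rw [← Multiset.coe_count, h2, Multiset.count_map_eq_count' _ _ hψinj]
  refine mono_mem_adjoin F q hqΩ (2 * m) _ (by simp) (even_two_mul m) ?_ ?_ ?_
  · intro e he
    obtain ⟨i, rfl⟩ := (List.mem_ofFn' _ _).1 he
    exact hvF i
  · intro e he
    obtain ⟨i, rfl⟩ := (List.mem_ofFn' _ _).1 he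
    exact hμ0 i
  · intro a ha hss
    rw [List.map_ofFn]
    change (List.ofFn μ).count a = (List.ofFn μ).count ((q : Ω) / a)
    by_cases hrange : ∃ c : L, ψ c = a
    · obtain ⟨c, rfl⟩ := hrange
      have hqc : (q : Ω) / ψ c = ψ (q / c) := by rw [map_div₀, hψq]
      rw [hqc, hcount, hcount]
      by_cases hc : ∃ i, ((lift (q : ℤ) (g i) (h i)).map (Int.castRingHom L)).IsRoot c
      · obtain ⟨i, hi⟩ := hc
        rcases hbal i c hi with h2 | h2
        · exfalso
          apply hss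
          obtain ⟨t, ht, h3⟩ := h2
          refine ⟨t, ht, ?_⟩
          have := congrArg ψ h3
          rwa [map_pow, map_pow, map_pow, hψq] at this
        · exact h2
      · have hq0 : (q : L) ≠ 0 := by exact_mod_cast hq
        have hc0 : c ≠ 0 := by rintro rfl; exact ha (map_zero ψ)
        have hss' : ¬ SS q c := by
          rintro ⟨t, ht, h3⟩
          apply hss
          refine ⟨t, ht, ?_⟩
          have := congrArg ψ h3
          rwa [map_pow, map_pow, map_pow, hψq] at this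
        have h2 : c ∉ R := by
          intro h
          rcases hRroot c h with h3 | ⟨-, h3⟩
          · exact hc h3
          · exact hss' h3
        have h3 : (q : L) / c ∉ R := by
          intro h
          rcases hRroot _ h with ⟨i, hi⟩ | ⟨-, h3⟩
          · apply hc
            have h4 := (root_symm (hm i) (hd i) hq hi).2.1
            rw [div_div_cancel₀ hq0] at h4
            exact ⟨i, h4⟩
          · exact hss' (SS.of_div hq0 hc0 h3)
        rw [Multiset.count_eq_zero_of_notMem h2, Multiset.count_eq_zero_of_notMem h3]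
    · have h2 : a ∉ List.ofFn μ := by
        intro h
        obtain ⟨i, rfl⟩ := (List.mem_ofFn' _ _).1 h
        exact hrange ⟨π i, hπμ i⟩
      have h3 : (q : Ω) / a ∉ List.ofFn μ := by
        intro h
        obtain ⟨i, hi⟩ := (List.mem_ofFn' _ _).1 h
        apply hrange
        refine ⟨q / π i, ?_⟩
        rw [map_div₀, hψq, hπμ i, hi, div_div_cancel₀ hqΩ]
      rw [List.count_eq_zero_of_not_mem h2, List.count_eq_zero_of_not_mem h3]

end flips

end Pool.Agent.W518.DN
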