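import Pool.Agent.W518.DN.Assemble
import Pool.Agent.W518.DN.Good2
import Pool.Agent.W518.DN.Class

/-!
# Patterns imply that all Tate classes are generated by divisors
-/

open Polynomial NumberField

namespace Pool.Agent.W518.DN

open Pool.Agent.W518.TC

/-- `T` is the Frobenius polynomial of a supersingular abelian variety over the field with `p ^ a`
elements. -/
structure IsSupersingular (p : ℕ) [Fact p.Prime] (a : ℕ) (T : ℤ[X]) : Prop where
  frob : IsFrobPoly p a T
  root : ∀ z : ℂ, (T.map (Int.castRingHom ℂ)).IsRoot z →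
    ∃ t : ℕ, 0 < t ∧ (z ^ 2) ^ t = ((p : ℂ) ^ a) ^ t

/-- Let `A_i` be abelian varieties over the field with `p ^ a` elements with Frobenius polynomials
`P i`: for all exponents `n i` and every supersingular abelian variety `B` over this field, every
Tate class on `B × ∏ A_i ^ (n i)` lies in the algebra generated by the Tate classes of codimension
one, that is, by divisor classes. -/
def TateGenerated {κ : Type} [Fintype κ] (p : ℕ) [Fact p.Prime] (a : ℕ) (P : κ → ℤ[X]) : Prop :=
  ∀ (n : κ → ℕ) (T : ℤ[X]), IsSupersingular p a T →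
    ∀ (Ω : Type) [Field Ω] [IsAlgClosed Ω] [CharZero Ω]
      (V : Type) [AddCommGroup V] [Module Ω V] (F : Module.End Ω V),
      IsH1 (T * ∏ i, P i ^ n i) V F → ∀ (m : ℕ) (x : ExteriorAlgebra Ω V),
        IsTateClass F (p ^ a) m x → x ∈ Algebra.adjoin Ω {y | IsTateClass F (p ^ a) 1 y}

theorem good_of_patterns_ss {κ : Type} [Fintype κ] (p : ℕ) [hp : Fact p.Prime] (a : ℕ) (g : κ → ℕ)
    (h : κ → ℤ[X])
    (hm : ∀ i, (h i).Monic) (hd : ∀ i, (h i).natDegree = g i)
    (hirr : ∀ i, ∃ (l : ℕ) (_ : Fact l.Prime), Irreducible ((h i).map (Int.castRingHom (ZMod l))))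
    (hfl : ∀ i0, ∃ (l : ℕ) (_ : Fact l.Prime), (((p ^ a : ℕ) : ℕ) : ZMod l) ≠ 0 ∧
      ∃ (y : ∀ i, Fin (g i) → ZMod l), (∀ i, Function.Injective (y i)) ∧
        (∀ i, (h i).map (Int.castRingHom (ZMod l)) = ∏ t, (X - C (y i t))) ∧
        ∃ t0 : Fin (g i0), y i0 t0 ∈ goodB l ((p ^ a : ℕ) : ZMod l) ∧
          ∀ i t, (⟨i, t⟩ : Σ i, Fin (g i)) ≠ ⟨i0, t0⟩ → y i t ∈ goodA l ((p ^ a : ℕ) : ZMod l)) :
    TateGenerated p a fun i => lift ((p ^ a : ℕ) : ℤ) (g i) (h i) := by
  classical
  have hq : p ^ a ≠ 0 := pow_ne_zero _ hp.out.ne_zero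
  have hirrQ : ∀ i, Irreducible ((h i).map (Int.castRingHom ℚ)) := by
    intro i
    obtain ⟨l, hl, hi⟩ := hirr i
    have h1 : Irreducible (h i) := (hm i).irreducible_of_irreducible_map _ _ hi
    exact (IsPrimitive.Int.irreducible_iff_irreducible_map_cast (hm i).isPrimitive).1 h1
  have hPm : ∀ i, (lift ((p ^ a : ℕ) : ℤ) (g i) (h i)).Monic := fun i =>
    (lift_monic _ _ _ (hm i) (hd i)).1
  intro n T hT Ω _ _ _ V _ _ F hV m x hx
  set f : ℤ[X] := T * ∏ i, (lift ((p ^ a : ℕ) : ℤ) (g i) (h i) * h i) with hf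
  have hfm : f.Monic := hT.frob.monic.mul (monic_prod_of_monic _ _ fun i _ => (hPm i).mul (hm i))
  set PQ : ℚ[X] := f.map (Int.castRingHom ℚ) with hPQ
  have hLN : NumberField PQ.SplittingField :=
    { to_charZero := charZero_of_injective_algebraMap (algebraMap ℚ PQ.SplittingField).injective
      to_finiteDimensional := inferInstance }
  have hsf : IsSplittingField ℚ PQ.SplittingField PQ := Polynomial.IsSplittingField.splittingField PQ
  have hnormal : Normal ℚ PQ.SplittingField := Normal.of_isSplittingField PQ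
  have hGal : IsGalois ℚ PQ.SplittingField := ⟨⟩
  have hsplit : (f.map (Int.castRingHom PQ.SplittingField)).Splits := by
    have h1 := SplittingField.splits PQ
    convert h1 using 1
    rw [hPQ, Polynomial.map_map]; congr 1
  have hf0 : f.map (Int.castRingHom PQ.SplittingField) ≠ 0 := (hfm.map _).ne_zero
  have hTs : (T.map (Int.castRingHom PQ.SplittingField)).Splits :=
    hsplit.of_dvd hf0 (Polynomial.map_dvd _ (dvd_mul_right _ _))
  have hsub : ∀ i, (((lift ((p ^ a : ℕ) : ℤ) (g i) (h i)) * h i).map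
      (Int.castRingHom PQ.SplittingField)).Splits := by
    intro i
    refine hsplit.of_dvd hf0 ?_
    exact Polynomial.map_dvd _ (dvd_mul_of_dvd_right
      (Finset.dvd_prod_of_mem _ (Finset.mem_univ i)) _)
  have hPs : ∀ i, ((lift ((p ^ a : ℕ) : ℤ) (g i) (h i)).map
      (Int.castRingHom PQ.SplittingField)).Splits :=
    fun i => (hsub i).of_dvd (((hPm i).mul (hm i)).map _).ne_zero
      (Polynomial.map_dvd _ (dvd_mul_right _ _))
  have hhs : ∀ i, ((h i).map (Int.castRingHom PQ.SplittingField)).Splits := fun i =>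
    (hsub i).of_dvd (((hPm i).mul (hm i)).map _).ne_zero (Polynomial.map_dvd _ (dvd_mul_left _ _))
  have hTss : ∀ z : PQ.SplittingField, (T.map (Int.castRingHom PQ.SplittingField)).IsRoot z →
      z ≠ 0 ∧ SS (p ^ a) z := by
    intro z hz
    obtain ⟨φ⟩ : Nonempty (PQ.SplittingField →+* ℂ) := inferInstance
    have h1 : T.map (Int.castRingHom ℂ) = (T.map (Int.castRingHom PQ.SplittingField)).map φ := by
      rw [Polynomial.map_map]; congr 1; exact RingHom.ext_int _ _
    have h2 : (T.map (Int.castRingHom ℂ)).IsRoot (φ z) := by rw [h1]; exact hz.map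
    obtain ⟨t, ht, h3⟩ := hT.root _ h2
    have h4 : (z ^ 2) ^ t = (((p ^ a : ℕ) : ℕ) : PQ.SplittingField) ^ t := by
      apply φ.injective
      rw [map_pow, map_pow, h3, map_pow, map_natCast]; push_cast; rfl
    refine ⟨?_, t, ht, h4⟩
    rintro rfl
    rw [zero_pow two_ne_zero, zero_pow ht.ne'] at h4
    exact pow_ne_zero t (by exact_mod_cast hq) h4.symm
  refine good_of_flips_ss (L := PQ.SplittingField) hq hm hd hirrQ hPs ?_ F n T hT.frob.monic hTs
    hTss hV m x hx
  intro i0
  obtain ⟨l, hl, hql, y, hy, hhy, t0, hB, hA⟩ := hfl i0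
  exact exists_flip (p ^ a) g h hm hd PQ.SplittingField hhs l hql y hy hhy i0 t0 hB hA

end Pool.Agent.W518.DN
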