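import Mathlib

/-!
# Residue patterns of polynomials: lower bounds for their number
-/

open Polynomial

namespace Pool.Agent.W518.DN

section hp

variable {A : Type*} [CommRing A]

/-- The monic polynomial of degree `g` with lower coefficients `b`. -/
noncomputable def hp {g : ℕ} (b : Fin g → A) : A[X] := X ^ g + ∑ i : Fin g, C (b i) * X ^ (i : ℕ)

lemma sum_degree_lt {g : ℕ} (b : Fin g → A) :
    (∑ i : Fin g, C (b i) * X ^ (i : ℕ) : A[X]).degree < g := degree_sum_fin_lt b

lemma hp_monic [Nontrivial A] {g : ℕ} (b : Fin g → A) : (hp b).Monic :=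
  monic_X_pow_add (sum_degree_lt b)

lemma hp_natDegree [Nontrivial A] {g : ℕ} (b : Fin g → A) : (hp b).natDegree = g := by
  apply natDegree_eq_of_degree_eq_some
  rw [hp, degree_add_eq_left_of_degree_lt]
  · exact degree_X_pow g
  · rw [degree_X_pow]; exact sum_degree_lt b

lemma hp_coeff {g : ℕ} (b : Fin g → A) (i : Fin g) : (hp b).coeff (i : ℕ) = b i := by
  rw [hp, coeff_add, coeff_X_pow, if_neg i.2.ne, zero_add, finsetSum_coeff, Finset.sum_eq_single i]
  · simp
  · intro j _ hji
    rw [coeff_C_mul, coeff_X_pow, if_neg (fun h => hji (Fin.ext h.symm)), mul_zero]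
  · intro h; exact absurd (Finset.mem_univ i) h

lemma hp_injective {g : ℕ} : Function.Injective (hp : (Fin g → A) → A[X]) := by
  intro b b' h
  funext i
  rw [← hp_coeff b i, h, hp_coeff]

lemma hp_map {B : Type*} [CommRing B] (f : A →+* B) {g : ℕ} (b : Fin g → A) :
    (hp b).map f = hp (fun i => f (b i)) := by
  simp [hp, Polynomial.map_sum]

lemma hp_of_monic {g : ℕ} (h : A[X]) (hm : h.Monic) (hd : h.natDegree = g) :
    hp (fun i : Fin g => h.coeff i) = h := by
  conv_rhs => rw [hm.as_sum, hd]
  rw [hp, Finset.sum_range]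

end hp

section irreducible

variable (l : ℕ) [hl : Fact l.Prime]

open Classical in
/-- coefficient vectors of irreducible polynomials -/
noncomputable def irrSet (g : ℕ) : Finset (Fin g → ZMod l) :=
  Finset.univ.filter fun b => Irreducible (hp b)

theorem irrSet_card (hl3 : 3 ≤ l) {g : ℕ} (hg : 1 ≤ g) : l ^ g ≤ 2 * g * (irrSet l g).card := by
  classical
  let K := GaloisField l g
  have hK : Fintype K := Fintype.ofFinite K
  have hKc : Fintype.card K = l ^ g := by
    rw [← Nat.card_eq_fintype_card]; exact GaloisField.card l g (by omega)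
  let X0 : Finset K := Finset.univ.filter fun x => (minpoly (ZMod l) x).natDegree = g
  -- elements of small degree
  have hsmall : (Finset.univ \ X0).card ≤ ∑ d ∈ Finset.Ico 1 g, l ^ d := by
    have hsub : Finset.univ \ X0 ⊆ (Finset.Ico 1 g).biUnion fun d =>
        Finset.univ.filter fun x : K => x ^ l ^ d = x := by
      intro x hx
      rw [Finset.mem_sdiff, Finset.mem_filter] at hx
      have hint : IsIntegral (ZMod l) x := Algebra.IsIntegral.isIntegral x
      have hfin : Module.finrank (ZMod l) K = g := GaloisField.finrank l (by omega)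
      have h1 : (minpoly (ZMod l) x).natDegree ≤ g := (minpoly.natDegree_le x).trans hfin.le
      have h2 : (minpoly (ZMod l) x).natDegree ≠ g := fun h => hx.2 ⟨Finset.mem_univ _, h⟩
      have h3 : 0 < (minpoly (ZMod l) x).natDegree := minpoly.natDegree_pos hint
      rw [Finset.mem_biUnion]
      refine ⟨(minpoly (ZMod l) x).natDegree, Finset.mem_Ico.2 ⟨h3, by omega⟩, ?_⟩
      rw [Finset.mem_filter]
      refine ⟨Finset.mem_univ _, ?_⟩
      have h4 : Module.finrank (ZMod l) (IntermediateField.adjoin (ZMod l) {x})
          = (minpoly (ZMod l) x).natDegree := IntermediateField.adjoin.finrank hint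
      have hEF : Fintype (IntermediateField.adjoin (ZMod l) {x}) := Fintype.ofFinite _
      have h5 : Fintype.card (IntermediateField.adjoin (ZMod l) {x})
          = l ^ (minpoly (ZMod l) x).natDegree := by
        rw [← h4, Module.card_eq_pow_finrank (K := ZMod l), ZMod.card]
      have h6 := FiniteField.pow_card (IntermediateField.AdjoinSimple.gen (ZMod l) x)
      rw [h5] at h6
      have h7 := congrArg (algebraMap (IntermediateField.adjoin (ZMod l) {x}) K) h6
      rwa [map_pow, IntermediateField.AdjoinSimple.algebraMap_gen] at h7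
    refine (Finset.card_le_card hsub).trans (Finset.card_biUnion_le.trans ?_)
    refine Finset.sum_le_sum fun d hd => ?_
    have hd1 := (Finset.mem_Ico.1 hd).1
    have hpoly : (X ^ l ^ d - X : K[X]) ≠ 0 := FiniteField.X_pow_card_pow_sub_X_ne_zero K (by omega)
      hl.out.one_lt
    have hdeg : (X ^ l ^ d - X : K[X]).natDegree = l ^ d :=
      FiniteField.X_pow_card_pow_sub_X_natDegree_eq K (by omega) hl.out.one_lt
    have h1 : (Finset.univ.filter fun x : K => x ^ l ^ d = x) ⊆ (X ^ l ^ d - X : K[X]).roots.toFinset := by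
      intro x hx
      rw [Finset.mem_filter] at hx
      rw [Multiset.mem_toFinset, mem_roots hpoly]
      simp [IsRoot.def, hx.2]
    calc _ ≤ (X ^ l ^ d - X : K[X]).roots.toFinset.card := Finset.card_le_card h1
      _ ≤ Multiset.card (X ^ l ^ d - X : K[X]).roots := Multiset.toFinset_card_le _
      _ ≤ (X ^ l ^ d - X : K[X]).natDegree := card_roots' _
      _ = l ^ d := hdeg
  have hgeom : 2 * ∑ d ∈ Finset.Ico 1 g, l ^ d ≤ l ^ g := by
    clear hsmall X0 hKc hK
    induction g, hg using Nat.le_induction with
    | base => simp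
    | succ n hn ih =>
      rw [Finset.sum_Ico_succ_top hn, mul_add, pow_succ]
      nlinarith [pow_pos hl.out.pos n]
  have hX0 : l ^ g ≤ 2 * X0.card := by
    have h1 : (Finset.univ \ X0).card + X0.card = l ^ g := by
      rw [Finset.card_sdiff_add_card_eq_card (Finset.subset_univ _), Finset.card_univ, hKc]
    omega
  -- the map to polynomials
  have hmap : X0.card ≤ g * (irrSet l g).card := by
    refine Finset.card_le_mul_card_image_of_maps_to
      (f := fun x : K => fun i : Fin g => (minpoly (ZMod l) x).coeff i) ?_ g ?_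
    · intro x hx
      rw [Finset.mem_filter] at hx
      rw [irrSet, Finset.mem_filter]
      refine ⟨Finset.mem_univ _, ?_⟩
      have hint : IsIntegral (ZMod l) x := Algebra.IsIntegral.isIntegral x
      rw [hp_of_monic _ (minpoly.monic hint) hx.2]
      exact minpoly.irreducible hint
    · intro b _
      have h1 : (X0.filter fun x => (fun i : Fin g => (minpoly (ZMod l) x).coeff i) = b) ⊆
          ((hp b).map (algebraMap (ZMod l) K)).roots.toFinset := by
        intro x hx
        rw [Finset.mem_filter, Finset.mem_filter] at hx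
        have hint : IsIntegral (ZMod l) x := Algebra.IsIntegral.isIntegral x
        have h2 : hp b = minpoly (ZMod l) x := by
          rw [← hx.2, hp_of_monic _ (minpoly.monic hint) hx.1.2]
        rw [Multiset.mem_toFinset, mem_roots ((hp_monic b).map _).ne_zero, IsRoot.def, h2,
          eval_map, ← aeval_def]
        exact minpoly.aeval _ _
      calc _ ≤ _ := Finset.card_le_card h1
        _ ≤ _ := Multiset.toFinset_card_le _
        _ ≤ _ := card_roots' _
        _ = g := by rw [(hp_monic b).natDegree_map, hp_natDegree]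
  calc l ^ g ≤ 2 * X0.card := hX0
    _ ≤ 2 * (g * (irrSet l g).card) := Nat.mul_le_mul_left _ hmap
    _ = _ := by ring

end irreducible

section inj

/-- Number of injective tuples with prescribed ranges. -/
theorem card_inj {α : Type*} [Fintype α] [DecidableEq α] (d : ℕ) : ∀ (g : ℕ) (D : Fin g → Finset α),
    (∀ i, d ≤ (D i).card) →
    (d - g) ^ g ≤ ((Fintype.piFinset D).filter fun y => Function.Injective y).card := by
  intro g
  induction g with
  | zero =>
    intro D _
    rw [pow_zero]
    refine Finset.card_pos.2 ⟨fun i => i.elim0, ?_⟩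
    rw [Finset.mem_filter, Fintype.mem_piFinset]
    exact ⟨fun i => i.elim0, fun i => i.elim0⟩
  | succ g ih =>
    intro D hD
    set Z := (Fintype.piFinset fun i : Fin g => D i.succ).filter fun y => Function.Injective y
      with hZ
    have h1 : (d - g) ^ g ≤ Z.card := ih _ fun i => hD _
    have h2 : (Z.sigma fun z => D 0 \ Finset.univ.image z).card ≤
        ((Fintype.piFinset D).filter fun y => Function.Injective y).card := by
      refine Finset.card_le_card_of_injOn (fun s => (Fin.cons s.2 s.1 : Fin (g + 1) → α)) ?_ ?_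
      · rintro ⟨z, y⟩ hs
        rw [Finset.mem_coe, Finset.mem_sigma, hZ, Finset.mem_filter, Fintype.mem_piFinset,
          Finset.mem_sdiff] at hs
        rw [Finset.mem_coe, Finset.mem_filter, Fintype.mem_piFinset]
        refine ⟨?_, ?_⟩
        · intro i
          refine Fin.cases ?_ (fun i => ?_) i
          · simpa using hs.2.1
          · simpa using hs.1.1 i
        · rw [Fin.cons_injective_iff]
          refine ⟨?_, hs.1.2⟩
          rintro ⟨i, hi⟩
          exact hs.2.2 (Finset.mem_image.2 ⟨i, Finset.mem_univ _, hi⟩)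
      · rintro ⟨z, y⟩ _ ⟨z', y'⟩ _ h
        have h3 := Fin.cons_injective2 h
        obtain ⟨h4, h5⟩ := h3
        simp only at h4 h5
        subst h4 h5
        rfl
    have h3 : Z.card * (d - g) ≤ (Z.sigma fun z => D 0 \ Finset.univ.image z).card := by
      rw [Finset.card_sigma]
      refine Finset.card_nsmul_le_sum _ _ _ fun z _ => ?_
      have h4 : (Finset.univ.image z).card ≤ g := by
        refine Finset.card_image_le.trans ?_
        simp
      have h5 := Finset.le_card_sdiff (Finset.univ.image z) (D 0)
      have h6 := hD 0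
      omega
    calc (d - (g + 1)) ^ (g + 1) ≤ (d - g) ^ (g + 1) := Nat.pow_le_pow_left (by omega) _
      _ = (d - g) ^ g * (d - g) := pow_succ _ _
      _ ≤ Z.card * (d - g) := Nat.mul_le_mul_right _ h1
      _ ≤ _ := h3.trans h2

end inj

section split

variable (l : ℕ) [hl : Fact l.Prime] (q : ZMod l)

open Classical in
/-- values `u + q / u` with `u ^ 2 ≠ q` -/
noncomputable def goodA : Finset (ZMod l) :=
  (Finset.univ.filter fun u : ZMod l => u ≠ 0 ∧ u ^ 2 ≠ q).image fun u => u + q / u

open Classical in
/-- values not of the form `u + q / u` -/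
noncomputable def goodB : Finset (ZMod l) :=
  Finset.univ \ (Finset.univ.filter fun u : ZMod l => u ≠ 0).image fun u => u + q / u

variable {l q}

lemma fibre_eq {u v : ZMod l} (hu : u ≠ 0) (hv : v ≠ 0)
    (h : u + q / u = v + q / v) : v = u ∨ v = q / u := by
  have h1 : (v - u) * (v - q / u) = 0 := by
    field_simp at h ⊢
    linear_combination (-1 : ZMod l) * h
  rcases mul_eq_zero.1 h1 with h2 | h2
  · left; exact sub_eq_zero.1 h2
  · right; exact sub_eq_zero.1 h2

lemma card_sqrt_le : (Finset.univ.filter fun u : ZMod l => u ^ 2 = q).card ≤ 2 := by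
  classical
  have h1 : (Finset.univ.filter fun u : ZMod l => u ^ 2 = q) ⊆
      (X ^ 2 - C q : (ZMod l)[X]).roots.toFinset := by
    intro u hu
    rw [Finset.mem_filter] at hu
    rw [Multiset.mem_toFinset, mem_roots (X_pow_sub_C_ne_zero (by norm_num) q)]
    simp [IsRoot.def, hu.2]
  calc _ ≤ _ := Finset.card_le_card h1
    _ ≤ _ := Multiset.toFinset_card_le _
    _ ≤ _ := card_roots' _
    _ = 2 := natDegree_X_pow_sub_C

lemma card_goodA : l - 3 ≤ 2 * (goodA l q).card := by
  classical
  set U := Finset.univ.filter fun u : ZMod l => u ≠ 0 ∧ u ^ 2 ≠ q with hU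
  have h1 : U.card ≤ 2 * (goodA l q).card := by
    refine Finset.card_le_mul_card_image (f := fun u => u + q / u) U 2 ?_
    intro y hy
    obtain ⟨u, hu, rfl⟩ := Finset.mem_image.1 hy
    have hu' := (Finset.mem_filter.1 hu).2
    have : (U.filter fun v => v + q / v = u + q / u) ⊆ {u, q / u} := by
      intro v hv
      rw [Finset.mem_filter, hU, Finset.mem_filter] at hv
      rw [Finset.mem_insert, Finset.mem_singleton]
      exact fibre_eq hu'.1 hv.1.2.1 hv.2.symm
    exact (Finset.card_le_card this).trans Finset.card_le_two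
  have h2 : l ≤ U.card + 1 + 2 := by
    have h3 : (Finset.univ : Finset (ZMod l)) ⊆
        (U ∪ {0}) ∪ Finset.univ.filter fun u : ZMod l => u ^ 2 = q := by
      intro u _
      simp only [Finset.mem_union, hU, Finset.mem_filter, Finset.mem_univ, true_and,
        Finset.mem_singleton]
      tauto
    have h4 := Finset.card_le_card h3
    rw [Finset.card_univ, ZMod.card] at h4
    have h5 := Finset.card_union_le (U ∪ {0}) (Finset.univ.filter fun u : ZMod l => u ^ 2 = q)
    have h6 := Finset.card_union_le U {0}
    have h7 := card_sqrt_le (l := l) (q := q)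
    rw [Finset.card_singleton] at h6
    omega
  omega

lemma card_goodB (hq : q ≠ 0) : l - 3 ≤ 2 * (goodB l q).card := by
  classical
  set U := Finset.univ.filter fun u : ZMod l => u ≠ 0 ∧ u ^ 2 ≠ q with hU
  have h1 : 2 * (U.image fun u => u + q / u).card ≤ U.card := by
    refine Finset.mul_card_image_le_card (f := fun u => u + q / u) U 2 ?_
    intro y hy
    obtain ⟨u, hu, rfl⟩ := Finset.mem_image.1 hy
    have hu' := (Finset.mem_filter.1 hu).2
    have hqu : q / u ≠ 0 := div_ne_zero hq hu'.1
    have hne : u ≠ q / u := by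
      intro h
      apply hu'.2
      rw [sq]
      exact (eq_div_iff hu'.1).1 h
    have : {u, q / u} ⊆ (U.filter fun v => v + q / v = u + q / u) := by
      intro v hv
      rw [Finset.mem_insert, Finset.mem_singleton] at hv
      rw [Finset.mem_filter, hU, Finset.mem_filter]
      rcases hv with rfl | rfl
      · exact ⟨⟨Finset.mem_univ _, hu'⟩, rfl⟩
      · have hu0 := hu'.1
        refine ⟨⟨Finset.mem_univ _, hqu, ?_⟩, ?_⟩
        · intro h
          apply hu'.2
          field_simp at h
          exact h.symm
        · field_simp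
          ring
    calc 2 = ({u, q / u} : Finset (ZMod l)).card := (Finset.card_pair hne).symm
      _ ≤ _ := Finset.card_le_card this
  have hUle : U.card ≤ l - 1 := by
    have : U ⊆ Finset.univ.erase 0 := by
      intro u hu
      rw [Finset.mem_erase]
      exact ⟨(Finset.mem_filter.1 hu).2.1, Finset.mem_univ _⟩
    have h2 := Finset.card_le_card this
    rwa [Finset.card_erase_of_mem (Finset.mem_univ _), Finset.card_univ, ZMod.card] at h2
  have h3 : ((Finset.univ.filter fun u : ZMod l => u ≠ 0).image fun u => u + q / u).card ≤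
      (U.image fun u => u + q / u).card + 2 := by
    have h4 : ((Finset.univ.filter fun u : ZMod l => u ≠ 0).image fun u => u + q / u) ⊆
        (U.image fun u => u + q / u) ∪
          ((Finset.univ.filter fun u : ZMod l => u ^ 2 = q).image fun u => u + q / u) := by
      intro y hy
      obtain ⟨u, hu, rfl⟩ := Finset.mem_image.1 hy
      rw [Finset.mem_union]
      by_cases h : u ^ 2 = q
      · right; exact Finset.mem_image_of_mem _ (by simp [h])
      · left; exact Finset.mem_image_of_mem _ (by simp [hU, h, (Finset.mem_filter.1 hu).2])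
    refine (Finset.card_le_card h4).trans ((Finset.card_union_le _ _).trans ?_)
    have h5 : ((Finset.univ.filter fun u : ZMod l => u ^ 2 = q).image fun u => u + q / u).card ≤ 2 :=
      Finset.card_image_le.trans card_sqrt_le
    omega
  have h6 : (goodB l q).card + ((Finset.univ.filter fun u : ZMod l => u ≠ 0).image
      fun u => u + q / u).card = l := by
    rw [goodB, Finset.card_sdiff_add_card_eq_card (Finset.subset_univ _), Finset.card_univ,
      ZMod.card]
  have hl1 := hl.out.one_lt
  omega

variable (l q) in
open Classical in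
/-- coefficient vectors of polynomials with distinct roots, the `i`-th one in `D i` -/
noncomputable def rootSet {g : ℕ} (D : Fin g → Finset (ZMod l)) : Finset (Fin g → ZMod l) :=
  Finset.univ.filter fun b => ∃ y : Fin g → ZMod l, Function.Injective y ∧ (∀ i, y i ∈ D i) ∧
    hp b = ∏ i, (X - C (y i))

theorem rootSet_card {g : ℕ} (D : Fin g → Finset (ZMod l)) (d : ℕ) (hD : ∀ i, d ≤ (D i).card) :
    (d - g) ^ g ≤ g ^ g * (rootSet l D).card := by
  classical
  refine (card_inj d g D hD).trans ?_
  have hprod : ∀ y : Fin g → ZMod l, (∏ i, (X - C (y i)) : (ZMod l)[X]).Monic ∧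
      (∏ i, (X - C (y i)) : (ZMod l)[X]).natDegree = g := by
    intro y
    refine ⟨monic_prod_of_monic _ _ fun i _ => monic_X_sub_C _, ?_⟩
    rw [natDegree_prod_of_monic _ _ fun i _ => monic_X_sub_C _]
    simp
  refine Finset.card_le_mul_card_image_of_maps_to
    (f := fun y : Fin g → ZMod l => fun j : Fin g => (∏ i, (X - C (y i)) : (ZMod l)[X]).coeff j)
    ?_ _ ?_
  · intro y hy
    rw [Finset.mem_filter, Fintype.mem_piFinset] at hy
    rw [rootSet, Finset.mem_filter]
    exact ⟨Finset.mem_univ _, y, hy.2, hy.1, hp_of_monic _ (hprod y).1 (hprod y).2⟩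
  · intro b _
    have h1 : (((Fintype.piFinset D).filter fun y => Function.Injective y).filter fun y =>
        (fun j : Fin g => (∏ i, (X - C (y i)) : (ZMod l)[X]).coeff j) = b) ⊆
        Fintype.piFinset fun _ : Fin g => (hp b).roots.toFinset := by
      intro y hy
      rw [Finset.mem_filter] at hy
      have h2 : hp b = ∏ i, (X - C (y i)) := by
        rw [← hy.2]; exact hp_of_monic _ (hprod y).1 (hprod y).2
      rw [Fintype.mem_piFinset]
      intro i
      rw [Multiset.mem_toFinset, mem_roots (hp_monic b).ne_zero, IsRoot.def, h2, eval_prod,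
        Finset.prod_eq_zero_iff]
      exact ⟨i, Finset.mem_univ _, by simp⟩
    refine (Finset.card_le_card h1).trans ?_
    rw [Fintype.card_piFinset, Finset.prod_const, Finset.card_univ, Fintype.card_fin]
    refine Nat.pow_le_pow_left ?_ _
    calc _ ≤ _ := Multiset.toFinset_card_le _
      _ ≤ _ := card_roots' _
      _ = g := hp_natDegree b

theorem rootSet_card' {g : ℕ} (hlg : 4 * g + 8 ≤ l) (D : Fin g → Finset (ZMod l))
    (hD : ∀ i, l - 3 ≤ 2 * (D i).card) :
    l ^ g ≤ (4 * g) ^ g * (rootSet l D).card := by
  have h1 := rootSet_card D ((l - 3) / 2) (fun i => by have := hD i; omega)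
  have h2 : l ≤ 4 * ((l - 3) / 2 - g) := by omega
  calc l ^ g ≤ (4 * ((l - 3) / 2 - g)) ^ g := Nat.pow_le_pow_left h2 _
    _ = 4 ^ g * ((l - 3) / 2 - g) ^ g := mul_pow _ _ _
    _ ≤ 4 ^ g * (g ^ g * (rootSet l D).card) := Nat.mul_le_mul_left _ h1
    _ = _ := by rw [mul_pow]; ring

end split

end Pool.Agent.W518.DN
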