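import Pool.Agent.W518.DN.Recip
import Pool.Agent.W518.DN.Pattern

/-!
# Frobenius elements which flip exactly one pair of roots
-/

open Polynomial NumberField

namespace Pool.Agent.W518.DN

/-- Existence of Frobenius elements. -/
theorem exists_frob (L : Type) [Field L] [NumberField L] [IsGalois ℚ L] (l : ℕ) [hl : Fact l.Prime] :
    ∃ (Q : Ideal (𝓞 L)) (_ : Q.IsMaximal) (_ : (l : 𝓞 L) ∈ Q) (σ : L ≃ₐ[ℚ] L),
      ∀ x : 𝓞 L, ∃ x' : 𝓞 L, (x' : L) = σ (x : L) ∧
        Ideal.Quotient.mk Q x' = (Ideal.Quotient.mk Q x) ^ l := by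
  have hmaxl : (Ideal.span {(l : ℤ)}).IsMaximal :=
    PrincipalIdealRing.isMaximal_of_irreducible
      (Nat.prime_iff_prime_int.1 hl.out).irreducible
  obtain ⟨Q, hQmax, hQ⟩ := Ideal.exists_maximal_ideal_liesOver_of_isIntegral (S := 𝓞 L)
    (Ideal.span {(l : ℤ)})
  have hlQ : (l : 𝓞 L) ∈ Q := by
    have h1 : (l : ℤ) ∈ Q.under ℤ := by
      rw [← hQ.over]; exact Ideal.mem_span_singleton_self _
    have := Ideal.mem_comap.1 h1
    simpa using this
  have hQprime : Q.IsPrime := hQmax.isPrime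
  have hQ0 : Q ≠ ⊥ := by
    rintro rfl
    rw [Ideal.mem_bot] at hlQ
    exact hl.out.ne_zero (by exact_mod_cast hlQ)
  have hfin : Finite (𝓞 L ⧸ Q) := Ideal.finiteQuotientOfFreeOfNeBot Q hQ0
  have hGG := IsGaloisGroup.of_isFractionRing (L ≃ₐ[ℚ] L) ℤ (𝓞 L) ℚ L
  obtain ⟨σ, hσ⟩ := IsArithFrobAt.exists_of_isInvariant ℤ (L ≃ₐ[ℚ] L) Q
  have hcard : Nat.card (ℤ ⧸ Q.under ℤ) = l := by
    rw [← hQ.over, Nat.card_congr (Int.quotientSpanNatEquivZMod l).toEquiv, Nat.card_zmod]
  refine ⟨Q, hQmax, hlQ, σ, fun x => ⟨σ • x, ?_, ?_⟩⟩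
  · rfl
  · have := hσ x
    rw [hcard] at this
    rw [← map_pow, Ideal.Quotient.eq]
    exact this

/-- Reduction of the roots of an integral polynomial. -/
theorem roots_reduction {L : Type} [Field L] [NumberField L] (h : ℤ[X]) (hm : h.Monic)
    (hs : (h.map (Int.castRingHom L)).Splits) {k : Type} [Field k] (f : 𝓞 L →+* k) :
    ∃ R : Multiset (𝓞 L), R.map (fun x : 𝓞 L => (x : L)) = (h.map (Int.castRingHom L)).roots ∧
      (h.map (Int.castRingHom k)).roots = R.map f := by
  have hlift : ∀ s : Multiset L, (∀ b ∈ s, ∃ x : 𝓞 L, (x : L) = b) →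
      ∃ R : Multiset (𝓞 L), R.map (fun x : 𝓞 L => (x : L)) = s := by
    intro s
    induction s using Multiset.induction_on with
    | empty => intro _; exact ⟨0, rfl⟩
    | cons b s ih =>
      intro hb
      obtain ⟨t, rfl⟩ := ih fun b' hb' => hb b' (Multiset.mem_cons_of_mem hb')
      obtain ⟨x, rfl⟩ := hb b (Multiset.mem_cons_self _ _)
      exact ⟨x ::ₘ t, by simp⟩
  obtain ⟨R, hR⟩ := hlift (h.map (Int.castRingHom L)).roots (by
    intro b hb
    have hb' := (mem_roots (hm.map _).ne_zero).1 hb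
    have hint : IsIntegral ℤ b := by
      refine ⟨h, hm, ?_⟩
      rw [IsRoot.def, eval_map] at hb'
      have h0 : algebraMap ℤ L = Int.castRingHom L := RingHom.ext_int _ _
      rw [h0]; exact hb'
    exact ⟨⟨b, hint⟩, rfl⟩)
  refine ⟨R, hR, ?_⟩
  have h1 : h.map (Int.castRingHom (𝓞 L)) = (R.map fun x => X - C x).prod := by
    apply map_injective (algebraMap (𝓞 L) L) (RingOfIntegers.coe_injective)
    rw [Polynomial.map_map, Polynomial.map_multiset_prod, Multiset.map_map]
    have h2 : (algebraMap (𝓞 L) L).comp (Int.castRingHom (𝓞 L)) = Int.castRingHom L :=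
      RingHom.ext_int _ _
    rw [h2, hs.eq_prod_roots, (hm.map _).leadingCoeff, C_1, one_mul, ← hR, Multiset.map_map]
    congr 1
    refine Multiset.map_congr rfl fun x _ => ?_
    simp
  have h3 : h.map (Int.castRingHom k) = ((R.map f).map fun x => X - C x).prod := by
    have h4 : Int.castRingHom k = f.comp (Int.castRingHom (𝓞 L)) := RingHom.ext_int _ _
    rw [h4, ← Polynomial.map_map, h1, Polynomial.map_multiset_prod, Multiset.map_map,
      Multiset.map_map]
    congr 1
    refine Multiset.map_congr rfl fun x _ => ?_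
    simp
  rw [h3, roots_multiset_prod_X_sub_C]

lemma lift_eval_zero {F : Type*} [Field F] (q : F) (g : ℕ) (h : F[X]) :
    (lift q g h).eval 0 = h.coeff g * q ^ g := by
  rw [lift, eval_finsetSum, Finset.sum_eq_single g]
  · simp
  · intro k hk hkg
    rw [Finset.mem_range] at hk
    have : g - k ≠ 0 := by omega
    simp [this]
  · intro h; simp at h

/-- Elements of a field of characteristic `l` fixed by `x ↦ x ^ l`. -/
lemma fixed_of_pow {l : ℕ} [hl : Fact l.Prime] {k : Type*} [Field k] (j : ZMod l →+* k) (x : k)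
    (hx : x ^ l = x) : ∃ a, j a = x := by
  have h1 : (X ^ l - X : (ZMod l)[X]).Splits := by
    have := Polynomial.splits_X_pow_nat_card_sub_X (K := ZMod l)
    rwa [Nat.card_zmod] at this
  have h2 : (X ^ l - X : (ZMod l)[X]) ≠ 0 := FiniteField.X_pow_card_sub_X_ne_zero _ hl.out.one_lt
  obtain ⟨a, ha⟩ := h1.mem_range_of_isRoot h2 (i := j) (x := x) (by
    simp [IsRoot.def, hx])
  exact ⟨a, ha⟩

/-- A Frobenius element flips exactly one pair of roots. -/
theorem exists_flip {κ : Type} (q : ℕ) (g : κ → ℕ) (h : κ → ℤ[X]) (hm : ∀ i, (h i).Monic)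
    (hd : ∀ i, (h i).natDegree = g i)
    (L : Type) [Field L] [NumberField L] [IsGalois ℚ L]
    (hs : ∀ i, ((h i).map (Int.castRingHom L)).Splits)
    (l : ℕ) [hl : Fact l.Prime] (hql : (q : ZMod l) ≠ 0)
    (y : ∀ i, Fin (g i) → ZMod l) (hy : ∀ i, Function.Injective (y i))
    (hhy : ∀ i, (h i).map (Int.castRingHom (ZMod l)) = ∏ t, (X - C (y i t)))
    (i0 : κ) (t0 : Fin (g i0)) (hB : y i0 t0 ∈ goodB l q)
    (hA : ∀ i t, (⟨i, t⟩ : Σ i, Fin (g i)) ≠ ⟨i0, t0⟩ → y i t ∈ goodA l q) :
    ∃ (σ : L ≃ₐ[ℚ] L) (y0 : L), ((h i0).map (Int.castRingHom L)).IsRoot y0 ∧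
      ∀ i (π : L), ((lift (q : ℤ) (g i) (h i)).map (Int.castRingHom L)).IsRoot π →
        (π + q / π = y0 → σ π = q / π) ∧ (π + q / π ≠ y0 → σ π = π) := by
  classical
  obtain ⟨Q, hQ, hlQ, σ, hσ⟩ := exists_frob L l
  let _ : Field (𝓞 L ⧸ Q) := Ideal.Quotient.field Q
  let f : 𝓞 L →+* (𝓞 L ⧸ Q) := Ideal.Quotient.mk Q
  have hσf : ∀ x : 𝓞 L, ∃ x' : 𝓞 L, (x' : L) = σ (x : L) ∧ f x' = f x ^ l := hσ
  have hq0 : (q : L) ≠ 0 := by
    intro h0
    apply hql
    have : q = 0 := by exact_mod_cast h0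
    rw [this]; simp
  have hchar : CharP (𝓞 L ⧸ Q) l := by
    obtain ⟨c, hc⟩ := CharP.exists (𝓞 L ⧸ Q)
    have h1 : ((l : ℕ) : 𝓞 L ⧸ Q) = 0 := by
      have : f (l : 𝓞 L) = 0 := Ideal.Quotient.eq_zero_iff_mem.2 hlQ
      rwa [map_natCast] at this
    have h2 : c ∣ l := (CharP.cast_eq_zero_iff _ c l).1 h1
    rcases (Nat.dvd_prime hl.out).1 h2 with h3 | h3
    · subst h3
      exact absurd rfl (CharP.char_ne_one (𝓞 L ⧸ Q) 1)
    · subst h3; exact hc
  let j : ZMod l →+* (𝓞 L ⧸ Q) := ZMod.castHom dvd_rfl _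
  have hjinj : Function.Injective j := j.injective
  have hjq : j (q : ZMod l) = f (q : 𝓞 L) := by rw [map_natCast, map_natCast]
  -- reductions of the roots
  choose R hRL hRk using fun i => roots_reduction (h i) (hm i) (hs i) f
  have hRk' : ∀ i, (R i).map f = Finset.univ.val.map fun t => j (y i t) := by
    intro i
    rw [← hRk i]
    have h1 : (h i).map (Int.castRingHom (𝓞 L ⧸ Q)) = ∏ t, (X - C (j (y i t))) := by
      have h2 : Int.castRingHom (𝓞 L ⧸ Q) = j.comp (Int.castRingHom (ZMod l)) :=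
        RingHom.ext_int _ _
      rw [h2, ← Polynomial.map_map, hhy, Polynomial.map_prod]
      simp
    rw [h1]
    have h2 : (∏ t, (X - C (j (y i t))) : (𝓞 L ⧸ Q)[X])
        = ((Finset.univ.val.map fun t => j (y i t)).map fun x => X - C x).prod := by
      rw [Multiset.map_map]; rfl
    rw [h2, roots_multiset_prod_X_sub_C]
  have hnodup : ∀ i, ((R i).map f).Nodup := by
    intro i
    rw [hRk']
    exact Finset.univ.nodup.map (hjinj.comp (hy i))
  have hinj : ∀ i, ∀ a ∈ R i, ∀ b ∈ R i, f a = f b → a = b := by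
    intro i a ha b hb hab
    exact Multiset.inj_on_of_nodup_map (hnodup i) a ha b hb hab
  have hmemR : ∀ i (b : 𝓞 L), b ∈ R i ↔ ((h i).map (Int.castRingHom L)).IsRoot (b : L) := by
    intro i b
    rw [← mem_roots ((hm i).map _).ne_zero, ← hRL, Multiset.mem_map]
    constructor
    · intro hb; exact ⟨b, hb, rfl⟩
    · rintro ⟨b', hb', e⟩
      rwa [RingOfIntegers.coe_injective e] at hb'
  -- the special root
  obtain ⟨b0, hb0, hb0y⟩ : ∃ b0 ∈ R i0, f b0 = j (y i0 t0) := by
    have : j (y i0 t0) ∈ (R i0).map f := by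
      rw [hRk']
      exact Multiset.mem_map_of_mem _ (Finset.mem_univ t0)
    exact Multiset.mem_map.1 this
  refine ⟨σ, (b0 : L), (hmemR i0 b0).1 hb0, ?_⟩
  intro i π hπ
  have hPm : (lift (q : ℤ) (g i) (h i)).Monic := (lift_monic _ _ _ (hm i) (hd i)).1
  have hmapL : (lift (q : ℤ) (g i) (h i)).map (Int.castRingHom L)
      = lift (q : L) (g i) ((h i).map (Int.castRingHom L)) := by
    rw [lift_map]; simp
  have hdL : ((h i).map (Int.castRingHom L)).natDegree ≤ g i := by
    rw [(hm i).natDegree_map, hd]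
  have hπ0 : π ≠ 0 := by
    rintro rfl
    rw [hmapL, IsRoot.def, lift_eval_zero] at hπ
    have h1 : ((h i).map (Int.castRingHom L)).coeff (g i) = 1 := by
      rw [coeff_map, ← hd i, (hm i).coeff_natDegree, map_one]
    rw [h1, one_mul] at hπ
    exact pow_ne_zero _ hq0 hπ
  have hπ'0 : (q : L) / π ≠ 0 := div_ne_zero hq0 hπ0
  have hyroot : ((h i).map (Int.castRingHom L)).IsRoot (π + q / π) := by
    rw [hmapL, IsRoot.def, lift_eval _ _ _ hdL π hπ0] at hπ
    exact (mul_eq_zero.1 hπ).resolve_left (pow_ne_zero _ hπ0)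
  have hπ'root : ((lift (q : ℤ) (g i) (h i)).map (Int.castRingHom L)).IsRoot (q / π) := by
    rw [hmapL, IsRoot.def, lift_eval _ _ _ hdL _ hπ'0]
    have : (q : L) / π + q / (q / π) = π + q / π := by field_simp; ring
    rw [this, hyroot.eq_zero, mul_zero]
  have hint : ∀ x : L, ((lift (q : ℤ) (g i) (h i)).map (Int.castRingHom L)).IsRoot x →
      ∃ x' : 𝓞 L, (x' : L) = x := by
    intro x hx
    have : IsIntegral ℤ x := by
      refine ⟨_, hPm, ?_⟩
      rw [IsRoot.def, eval_map] at hx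
      have h0 : algebraMap ℤ L = Int.castRingHom L := RingHom.ext_int _ _
      rw [h0]; exact hx
    exact ⟨⟨x, this⟩, rfl⟩
  obtain ⟨a, ha⟩ := hint _ hπ
  obtain ⟨a', ha'⟩ := hint _ hπ'root
  have hprod : a * a' = (q : 𝓞 L) := by
    apply RingOfIntegers.ext
    rw [show ((a * a' : 𝓞 L) : L) = (a : L) * (a' : L) from rfl, ha, ha',
      show (((q : ℕ) : 𝓞 L) : L) = (q : L) from rfl]
    field_simp
  set b : 𝓞 L := a + a' with hb
  have hbL : (b : L) = π + q / π := by
    rw [hb, show ((a + a' : 𝓞 L) : L) = (a : L) + (a' : L) from rfl, ha, ha']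
  have hbR : b ∈ R i := by rw [hmemR, hbL]; exact hyroot
  obtain ⟨t, ht⟩ : ∃ t, j (y i t) = f b := by
    have : f b ∈ (R i).map f := Multiset.mem_map_of_mem _ hbR
    rw [hRk'] at this
    obtain ⟨t, _, ht⟩ := Multiset.mem_map.1 this
    exact ⟨t, ht⟩
  have hfsum : f a + f a' = j (y i t) := by rw [ht, hb, map_add]
  have hfprod : f a * f a' = j (q : ZMod l) := by rw [← map_mul, hprod, hjq]
  have hfix : ∀ x : ZMod l, j x ^ l = j x := by
    intro x; rw [← map_pow, ZMod.pow_card]
  -- `σ` fixes `π + q / π`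
  have hσb : σ (π + q / π) = π + q / π := by
    obtain ⟨b', hb', hfb'⟩ := hσf b
    have h1 : ((h i).map (Int.castRingHom L)).IsRoot (b' : L) := by
      rw [hb', hbL]
      have h2 : ((h i).map (Int.castRingHom L)) = ((h i).map (Int.castRingHom L)).map
          (σ : L →+* L) := by
        rw [Polynomial.map_map]; congr 1; exact RingHom.ext_int _ _
      rw [h2]
      exact hyroot.map
    have h2 : b' = b := by
      apply hinj i b' ((hmemR i b').2 h1) b hbR
      rw [hfb', ← ht, hfix]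
    rw [← hbL, ← hb', h2]
  have hσq : σ (q : L) = q := map_natCast σ q
  have hσπ : σ π = π ∨ σ π = q / π := by
    have h1 : (σ π - π) * (σ π - q / π) = 0 := by
      have h2 : π ^ 2 - (π + q / π) * π + q = 0 := by field_simp; ring
      have h3 := congrArg σ h2
      rw [map_add, map_sub, map_pow, map_mul, hσb, hσq, map_zero] at h3
      have h4 : (σ π - π) * (σ π - q / π) = σ π ^ 2 - (π + q / π) * σ π + q := by
        field_simp; ring
      rw [h4, h3]
    rcases mul_eq_zero.1 h1 with h2 | h2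
    · left; exact sub_eq_zero.1 h2
    · right; exact sub_eq_zero.1 h2
  obtain ⟨a'', ha'', hfa''⟩ := hσf a
  rw [ha] at ha''
  -- the two cases
  have hcaseA : y i t ∈ goodA l q → σ π = π := by
    intro hAt
    obtain ⟨u, hu, huy⟩ := Finset.mem_image.1 hAt
    have hu' := (Finset.mem_filter.1 hu).2
    have h1 : (f a - j u) * (f a - j (q / u)) = 0 := by
      have h2 : j (y i t) = j u + j (q / u) := by rw [← map_add, huy]
      have h3 : j u * j (q / u) = j (q : ZMod l) := by
        rw [← map_mul, mul_div_cancel₀ _ hu'.1]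
      have h4 : (f a - j u) * (f a - j (q / u))
          = f a * f a - (j u + j (q / u)) * f a + j u * j (q / u) := by ring
      rw [h4, h3, ← h2, ← hfsum, ← hfprod]; ring
    have hne : (u : ZMod l) ≠ q / u := by
      intro h2; apply hu'.2; rw [sq]; exact (eq_div_iff hu'.1).1 h2
    have h5 : f a ^ l = f a ∧ f a ≠ f a' := by
      rcases mul_eq_zero.1 h1 with h2 | h2
      · have h3 : f a = j u := sub_eq_zero.1 h2
        have h4 : f a' = j (q / u) := by
          have : f a' = j (y i t) - f a := by rw [← hfsum]; ring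
          rw [this, h3, ← huy, map_add]; ring
        refine ⟨by rw [h3, hfix], ?_⟩
        rw [h3, h4]; exact fun h => hne (hjinj h)
      · have h3 : f a = j (q / u) := sub_eq_zero.1 h2
        have h4 : f a' = j u := by
          have : f a' = j (y i t) - f a := by rw [← hfsum]; ring
          rw [this, h3, ← huy, map_add]; ring
        refine ⟨by rw [h3, hfix], ?_⟩
        rw [h3, h4]; exact fun h => hne (hjinj h).symm
    rcases hσπ with h6 | h6
    · exact h6
    · exfalso
      apply h5.2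
      have h7 : a'' = a' := by
        apply RingOfIntegers.ext
        rw [ha'', h6, ha']
      rw [← h5.1, ← hfa'', h7]
  have hcaseB : y i t ∈ goodB l q → σ π = q / π := by
    intro hBt
    rcases hσπ with h6 | h6
    swap
    · exact h6
    · exfalso
      have h7 : a'' = a := by
        apply RingOfIntegers.ext
        rw [ha'', h6, ha]
      rw [h7] at hfa''
      obtain ⟨v, hv⟩ := fixed_of_pow j (f a) hfa''.symm
      have hv0 : v ≠ 0 := by
        rintro rfl
        rw [map_zero] at hv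
        rw [← hv, zero_mul] at hfprod
        exact hql (hjinj (by rw [← hfprod, map_zero]))
      have h8 : f a' = j (q / v) := by
        have h9 : j v * f a' = j v * j (q / v) := by
          rw [hv, hfprod, ← hv, ← map_mul, mul_div_cancel₀ _ hv0]
        exact mul_left_cancel₀ (by rw [Ne, map_eq_zero]; exact hv0) h9
      have h9 : y i t = v + q / v := by
        apply hjinj
        rw [← hfsum, h8, ← hv, map_add]
      rw [goodB, Finset.mem_sdiff] at hBt
      apply hBt.2
      rw [h9]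
      exact Finset.mem_image.2 ⟨v, by simp [hv0], rfl⟩
  refine ⟨fun h1 => hcaseB ?_, fun h1 => hcaseA (hA i t ?_)⟩
  · have h2 : b = b0 := by
      apply RingOfIntegers.ext
      rw [hbL, h1]
    have h3 : y i t = y i0 t0 := by
      apply hjinj
      rw [ht, h2, hb0y]
    rw [h3]; exact hB
  · intro h2
    apply h1
    obtain ⟨rfl, h3⟩ := Sigma.mk.inj_iff.1 h2
    have h4 : t = t0 := eq_of_heq h3
    have h5 : b = b0 := by
      apply hinj i b hbR b0 hb0
      rw [← ht, h4, hb0y]
    rw [← hbL, h5]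

end Pool.Agent.W518.DN
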