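import Pool.Agent.W518.DN.Deg

/-!
# Roots of slope one half, and the local conditions
-/

open Polynomial

namespace Pool.Agent.W518.DN

variable (p : ℕ) [hp : Fact p.Prime]

section half

variable {a a' g : ℕ} (ha : 0 < a) (haa : a = 2 * a') {μ : ℕ → ℚ}
  {h : ℤ[X]} (hd : h.natDegree = g) (b : ℕ → ℤ)
  (hb : ∀ k ≤ g, h.coeff (g - k) = (p : ℤ) ^ sk a μ k * b k)
  {K : ℕ} (hK : K < g) (hK1 : ∀ j < K, μ j < 1 / 2) (hK2 : ∀ j, K ≤ j → μ j = 1 / 2)
  (hint : ∃ n : ℕ, (a : ℚ) * Ssum μ K = n)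
include ha haa hd hb hK hK1 hK2 hint

theorem eval_half {y : AlgebraicClosure ℚ_[p]}
    (hroot : (h.map (Int.castRingHom (AlgebraicClosure ℚ_[p]))).IsRoot y)
    (hy : nv p y ≤ pw p a') (z : OO p)
    (hz : (z : AlgebraicClosure ℚ_[p]) = y / (p : AlgebraicClosure ℚ_[p]) ^ a') :
    ∑ i ∈ Finset.range (g - K + 1), jj p (b (K + i) : ZMod p) * (red p z) ^ (g - K - i) = 0 := by
  classical
  have hp2 := hp.out.two_le
  have ha' : (0 : ℚ) < a := by exact_mod_cast ha
  have haq : (a : ℚ) = 2 * a' := by rw [haa]; push_cast; rfl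
  obtain ⟨n0, hn0⟩ := hint
  have hsK : sk a μ K = n0 := by rw [sk, hn0, Nat.ceil_natCast]
  have hp0 : (p : AlgebraicClosure ℚ_[p]) ≠ 0 := by exact_mod_cast hp.out.ne_zero
  set D : AlgebraicClosure ℚ_[p] := (p : AlgebraicClosure ℚ_[p]) ^ (n0 + a' * (g - K)) with hD
  have hD0 : D ≠ 0 := pow_ne_zero _ hp0
  let Xt : ℕ → AlgebraicClosure ℚ_[p] := fun k =>
    ((b k : ℤ) : AlgebraicClosure ℚ_[p]) * ((p : AlgebraicClosure ℚ_[p]) ^ sk a μ k *
      y ^ (g - k)) / D
  have hyp : y = (z : AlgebraicClosure ℚ_[p]) * (p : AlgebraicClosure ℚ_[p]) ^ a' := by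
    rw [hz, div_mul_cancel₀ _ (pow_ne_zero _ hp0)]
  have hXnv : ∀ k ≤ g, nv p (Xt k) ≤ pw p (sk a μ k - n0 + ((K : ℚ) - k) * a') := by
    intro k hk
    have h2 : nv p D = pw p (n0 + a' * ((g : ℚ) - K)) := by
      rw [hD, nv_ppow, ← Nat.cast_sub hK.le]; congr 1; push_cast; ring
    have h3 : nv p ((p : AlgebraicClosure ℚ_[p]) ^ sk a μ k * y ^ (g - k))
        ≤ pw p (sk a μ k + ((g : ℚ) - k) * a') := by
      rw [map_mul, nv_ppow, map_pow, pw_add hp2, ← Nat.cast_sub hk, pw_nsmul hp2]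
      exact mul_le_mul_of_nonneg_left (pow_le_pow_left₀ ((nv p).nonneg _) hy _) (pw_pos hp2 _).le
    simp only [Xt]
    rw [map_div₀, map_mul, h2, div_le_iff₀ (pw_pos hp2 _), ← pw_add hp2]
    calc _ ≤ 1 * nv p ((p : AlgebraicClosure ℚ_[p]) ^ sk a μ k * y ^ (g - k)) :=
          mul_le_mul_of_nonneg_right (nv_int_le p _) ((nv p).nonneg _)
      _ ≤ _ := by
        rw [one_mul]
        refine h3.trans (le_of_eq ?_)
        congr 1; ring
  have hXle : ∀ k ≤ g, K ≤ k → Xt k = ((b k : ℤ) : AlgebraicClosure ℚ_[p]) * z ^ (g - k) ∧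
      sk a μ k = n0 + a' * (k - K) := by
    intro k hk hKk
    have h4 : sk a μ k = n0 + a' * (k - K) := by
      have h5 : (a : ℚ) * Ssum μ k = ((n0 + a' * (k - K) : ℕ) : ℚ) := by
        have h6 : Ssum μ k - Ssum μ K = ((k - K : ℕ) : ℚ) * (1 / 2) := by
          rw [Ssum_sub hKk, Finset.sum_congr rfl fun j hj => hK2 j (Finset.mem_Ico.1 hj).1]
          simp
        have h7 : (a : ℚ) * Ssum μ k = n0 + a * (((k - K : ℕ) : ℚ) * (1 / 2)) := by
          rw [← hn0, ← h6]; ring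
        rw [h7, haq]; push_cast; ring
      rw [sk, h5, Nat.ceil_natCast]
    refine ⟨?_, h4⟩
    simp only [Xt]
    rw [h4, hD, hyp, mul_pow, ← pow_mul]
    have h8 : n0 + a' * (g - K) = (n0 + a' * (k - K)) + a' * (g - k) := by
      have : g - K = (k - K) + (g - k) := by omega
      rw [this]; ring
    rw [h8, div_eq_iff (pow_ne_zero _ hp0)]
    ring
  have hXlt : ∀ k < K, nv p (Xt k) < 1 := by
    intro k hk
    refine (hXnv k (by omega)).trans_lt ?_
    rw [← pw_zero (p := p), pw_lt_iff hp2]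
    have h1 : a * Ssum μ k ≤ (sk a μ k : ℚ) := Nat.le_ceil _
    have h2 : Ssum μ K - Ssum μ k < ((K - k : ℕ) : ℚ) * (1 / 2) := by
      rw [Ssum_sub hk.le]
      calc ∑ j ∈ Finset.Ico k K, μ j < ∑ _j ∈ Finset.Ico k K, (1 / 2 : ℚ) :=
            Finset.sum_lt_sum_of_nonempty (Finset.nonempty_Ico.2 hk) fun j hj =>
              hK1 j (Finset.mem_Ico.1 hj).2
        _ = _ := by simp
    rw [Nat.cast_sub hk.le] at h2
    have h3 : a * (Ssum μ K - Ssum μ k) < a * (((K : ℚ) - k) * (1 / 2)) :=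
      mul_lt_mul_of_pos_left h2 ha'
    rw [← hn0]
    rw [haq] at h1 h3 ⊢
    nlinarith
  have hXle' : ∀ k ≤ g, nv p (Xt k) ≤ 1 := by
    intro k hk
    rcases lt_or_ge k K with h1 | h1
    · exact (hXlt k h1).le
    · rw [(hXle k hk h1).1, map_mul, map_pow]
      exact mul_le_one₀ (nv_int_le p _) (pow_nonneg ((nv p).nonneg _) _)
        (pow_le_one₀ ((nv p).nonneg _) z.2)
  have hXsum : ∑ k ∈ Finset.range (g + 1), Xt k = 0 := by
    rw [IsRoot.def, eval_map, eval₂_eq_sum_range, hd, ← Finset.sum_range_reflect] at hroot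
    have h2 : ∑ k ∈ Finset.range (g + 1), Xt k = (∑ j ∈ Finset.range (g + 1),
        (Int.castRingHom (AlgebraicClosure ℚ_[p])) (h.coeff (g + 1 - 1 - j)) *
          y ^ (g + 1 - 1 - j)) / D := by
      rw [Finset.sum_div]
      refine Finset.sum_congr rfl fun k hk => ?_
      rw [Finset.mem_range] at hk
      rw [Nat.add_sub_cancel, hb k (by omega)]
      simp only [Xt, eq_intCast]
      congr 1
      push_cast
      ring
    rw [h2, hroot, zero_div]
  let Xo : ℕ → OO p := fun i => if hi : i ≤ g then ⟨Xt i, hXle' i hi⟩ else 0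
  have hXo : ∀ i ≤ g, ((Xo i : OO p) : AlgebraicClosure ℚ_[p]) = Xt i := by
    intro i hi
    have : Xo i = ⟨Xt i, hXle' i hi⟩ := dif_pos hi
    rw [this]
  have h1 : ∑ i ∈ Finset.range (g + 1), red p (Xo i) = 0 := by
    rw [← map_sum]
    have h2 : ∑ i ∈ Finset.range (g + 1), Xo i = 0 := by
      apply Subtype.ext
      push_cast
      rw [← hXsum]
      refine Finset.sum_congr rfl fun i hi => ?_
      rw [Finset.mem_range] at hi
      exact hXo i (by omega)
    rw [h2, map_zero]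
  have h2 : ∑ i ∈ Finset.range K, red p (Xo i) = 0 := by
    refine Finset.sum_eq_zero fun i hi => ?_
    rw [Finset.mem_range] at hi
    rw [red_eq_zero, hXo i (by omega)]
    exact hXlt i hi
  rw [← Finset.sum_range_add_sum_Ico _ (show K ≤ g + 1 by omega), h2, zero_add,
    Finset.sum_Ico_eq_sum_range] at h1
  rw [← h1, show g + 1 - K = g - K + 1 by omega]
  refine Finset.sum_congr rfl fun i hi => ?_
  rw [Finset.mem_range] at hi
  rw [jj_int, ← map_pow, ← map_mul]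
  congr 1
  apply Subtype.ext
  rw [hXo _ (by omega), (hXle (K + i) (by omega) (by omega)).1]
  push_cast
  rw [show g - K - i = g - (K + i) by omega]

/-- Roots of slope `1 / 2` have even degree (for even `a`). -/
theorem even_of_half (hm : h.Monic) (hcK : (b K : ZMod p) ≠ 0) (z0 : ZMod p)
    (hQ : Irreducible (X ^ 2 - C z0 * X + 1 : (ZMod p)[X]))
    (hid : ∑ i ∈ Finset.range (g - K + 1), C (b (K + i) : ZMod p) * X ^ (g - K - i) =
      C (b K : ZMod p) * (X - C z0) ^ (g - K))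
    {α : AlgebraicClosure ℚ_[p]} (hα : ((lift ((p ^ a : ℕ) : ℤ) g h).map
      (Int.castRingHom (AlgebraicClosure ℚ_[p]))).IsRoot α) (hnv : nv p α = pw p a') :
    2 ∣ (minpoly ℚ_[p] α).natDegree := by
  have hp2 := hp.out.two_le
  have hq : p ^ a ≠ 0 := pow_ne_zero _ hp.out.ne_zero
  have hp0 : (p : AlgebraicClosure ℚ_[p]) ≠ 0 := by exact_mod_cast hp.out.ne_zero
  have hpa : (p : AlgebraicClosure ℚ_[p]) ^ a' ≠ 0 := pow_ne_zero _ hp0
  set γ := α / (p : AlgebraicClosure ℚ_[p]) ^ a' with hγ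
  have hdeg : (minpoly ℚ_[p] α).natDegree = (minpoly ℚ_[p] γ).natDegree :=
    natDegree_div' p hpa ⟨(p : ℚ_[p]) ^ a', by simp⟩
  have hnγ : nv p γ = 1 := by
    rw [hγ, map_div₀, hnv, nv_ppow, div_self (pw_pos hp2 _).ne']
  rw [hdeg]
  refine even_degree p hnγ.le _ hQ (by compute_degree!) ?_
  intro x hx
  have hnx : nv p (x : AlgebraicClosure ℚ_[p]) = 1 := by rw [nv_conj p hx, hnγ]
  -- `p ^ a' * x` is a root
  set αx : AlgebraicClosure ℚ_[p] := (x : AlgebraicClosure ℚ_[p]) * (p : AlgebraicClosure ℚ_[p]) ^ a'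
    with hαx
  have hrx : ((lift ((p ^ a : ℕ) : ℤ) g h).map
      (Int.castRingHom (AlgebraicClosure ℚ_[p]))).IsRoot αx := by
    set PQ := (lift ((p ^ a : ℕ) : ℤ) g h).map (Int.castRingHom ℚ_[p]) with hPQ
    have hPC : (lift ((p ^ a : ℕ) : ℤ) g h).map (Int.castRingHom (AlgebraicClosure ℚ_[p]))
        = PQ.map (algebraMap ℚ_[p] (AlgebraicClosure ℚ_[p])) := by
      rw [hPQ, Polynomial.map_map]; congr 1
    have h1 : aeval γ (PQ.comp (X * C ((p : ℚ_[p]) ^ a'))) = 0 := by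
      rw [aeval_comp]
      have h2 : aeval γ (X * C ((p : ℚ_[p]) ^ a')) = α := by
        simp only [map_mul, aeval_X, aeval_C, map_pow, map_natCast]
        rw [hγ, div_mul_cancel₀ _ hpa]
      rw [h2, ← eval_map_algebraMap, ← hPC]; exact hα
    have h2 := minpoly.dvd ℚ_[p] γ h1
    obtain ⟨R, hR⟩ := h2
    have h3 : aeval (x : AlgebraicClosure ℚ_[p]) (PQ.comp (X * C ((p : ℚ_[p]) ^ a'))) = 0 := by
      rw [hR, map_mul, hx, zero_mul]
    rw [aeval_comp] at h3
    have h4 : aeval (x : AlgebraicClosure ℚ_[p]) (X * C ((p : ℚ_[p]) ^ a')) = αx := by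
      simp only [map_mul, aeval_X, aeval_C, map_pow, map_natCast]
      rw [hαx]
    rw [h4, ← eval_map_algebraMap, ← hPC] at h3
    exact h3
  obtain ⟨hx0, -, hyx⟩ := root_symm hm hd hq hrx
  have hx0' : (x : AlgebraicClosure ℚ_[p]) ≠ 0 := by
    intro h0; rw [h0, map_zero] at hnx; exact zero_ne_one hnx
  obtain ⟨xi, hxi⟩ : ∃ xi : OO p, (xi : AlgebraicClosure ℚ_[p]) = (x : AlgebraicClosure ℚ_[p])⁻¹ :=
    ⟨⟨_, (mem_OO p).2 (by rw [map_inv₀, hnx, inv_one])⟩, rfl⟩
  have hxxi : x * xi = 1 := by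
    apply Subtype.ext
    push_cast
    rw [hxi, mul_inv_cancel₀ hx0']
  have hsum : ((x + xi : OO p) : AlgebraicClosure ℚ_[p]) =
      (αx + ((p ^ a : ℕ) : AlgebraicClosure ℚ_[p]) / αx) / (p : AlgebraicClosure ℚ_[p]) ^ a' := by
    push_cast
    rw [hxi, hαx, haa, pow_mul', sq]
    field_simp
  have hny : nv p (αx + ((p ^ a : ℕ) : AlgebraicClosure ℚ_[p]) / αx) ≤ pw p a' := by
    have h1 : αx + ((p ^ a : ℕ) : AlgebraicClosure ℚ_[p]) / αx
        = ((x + xi : OO p) : AlgebraicClosure ℚ_[p]) * (p : AlgebraicClosure ℚ_[p]) ^ a' := by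
      rw [hsum, div_mul_cancel₀ _ hpa]
    rw [h1, map_mul, nv_ppow]
    calc _ ≤ 1 * pw p a' := mul_le_mul_of_nonneg_right (x + xi).2 (pw_pos hp2 _).le
      _ = _ := one_mul _
  have hev := eval_half p ha haa hd b hb hK hK1 hK2 hint hyx hny (x + xi) hsum
  have hev2 := congrArg (fun F : (ZMod p)[X] => (F.map (jj p)).eval (red p (x + xi))) hid
  simp only [Polynomial.map_sum, Polynomial.map_mul, map_C, Polynomial.map_pow, map_X,
    eval_finsetSum, eval_mul, eval_C, eval_pow, eval_X, Polynomial.map_sub, eval_sub] at hev2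
  rw [hev] at hev2
  have hz : red p (x + xi) - jj p z0 = 0 := by
    have h1 : jj p (b K : ZMod p) ≠ 0 := by
      rw [Ne, map_eq_zero]; exact hcK
    exact eq_zero_of_pow_eq_zero ((mul_eq_zero.1 hev2.symm).resolve_left h1)
  have h1 : red p x * red p xi = 1 := by rw [← map_mul, hxxi, map_one]
  simp only [Polynomial.map_add, Polynomial.map_sub, Polynomial.map_mul, Polynomial.map_pow,
    map_X, map_C, Polynomial.map_one, eval_add, eval_sub, eval_mul, eval_pow, eval_X, eval_C,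
    eval_one]
  have h2 : jj p z0 = red p x + red p xi := by
    rw [← map_add]; exact (sub_eq_zero.1 hz).symm
  rw [h2]
  linear_combination -h1

end half

end Pool.Agent.W518.DN
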