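import Pool.Agent.W518.DN.Half

/-!
# Local conditions for Weil polynomials with a given Newton polygon
-/

open Polynomial

namespace Pool.Agent.W518.DN

/-- The slopes `s 0 ≤ s 1 ≤ ... ≤ s (g - 1) ≤ 1 / 2` and `1 - s i` are the slopes of a symmetric
Newton polygon with integral break points: for every `x < 1 / 2`, the multiplicity of the slope `x`
times `x` is an integer. -/
structure IsNewton {g : ℕ} (s : Fin g → ℚ) : Prop where
  mono : Monotone s
  nonneg : ∀ i, 0 ≤ s i
  le_half : ∀ i, s i ≤ 1 / 2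
  integral : ∀ x : ℚ, x < 1 / 2 →
    ∃ n : ℤ, ((Finset.univ.filter fun i => s i = x).card : ℚ) * x = n

section newton

variable {g : ℕ} {s : Fin g → ℚ} (hs : IsNewton s)
include hs

lemma extS_nonneg (k : ℕ) : 0 ≤ extS s k := by
  unfold extS
  split_ifs with h
  · exact hs.nonneg _
  · norm_num

lemma extS_monotone : Monotone (extS s) := extS_mono hs.mono hs.le_half

omit hs in
lemma card_level {k : ℕ} (hk : k ≤ g) {x : ℚ} (h : ∀ j, k ≤ j → extS s j ≠ x) :
    ((Finset.range k).filter fun j => extS s j = x).card =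
      (Finset.univ.filter fun i => s i = x).card := by
  symm
  refine Finset.card_bij (fun i _ => (i : ℕ)) ?_ ?_ ?_
  · intro i hi
    rw [Finset.mem_filter] at hi ⊢
    have h1 : extS s i = x := by rw [extS, dif_pos i.2]; exact hi.2
    refine ⟨?_, h1⟩
    rw [Finset.mem_range]
    by_contra h2
    exact h i (not_lt.1 h2) h1
  · intro i _ j _ h1; exact Fin.ext h1
  · intro j hj
    rw [Finset.mem_filter, Finset.mem_range] at hj
    refine ⟨⟨j, by omega⟩, ?_, rfl⟩
    rw [Finset.mem_filter]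
    refine ⟨Finset.mem_univ _, ?_⟩
    have := hj.2
    rw [extS, dif_pos (show j < g by omega)] at this
    exact this

lemma ssum_int {k : ℕ} (hk : k ≤ g) (hv : k = 0 ∨ extS s (k - 1) < extS s k) :
    ∃ n : ℕ, Ssum (extS s) k = n := by
  classical
  have hint : ∃ n : ℤ, Ssum (extS s) k = n := by
    rcases Nat.eq_zero_or_pos k with h0 | h0
    · subst h0; exact ⟨0, by simp [Ssum]⟩
    have hv' := hv.resolve_left h0.ne'
    have h1 : Ssum (extS s) k = ∑ b ∈ (Finset.range k).image (extS s),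
        ((Finset.range k).filter fun j => extS s j = b).card • b := by
      rw [Ssum]; exact Finset.sum_comp (fun x => x) (extS s)
    have h2 : ∀ b ∈ (Finset.range k).image (extS s), ∃ n : ℤ,
        ((((Finset.range k).filter fun j => extS s j = b).card • b : ℚ)) = n := by
      intro b hb
      obtain ⟨j, hj, rfl⟩ := Finset.mem_image.1 hb
      rw [Finset.mem_range] at hj
      have h3 : extS s j < extS s k :=
        (extS_monotone hs (by omega : j ≤ k - 1)).trans_lt hv'
      have h4 : extS s j < 1 / 2 := h3.trans_le (extS_le hs.le_half k)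
      obtain ⟨n, hn⟩ := hs.integral _ h4
      refine ⟨n, ?_⟩
      rw [card_level hk fun i hi => (h3.trans_le (extS_monotone hs hi)).ne', nsmul_eq_mul]
      exact hn
    choose! n hn using h2
    refine ⟨∑ b ∈ (Finset.range k).image (extS s), n b, ?_⟩
    rw [h1, Finset.sum_congr rfl hn]
    push_cast; rfl
  obtain ⟨n, hn⟩ := hint
  have h0 : 0 ≤ Ssum (extS s) k := Finset.sum_nonneg fun j _ => extS_nonneg hs j
  rw [hn] at h0
  have h0' : 0 ≤ n := by exact_mod_cast h0
  refine ⟨n.toNat, ?_⟩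
  rw [hn]
  have : ((n.toNat : ℤ) : ℚ) = n := by rw [Int.toNat_of_nonneg h0']
  exact_mod_cast this.symm

omit hs in
lemma extS_g : extS s g = 1 / 2 := by simp [extS]

lemma exists_seg (i : Fin g) (hi : s i < 1 / 2) :
    ∃ K0 K1, Seg (extS s) g K0 K1 ∧ extS s K0 = s i ∧
      (Finset.univ.filter fun j => s j = s i).card = K1 - K0 := by
  classical
  have hei : extS s i = s i := by rw [extS, dif_pos i.2]
  have hmono := extS_monotone hs
  have hex0 : ∃ k, s i ≤ extS s k := ⟨i, hei.ge⟩
  have hex1 : ∃ k, s i < extS s k := ⟨g, by rw [extS_g]; exact hi⟩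
  let K0 := Nat.find hex0
  let K1 := Nat.find hex1
  have h0 : s i ≤ extS s K0 := Nat.find_spec hex0
  have h1 : s i < extS s K1 := Nat.find_spec hex1
  have h0' : ∀ j < K0, extS s j < s i := fun j hj => not_le.1 (Nat.find_min hex0 hj)
  have h1' : ∀ j < K1, extS s j ≤ s i := fun j hj => not_lt.1 (Nat.find_min hex1 hj)
  have hK0i : K0 ≤ i := by
    by_contra h2
    exact absurd hei (h0' i (not_le.1 h2)).ne
  have hiK1 : (i : ℕ) < K1 := by
    by_contra h2
    have := h1.trans_le (hmono (not_lt.1 h2))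
    rw [hei] at this; exact lt_irrefl _ this
  have hlt : K0 < K1 := hK0i.trans_lt hiK1
  have hK0 : extS s K0 = s i := le_antisymm (h1' K0 hlt) h0
  have hK1g : K1 ≤ g := Nat.find_min' hex1 (by rw [extS_g]; exact hi)
  refine ⟨K0, K1, ⟨hlt, hK1g, ?_, ?_, ?_⟩, hK0, ?_⟩
  · intro j hj; rw [hK0]; exact h0' j hj
  · intro j hj hj'
    rw [hK0]
    exact le_antisymm (h1' j hj') (h0.trans (hmono hj))
  · intro j hj; rw [hK0]; exact h1.trans_le (hmono hj)
  · rw [← card_level (k := K1) hK1g fun j hj => (h1.trans_le (hmono hj)).ne']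
    have : ((Finset.range K1).filter fun j => extS s j = s i) = Finset.Ico K0 K1 := by
      ext j
      rw [Finset.mem_filter, Finset.mem_range, Finset.mem_Ico]
      constructor
      · rintro ⟨h2, h3⟩
        refine ⟨?_, h2⟩
        by_contra h4
        exact absurd h3 (h0' j (not_le.1 h4)).ne
      · rintro ⟨h2, h3⟩
        exact ⟨h3, le_antisymm (h1' j h3) (h0.trans (hmono h2))⟩
    rw [this]; simp

end newton

variable (p : ℕ) [hp : Fact p.Prime]

/-- conditions modulo `p` on the coefficients -/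
structure ResCond (a g : ℕ) (μ : ℕ → ℚ) (c : ℕ → ZMod p) : Prop where
  zero : c 0 ≠ 0
  vtx : ∀ k, 1 ≤ k → k ≤ g → μ (k - 1) < μ k → c k ≠ 0
  irr : ∀ K0 K1, Seg μ g K0 K1 → Irreducible (segPoly p c ((a : ℚ) * μ K0).den K0 K1) ∧
    (segPoly p c ((a : ℚ) * μ K0).den K0 K1).natDegree = (K1 - K0) / ((a : ℚ) * μ K0).den
  half : 2 ∣ a → ∀ K, K < g → (∀ j < K, μ j < 1 / 2) → (∀ j, K ≤ j → μ j = 1 / 2) →
    ∃ z0 : ZMod p, Irreducible (X ^ 2 - C z0 * X + 1 : (ZMod p)[X]) ∧
      ∑ i ∈ Finset.range (g - K + 1), C (c (K + i)) * X ^ (g - K - i) =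
        C (c K) * (X - C z0) ^ (g - K)

section main

variable {a g : ℕ} (ha : 0 < a) {s : Fin g → ℚ} (hs : IsNewton s)
  {h : ℤ[X]} (hm : h.Monic) (hd : h.natDegree = g) (b : ℕ → ℤ)
  (hb : ∀ k ≤ g, h.coeff (g - k) = (p : ℤ) ^ sk a (extS s) k * b k)
  (hres : ResCond p a g (extS s) (fun k => (b k : ZMod p)))
include ha hs hm hd hb hres

theorem hasSlopes_of_res : HasSlopes p a s (lift ((p : ℤ) ^ a) g h) := by
  have hp2 := hp.out.two_le
  have ha' : (0 : ℚ) < a := by exact_mod_cast ha
  rw [slopes_aux p hm hd hs.le_half]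
  intro r hr
  have hcoef : ∀ k ≤ g, nv p ((h.map (Int.castRingHom (AlgebraicClosure ℚ_[p]))).coeff (g - k))
      = pw p (sk a (extS s) k) * nv p ((b k : ℤ) : AlgebraicClosure ℚ_[p]) := by
    intro k hk
    rw [coeff_map, hb k hk]
    simp only [eq_intCast]
    push_cast
    rw [map_mul, nv_ppow]
  refine gauss_of_coeff hp2 ha (extS_monotone hs) (hm.map _) (by rw [hm.natDegree_map, hd]) ?_ ?_
    extS_g hr
  · intro k hk
    rw [hcoef k hk]
    calc _ ≤ pw p (sk a (extS s) k) * 1 :=
          mul_le_mul_of_nonneg_left (nv_int_le p _) (pw_pos hp2 _).le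
      _ ≤ _ := by rw [mul_one, pw_le_iff hp2]; exact Nat.le_ceil _
  · intro k hk1 hk hv
    obtain ⟨n, hn⟩ := ssum_int hs hk (Or.inr hv)
    have hsk : sk a (extS s) k = a * n := by
      rw [sk, hn]
      have : (a : ℚ) * (n : ℚ) = ((a * n : ℕ) : ℚ) := by push_cast; rfl
      rw [this, Nat.ceil_natCast]
    have hbk : nv p ((b k : ℤ) : AlgebraicClosure ℚ_[p]) = 1 := by
      refine le_antisymm (nv_int_le p _) ?_
      by_contra hlt
      rw [not_le] at hlt
      have h1 := nv_algebraMap p ((b k : ℤ) : ℚ_[p])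
      rw [map_intCast] at h1
      rw [h1, Padic.norm_intCast_lt_one_iff] at hlt
      exact hres.vtx k hk1 hk hv ((ZMod.intCast_zmod_eq_zero_iff_dvd _ _).2 hlt)
    rw [hcoef k hk, hbk, mul_one, hsk, hn]
    congr 1; push_cast; rfl

/-- The slope of a root times its degree is an integer. -/
theorem slope_int {α : AlgebraicClosure ℚ_[p]} (hα : ((lift ((p ^ a : ℕ) : ℤ) g h).map
      (Int.castRingHom (AlgebraicClosure ℚ_[p]))).IsRoot α) :
    ∃ x : ℚ, nv p α = pw p (a * x) ∧ ∃ n : ℤ, ((minpoly ℚ_[p] α).natDegree : ℚ) * x = n := by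
  classical
  have hp2 := hp.out.two_le
  have ha' : (0 : ℚ) < a := by exact_mod_cast ha
  have hq : p ^ a ≠ 0 := pow_ne_zero _ hp.out.ne_zero
  have hsl := hasSlopes_of_res p ha hs hm hd b hb hres
  have hqZ : (p : ℤ) ^ a = ((p ^ a : ℕ) : ℤ) := by push_cast; rfl
  rw [hqZ] at hsl
  have hPm : (lift ((p ^ a : ℕ) : ℤ) g h).Monic := (lift_monic _ _ _ hm hd).1
  have hPm' := hPm.map (Int.castRingHom (AlgebraicClosure ℚ_[p]))
  obtain ⟨hα0, hα', -⟩ := root_symm hm hd hq hα
  set q : AlgebraicClosure ℚ_[p] := ((p ^ a : ℕ) : AlgebraicClosure ℚ_[p]) with hqd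
  have hq0 : q ≠ 0 := by rw [hqd]; exact_mod_cast hq
  have hvq : nv p q = pw p a := by rw [hqd, Nat.cast_pow, nv_ppow]
  have hμ0 := extS_nonneg hs
  have hhalf := extS_le hs.le_half
  -- slopes smaller than `1 / 2`
  have hsmall : ∀ β : AlgebraicClosure ℚ_[p], ((lift ((p ^ a : ℕ) : ℤ) g h).map
      (Int.castRingHom (AlgebraicClosure ℚ_[p]))).IsRoot β → ∀ i, s i < 1 / 2 →
      nv p β = pw p (a * s i) → ∃ n : ℤ, ((minpoly ℚ_[p] β).natDegree : ℚ) * s i = n := by
    intro β hβ i hi hnv
    obtain ⟨K0, K1, hS, hK0, hcard⟩ := exists_seg hs i hi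
    have hv0 : K0 = 0 ∨ extS s (K0 - 1) < extS s K0 := by
      rcases Nat.eq_zero_or_pos K0 with h0 | h0
      · exact Or.inl h0
      · exact Or.inr (hS.left _ (by omega))
    have hv1 : extS s (K1 - 1) < extS s K1 := by
      have h1 : extS s (K1 - 1) = extS s K0 :=
        hS.const (K1 - 1) (by have := hS.lt; omega) (by have := hS.lt; omega)
      rw [h1]; exact hS.right K1 le_rfl
    obtain ⟨n0, hn0⟩ := ssum_int hs (hS.lt.le.trans hS.le) hv0
    obtain ⟨n1, hn1⟩ := ssum_int hs hS.le (Or.inr hv1)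
    obtain ⟨hirr, hdeg⟩ := hres.irr K0 K1 hS
    have hge := degree_ge p ha hμ0 hhalf hm hd b hb hS
      ⟨a * n0, by rw [hn0]; push_cast; rfl⟩ ⟨a * n1, by rw [hn1]; push_cast; rfl⟩ hirr hdeg hβ
      (by rw [hK0]; exact hnv)
    -- upper bound
    have hle : (minpoly ℚ_[p] β).natDegree ≤ K1 - K0 := by
      have hβi : IsIntegral ℚ_[p] β := Algebra.IsIntegral.isIntegral β
      have hHm : (minpoly ℚ_[p] β).Monic := minpoly.monic hβi
      set PQ := (lift ((p ^ a : ℕ) : ℤ) g h).map (Int.castRingHom ℚ_[p]) with hPQ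
      have hPC : (lift ((p ^ a : ℕ) : ℤ) g h).map (Int.castRingHom (AlgebraicClosure ℚ_[p]))
          = PQ.map (algebraMap ℚ_[p] (AlgebraicClosure ℚ_[p])) := by
        rw [hPQ, Polynomial.map_map]; congr 1
      have hdvd : minpoly ℚ_[p] β ∣ PQ := by
        apply minpoly.dvd
        rw [← eval_map_algebraMap, ← hPC]; exact hβ
      have hdvd' : (minpoly ℚ_[p] β).map (algebraMap ℚ_[p] (AlgebraicClosure ℚ_[p])) ∣
          (lift ((p ^ a : ℕ) : ℤ) g h).map (Int.castRingHom (AlgebraicClosure ℚ_[p])) := by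
        rw [hPC]; exact Polynomial.map_dvd _ hdvd
      have hroots := roots.le_of_dvd hPm'.ne_zero hdvd'
      have hcardr : Multiset.card ((minpoly ℚ_[p] β).map
          (algebraMap ℚ_[p] (AlgebraicClosure ℚ_[p]))).roots = (minpoly ℚ_[p] β).natDegree := by
        rw [← (IsAlgClosed.splits ((minpoly ℚ_[p] β).map
          (algebraMap ℚ_[p] (AlgebraicClosure ℚ_[p])))).natDegree_eq_card_roots,
          hHm.natDegree_map]
      have hrep : Multiset.replicate (minpoly ℚ_[p] β).natDegree (nv p β) ≤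
          ((lift ((p ^ a : ℕ) : ℤ) g h).map
            (Int.castRingHom (AlgebraicClosure ℚ_[p]))).roots.map (nv p) := by
        refine le_trans (le_of_eq ?_) (Multiset.map_le_map hroots)
        symm
        rw [Multiset.eq_replicate]
        refine ⟨by rw [Multiset.card_map, hcardr], ?_⟩
        intro z hz
        obtain ⟨w, hw, rfl⟩ := Multiset.mem_map.1 hz
        apply nv_conj
        have := (mem_roots (hHm.map _).ne_zero).1 hw
        rwa [IsRoot.def, eval_map_algebraMap] at this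
      have h1 := Multiset.le_count_iff_replicate_le.2 hrep
      have h2 : ((lift ((p ^ a : ℕ) : ℤ) g h).map
            (Int.castRingHom (AlgebraicClosure ℚ_[p]))).roots.map (nv p) =
          Finset.univ.val.map (fun i => pw p (a * s i)) +
            Finset.univ.val.map (fun i => pw p (a * (1 - s i))) := hsl
      rw [h2, Multiset.count_add, hnv] at h1
      have h3 : (Finset.univ.val.map (fun j => pw p (a * (1 - s j)))).count (pw p (a * s i)) = 0 := by
        rw [Multiset.count_eq_zero]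
        intro h4
        obtain ⟨j, _, hj⟩ := Multiset.mem_map.1 h4
        have h5 := pw_inj hp2 hj
        have h6 := mul_left_cancel₀ ha'.ne' h5
        have := hs.le_half j
        linarith
      have h4 : (Finset.univ.val.map (fun j => pw p (a * s j))).count (pw p (a * s i))
          = K1 - K0 := by
        rw [← hcard, Multiset.count_map]
        change (Multiset.card (Finset.univ.filter fun j => pw p (a * s i) = pw p (a * s j)).val) = _
        rw [Finset.card_val]
        congr 1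
        ext j
        simp only [Finset.mem_filter, Finset.mem_univ, true_and]
        constructor
        · intro h5
          exact (mul_left_cancel₀ ha'.ne' (pw_inj hp2 h5)).symm
        · intro h5; rw [h5]
      rw [h3, h4] at h1
      omega
    have hmeq : (minpoly ℚ_[p] β).natDegree = K1 - K0 := le_antisymm hle hge
    refine ⟨(n1 : ℤ) - n0, ?_⟩
    have h2 := Ssum_seg hS hS.lt.le le_rfl
    rw [hmeq, ← hK0, ← h2, hn0, hn1]
    push_cast; rfl
  -- location of the slope
  have hmem : nv p α ∈ Finset.univ.val.map (fun i => pw p (a * s i)) +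
      Finset.univ.val.map (fun i => pw p (a * (1 - s i))) := by
    have h2 : ((lift ((p ^ a : ℕ) : ℤ) g h).map
            (Int.castRingHom (AlgebraicClosure ℚ_[p]))).roots.map (nv p) =
          Finset.univ.val.map (fun i => pw p (a * s i)) +
            Finset.univ.val.map (fun i => pw p (a * (1 - s i))) := hsl
    rw [← h2]
    exact Multiset.mem_map_of_mem _ ((mem_roots hPm'.ne_zero).2 hα)
  -- slope `1 / 2`
  have hhalfcase : nv p α = pw p (a * (1 / 2)) → (∃ i, s i = 1 / 2) →
      ∃ n : ℤ, ((minpoly ℚ_[p] α).natDegree : ℚ) * (1 / 2) = n := by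
    rintro hnv ⟨i, hi⟩
    have h2m : 2 ∣ (minpoly ℚ_[p] α).natDegree := by
      by_cases hpar : 2 ∣ a
      · obtain ⟨a', haa⟩ := hpar
        -- the first index with slope `1 / 2`
        have hex : ∃ k, extS s k = 1 / 2 := ⟨g, extS_g⟩
        let K := Nat.find hex
        have hK : extS s K = 1 / 2 := Nat.find_spec hex
        have hKi : K ≤ i := Nat.find_min' hex (by rw [extS, dif_pos i.2]; exact hi)
        have hKg : K < g := hKi.trans_lt i.2
        have hK1 : ∀ j < K, extS s j < 1 / 2 := fun j hj =>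
          lt_of_le_of_ne (hhalf j) (Nat.find_min hex hj)
        have hK2 : ∀ j, K ≤ j → extS s j = 1 / 2 := fun j hj =>
          le_antisymm (hhalf j) (hK ▸ extS_monotone hs hj)
        have hv : K = 0 ∨ extS s (K - 1) < extS s K := by
          rcases Nat.eq_zero_or_pos K with h0 | h0
          · exact Or.inl h0
          · right; rw [hK]; exact hK1 _ (by omega)
        obtain ⟨n0, hn0⟩ := ssum_int hs hKg.le hv
        obtain ⟨z0, hQ, hid⟩ := hres.half ⟨a', haa⟩ K hKg hK1 hK2
        have hcK : (b K : ZMod p) ≠ 0 := by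
          rcases hv with h0 | h0
          · rw [h0]; exact hres.zero
          · rcases Nat.eq_zero_or_pos K with h1 | h1
            · rw [h1]; exact hres.zero
            · exact hres.vtx K h1 hKg.le h0
        refine even_of_half p ha haa hd b hb hKg hK1 hK2
          ⟨a * n0, by rw [hn0]; push_cast; rfl⟩ hm hcK z0 hQ hid hα ?_
        rw [hnv, haa]; congr 1; push_cast; ring
      · have h1 := val_minpoly p hα0 hnv
        set m := (minpoly ℚ_[p] α).natDegree
        set vv := ((minpoly ℚ_[p] α).coeff 0).valuation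
        have h2 : ((m * a : ℕ) : ℤ) = 2 * vv := by
          have : (((m * a : ℕ) : ℤ) : ℚ) = ((2 * vv : ℤ) : ℚ) := by
            push_cast; rw [← h1]; ring
          exact_mod_cast this
        have h3 : 2 ∣ m * a := by omega
        exact (Nat.prime_two.dvd_mul.1 h3).resolve_right hpar
    obtain ⟨c, hc⟩ := h2m
    refine ⟨c, ?_⟩
    rw [hc]; push_cast; ring
  rw [Multiset.mem_add] at hmem
  rcases hmem with hmem | hmem
  · obtain ⟨i, _, hi⟩ := Multiset.mem_map.1 hmem
    rcases (hs.le_half i).lt_or_eq with h1 | h1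
    · exact ⟨s i, hi.symm, hsmall α hα i h1 hi.symm⟩
    · refine ⟨1 / 2, by rw [← hi, h1], hhalfcase (by rw [← hi, h1]) ⟨i, h1⟩⟩
  · obtain ⟨i, _, hi⟩ := Multiset.mem_map.1 hmem
    rcases (hs.le_half i).lt_or_eq with h1 | h1
    · refine ⟨1 - s i, hi.symm, ?_⟩
      have h2 : nv p (q / α) = pw p (a * s i) := by
        rw [map_div₀, hvq, ← hi, div_eq_iff (pw_pos hp2 _).ne', ← pw_add hp2]; congr 1; ring
      obtain ⟨n, hn⟩ := hsmall _ hα' i h1 h2
      have h3 := natDegree_div p hα0 hq0 ⟨((p ^ a : ℕ) : ℚ_[p]), by rw [hqd]; simp⟩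
      refine ⟨(minpoly ℚ_[p] α).natDegree - n, ?_⟩
      push_cast
      rw [← hn, ← h3]; ring
    · refine ⟨1 / 2, by rw [← hi, h1]; congr 1; ring, hhalfcase ?_ ⟨i, h1⟩⟩
      rw [← hi, h1]; congr 1; ring

/-- The condition at `p` of Honda and Tate. -/
theorem places_of_res (H : ℚ_[p][X]) (hH : H.Monic) (hHi : Irreducible H)
    (hdvd : H ∣ (lift ((p : ℤ) ^ a) g h).map (Int.castRingHom ℚ_[p])) :
    (a : ℤ) ∣ (H.coeff 0).valuation := by
  have hq : p ^ a ≠ 0 := pow_ne_zero _ hp.out.ne_zero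
  have hqZ : (p : ℤ) ^ a = ((p ^ a : ℕ) : ℤ) := by push_cast; rfl
  rw [hqZ] at hdvd
  obtain ⟨α, hα⟩ := IsAlgClosed.exists_aeval_eq_zero (AlgebraicClosure ℚ_[p]) H
    (degree_pos_of_irreducible hHi).ne'
  have hmin : H = minpoly ℚ_[p] α := minpoly.eq_of_irreducible_of_monic hHi hα hH
  have hPα : ((lift ((p ^ a : ℕ) : ℤ) g h).map
      (Int.castRingHom (AlgebraicClosure ℚ_[p]))).IsRoot α := by
    obtain ⟨G, hG⟩ := hdvd
    have h1 : (lift ((p ^ a : ℕ) : ℤ) g h).map (Int.castRingHom (AlgebraicClosure ℚ_[p]))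
        = ((lift ((p ^ a : ℕ) : ℤ) g h).map (Int.castRingHom ℚ_[p])).map
          (algebraMap ℚ_[p] (AlgebraicClosure ℚ_[p])) := by
      rw [Polynomial.map_map]; congr 1
    rw [h1, hG, Polynomial.map_mul, IsRoot.def, eval_mul, eval_map_algebraMap, hα, zero_mul]
  obtain ⟨hα0, -, -⟩ := root_symm hm hd hq hPα
  obtain ⟨x, hx, n, hn⟩ := slope_int p ha hs hm hd b hb hres hPα
  have h1 := val_minpoly p hα0 hx
  rw [← hmin] at h1 hn
  refine ⟨n, ?_⟩
  have : ((H.coeff 0).valuation : ℚ) = ((a * n : ℤ) : ℚ) := by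
    push_cast; rw [← h1, ← hn]; ring
  exact_mod_cast this

end main

end Pool.Agent.W518.DN
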