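import Pool.Agent.W518.DN.Recip

/-!
# Gauss norms and Newton polygons
-/

open Polynomial

namespace Pool.Agent.W518.DN

section liftprod

variable {A : Type*} [CommRing A]

lemma lift_X_sub_mul (q y : A) (g : ℕ) (h : A[X]) (hh : h.natDegree ≤ g) :
    lift q (g + 1) ((X - C y) * h) = (X ^ 2 - C y * X + C q) * lift q g h := by
  have h1 : lift q (g + 1) (X * h) = (X ^ 2 + C q) * lift q g h := by
    rw [lift, Finset.sum_range_succ', lift, Finset.mul_sum]
    have h0 : (X * h).coeff 0 = 0 := by simp
    rw [h0, C_0, zero_mul, zero_mul, add_zero]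
    refine Finset.sum_congr rfl fun k hk => ?_
    rw [coeff_X_mul, show g + 1 - (k + 1) = g - k by omega, pow_succ]
    ring
  have h2 : lift q (g + 1) (C y * h) = C y * (X * lift q g h) := by
    rw [← lift_succ q g h hh]
    simp only [lift, coeff_C_mul, C_mul, Finset.mul_sum]
    refine Finset.sum_congr rfl fun k _ => by ring
  have h3 : (X - C y) * h = X * h + C (-1) * (C y * h) := by
    simp only [C_neg, C_1]; ring
  have h4 : lift q (g + 1) (C (-1 : A) * (C y * h)) = - lift q (g + 1) (C y * h) := by
    simp only [lift, coeff_C_mul]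
    simp only [C_mul, C_neg, C_1]
    rw [← Finset.sum_neg_distrib]
    refine Finset.sum_congr rfl fun k _ => by ring
  rw [h3, lift_add, h1, h4, h2]
  ring

lemma lift_prod [Nontrivial A] (q : A) (s : Multiset A) :
    lift q (Multiset.card s) (s.map fun y => X - C y).prod =
      (s.map fun y => X ^ 2 - C y * X + C q).prod := by
  induction s using Multiset.induction_on with
  | empty => simp [lift]
  | cons y s ih =>
    rw [Multiset.card_cons, Multiset.map_cons, Multiset.prod_cons, Multiset.map_cons,
      Multiset.prod_cons, lift_X_sub_mul, ih]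
    rw [natDegree_multiset_prod_X_sub_C_eq_card]

end liftprod

section gauss

variable {K : Type*} [Field K] {v : AbsoluteValue K ℝ}

lemma gn_eq {f : K[X]} {r M : ℝ} (hr : 0 ≤ r) (hle : ∀ i, v (f.coeff i) * r ^ i ≤ M) (i0 : ℕ)
    (h0 : v (f.coeff i0) * r ^ i0 = M) : f.gaussNorm v r = M := by
  refine le_antisymm ?_ ?_
  · obtain ⟨i, hi⟩ := exists_eq_gaussNorm v r f
    rw [hi]; exact hle i
  · rw [← h0]; exact le_gaussNorm v f hr i0

lemma gn_X_sub_C {r : ℝ} (hr : 0 < r) (y : K) : (X - C y : K[X]).gaussNorm v r = max r (v y) := by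
  have hle : ∀ i, v ((X - C y : K[X]).coeff i) * r ^ i ≤ max r (v y) := by
    intro i
    rcases i with _ | _ | i
    · simp
    · simp [coeff_X]
    · have : (X - C y : K[X]).coeff (i + 1 + 1) = 0 := by
        rw [coeff_sub, coeff_X, coeff_C]; simp
      rw [this, map_zero, zero_mul]
      exact hr.le.trans (le_max_left _ _)
  rcases le_total r (v y) with h | h
  · exact gn_eq hr.le hle 0 (by simp [max_eq_right h])
  · exact gn_eq hr.le hle 1 (by simp [max_eq_left h, coeff_X])

lemma gn_quad {r : ℝ} (hr : 0 < r) (y q : K) (hq : v q ≤ r ^ 2) :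
    (X ^ 2 - C y * X + C q : K[X]).gaussNorm v r = r * max r (v y) := by
  have hmax : 0 ≤ max r (v y) := hr.le.trans (le_max_left _ _)
  have h0 : (X ^ 2 - C y * X + C q : K[X]).coeff 0 = q := by simp
  have h1 : (X ^ 2 - C y * X + C q : K[X]).coeff 1 = -y := by
    simp [coeff_C]
  have h2 : (X ^ 2 - C y * X + C q : K[X]).coeff 2 = 1 := by
    simp [coeff_X]
  have hle : ∀ i, v ((X ^ 2 - C y * X + C q : K[X]).coeff i) * r ^ i ≤ r * max r (v y) := by
    intro i
    rcases i with _ | _ | _ | i
    · rw [h0, pow_zero, mul_one]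
      refine hq.trans ?_
      rw [sq]
      exact mul_le_mul_of_nonneg_left (le_max_left _ _) hr.le
    · rw [h1, pow_one, map_neg_eq_map, mul_comm]
      exact mul_le_mul_of_nonneg_left (le_max_right _ _) hr.le
    · rw [h2, map_one, one_mul, sq]
      exact mul_le_mul_of_nonneg_left (le_max_left _ _) hr.le
    · have : (X ^ 2 - C y * X + C q : K[X]).coeff (i + 1 + 1 + 1) = 0 := by
        apply coeff_eq_zero_of_natDegree_lt
        have : (X ^ 2 - C y * X + C q : K[X]).natDegree ≤ 2 := by compute_degree
        omega
      rw [this, map_zero, zero_mul]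
      positivity
  rcases le_total r (v y) with h | h
  · refine gn_eq hr.le hle 1 ?_
    rw [h1, map_neg_eq_map, pow_one, max_eq_right h, mul_comm]
  · refine gn_eq hr.le hle 2 ?_
    rw [h2, map_one, one_mul, max_eq_left h, sq]

lemma gn_prod (hna : IsNonarchimedean v) {r : ℝ} (hr : 0 < r) (s : Multiset K[X]) :
    s.prod.gaussNorm v r = (s.map fun f => f.gaussNorm v r).prod := by
  induction s using Multiset.induction_on with
  | empty =>
    simp only [Multiset.prod_zero, Multiset.map_zero]
    rw [← C_1, gaussNorm_C, map_one]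
  | cons f s ih =>
    rw [Multiset.prod_cons, gaussNorm_mul hna hr, ih, Multiset.map_cons, Multiset.prod_cons]

/-- Gauss norm of a product of linear factors. -/
lemma gn_linear (hna : IsNonarchimedean v) {r : ℝ} (hr : 0 < r) (s : Multiset K) :
    ((s.map fun y => X - C y).prod).gaussNorm v r = (s.map fun y => max r (v y)).prod := by
  rw [gn_prod hna hr, Multiset.map_map]
  congr 1
  exact Multiset.map_congr rfl fun y _ => gn_X_sub_C hr y

/-- Gauss norm of the lift. -/
lemma gn_lift (hna : IsNonarchimedean v) {r : ℝ} (hr : 0 < r) (q : K) (hq : v q ≤ r ^ 2)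
    (s : Multiset K) :
    (lift q (Multiset.card s) (s.map fun y => X - C y).prod).gaussNorm v r =
      r ^ (Multiset.card s) * ((s.map fun y => X - C y).prod).gaussNorm v r := by
  rw [gn_linear hna hr, lift_prod, gn_prod hna hr, Multiset.map_map]
  have h1 : (s.map ((fun f : K[X] => f.gaussNorm v r) ∘ fun y => X ^ 2 - C y * X + C q))
      = s.map fun y => r * max r (v y) :=
    Multiset.map_congr rfl fun y _ => gn_quad hr y q hq
  rw [h1, Multiset.prod_map_mul, Multiset.map_const', Multiset.prod_replicate]

end gauss

section multisets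

/-- a finite multiset of real numbers is determined by the products of `max r x` -/
theorem eq_of_prod_max (r0 : ℝ) (hr0 : 0 < r0) (n : ℕ) : ∀ M N : Multiset ℝ,
    Multiset.card M = n → Multiset.card N = n → (∀ x ∈ M, r0 ≤ x) → (∀ x ∈ N, r0 ≤ x) →
    (∀ r, r0 ≤ r → (M.map fun x => max r x).prod = (N.map fun x => max r x).prod) → M = N := by
  classical
  induction n with
  | zero =>
    intro M N hM hN _ _ _
    rw [Multiset.card_eq_zero.1 hM, Multiset.card_eq_zero.1 hN]
  | succ n ih =>
    intro M N hM hN hM0 hN0 h
    have key : ∀ M N : Multiset ℝ, Multiset.card M = n + 1 → Multiset.card N = n + 1 →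
        (∀ x ∈ M, r0 ≤ x) → (∀ x ∈ N, r0 ≤ x) →
        (∀ r, r0 ≤ r → (M.map fun x => max r x).prod = (N.map fun x => max r x).prod) →
        ∀ m ∈ M, ∀ m' ∈ N, (∀ x ∈ N, x ≤ m') → m ≤ m' := by
      intro M N hM hN hM0 hN0 h m hm m' hm' hmax
      by_contra hlt
      rw [not_le] at hlt
      have h1 := h m' (hN0 m' hm')
      have hm'0 : 0 < m' := hr0.trans_le (hN0 m' hm')
      have h2 : (N.map fun x => max m' x).prod = m' ^ (n + 1) := by
        have : (N.map fun x => max m' x) = Multiset.replicate (n + 1) m' := by
          rw [Multiset.eq_replicate]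
          refine ⟨by simp [hN], ?_⟩
          intro z hz
          obtain ⟨x, hx, rfl⟩ := Multiset.mem_map.1 hz
          exact max_eq_left (hmax x hx)
        rw [this, Multiset.prod_replicate]
      obtain ⟨M', rfl⟩ := Multiset.exists_cons_of_mem hm
      have hM' : Multiset.card M' = n := by simpa using hM
      rw [h2, Multiset.map_cons, Multiset.prod_cons, max_eq_right hlt.le] at h1
      have h3 : m' ^ n ≤ (M'.map fun x => max m' x).prod := by
        rw [← hM']
        clear h1 hM0 h hm hM hM'
        induction M' using Multiset.induction_on with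
        | empty => simp
        | cons a s ih' =>
          rw [Multiset.card_cons, pow_succ', Multiset.map_cons, Multiset.prod_cons]
          exact mul_le_mul (le_max_left _ _) ih' (by positivity)
            (hm'0.le.trans (le_max_left _ _))
      have h4 : 0 < m' ^ n := by positivity
      have h5 : m' ^ (n + 1) < m * (M'.map fun x => max m' x).prod := by
        calc m' ^ (n + 1) = m' * m' ^ n := pow_succ' _ _
          _ < m * m' ^ n := mul_lt_mul_of_pos_right hlt h4
          _ ≤ _ := mul_le_mul_of_nonneg_left h3 (hm'0.trans hlt).le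
      linarith
    have hMne : M.toFinset.Nonempty := by
      rw [Multiset.toFinset_nonempty]; rintro rfl; simp at hM
    have hNne : N.toFinset.Nonempty := by
      rw [Multiset.toFinset_nonempty]; rintro rfl; simp at hN
    obtain ⟨m, hm, hmmax⟩ := Finset.exists_max_image M.toFinset id hMne
    obtain ⟨m', hm', hmmax'⟩ := Finset.exists_max_image N.toFinset id hNne
    rw [Multiset.mem_toFinset] at hm hm'
    have hmm : ∀ x ∈ M, x ≤ m := fun x hx => hmmax x (Multiset.mem_toFinset.2 hx)
    have hmm' : ∀ x ∈ N, x ≤ m' := fun x hx => hmmax' x (Multiset.mem_toFinset.2 hx)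
    have h1 : m ≤ m' := key M N hM hN hM0 hN0 h m hm m' hm' hmm'
    have h2 : m' ≤ m := key N M hN hM hN0 hM0 (fun r hr => (h r hr).symm) m' hm' m hm hmm
    have h3 : m = m' := le_antisymm h1 h2
    subst h3
    obtain ⟨M', rfl⟩ := Multiset.exists_cons_of_mem hm
    obtain ⟨N', rfl⟩ := Multiset.exists_cons_of_mem hm'
    congr 1
    refine ih M' N' (by simpa using hM) (by simpa using hN)
      (fun x hx => hM0 x (Multiset.mem_cons_of_mem hx))
      (fun x hx => hN0 x (Multiset.mem_cons_of_mem hx)) fun r hr => ?_
    have h4 := h r hr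
    rw [Multiset.map_cons, Multiset.map_cons, Multiset.prod_cons, Multiset.prod_cons] at h4
    exact mul_left_cancel₀ (ne_of_gt (hr0.trans_le (hr.trans (le_max_left _ _)))) h4

/-- symmetric multisets are determined by their large elements -/
theorem eq_of_symm {r0 : ℝ} (hr0 : 0 < r0) {M N : Multiset ℝ} (hM : ∀ x ∈ M, 0 < x)
    (hN : ∀ x ∈ N, 0 < x) (hMs : M.map (fun x => r0 ^ 2 / x) = M)
    (hNs : N.map (fun x => r0 ^ 2 / x) = N) (hcard : Multiset.card M = Multiset.card N)
    (h : ∀ r, r0 ≤ r → (M.map fun x => max r x).prod = (N.map fun x => max r x).prod) :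
    M = N := by
  classical
  have htr : M.map (fun x => max r0 x) = N.map (fun x => max r0 x) := by
    refine eq_of_prod_max r0 hr0 (Multiset.card M) _ _ (by simp) (by simp [hcard]) ?_ ?_ ?_
    · intro x hx
      obtain ⟨z, _, rfl⟩ := Multiset.mem_map.1 hx
      exact le_max_left _ _
    · intro x hx
      obtain ⟨z, _, rfl⟩ := Multiset.mem_map.1 hx
      exact le_max_left _ _
    · intro r hr
      rw [Multiset.map_map, Multiset.map_map]
      have : ∀ z : ℝ, max r (max r0 z) = max r z := fun z => by
        rw [← max_assoc, max_eq_left hr]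
      simp only [Function.comp_def, this]
      exact h r hr
  have hbig : ∀ x, r0 < x → M.count x = N.count x := by
    intro x hx
    have h1 : ∀ S : Multiset ℝ, (S.map fun z => max r0 z).count x = S.count x := by
      intro S
      rw [Multiset.count_map, Multiset.count_eq_card_filter_eq]
      congr 1
      refine Multiset.filter_congr fun z _ => ?_
      constructor
      · intro hz
        rcases le_total r0 z with h2 | h2
        · rw [hz, max_eq_right h2]
        · rw [max_eq_left h2] at hz; linarith
      · intro hz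
        rw [← hz, max_eq_right hx.le]
    rw [← h1 M, ← h1 N, htr]
  have hsym : ∀ S : Multiset ℝ, (∀ x ∈ S, 0 < x) → S.map (fun x => r0 ^ 2 / x) = S →
      ∀ x, 0 < x → S.count x = S.count (r0 ^ 2 / x) := by
    intro S hS hSs x hx
    conv_rhs => rw [← hSs]
    rw [Multiset.count_map, Multiset.count_eq_card_filter_eq]
    congr 1
    refine Multiset.filter_congr fun z hz => ?_
    have hz0 := hS z hz
    have hr2 : r0 ^ 2 ≠ 0 := by positivity
    constructor
    · rintro rfl; rfl
    · intro h1
      rw [div_eq_div_iff hx.ne' hz0.ne'] at h1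
      exact (mul_left_cancel₀ hr2 h1).symm
  have hsmall : ∀ x, x < r0 → M.count x = N.count x := by
    intro x hx
    by_cases hx0 : 0 < x
    · rw [hsym M hM hMs x hx0, hsym N hN hNs x hx0]
      apply hbig
      rw [lt_div_iff₀ hx0]
      nlinarith
    · rw [Multiset.count_eq_zero_of_notMem fun hxM => hx0 (hM x hxM),
        Multiset.count_eq_zero_of_notMem fun hxN => hx0 (hN x hxN)]
  ext x
  rcases lt_trichotomy x r0 with hx | hx | hx
  · exact hsmall x hx
  · subst hx
    have h1 : ∀ S : Multiset ℝ, Multiset.card S = S.count x + Multiset.card (S.filter (· ≠ x)) := by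
      intro S
      rw [Multiset.count_eq_card_filter_eq, ← Multiset.card_add]
      congr 1
      have := Multiset.filter_add_not (fun z => x = z) S
      conv_lhs => rw [← this]
      congr 1
      exact Multiset.filter_congr fun z _ => ⟨fun h h' => h h'.symm, fun h h' => h h'.symm⟩
    have h2 : M.filter (· ≠ x) = N.filter (· ≠ x) := by
      ext z
      rw [Multiset.count_filter, Multiset.count_filter]
      split_ifs with hz
      · rcases lt_or_gt_of_ne hz with h3 | h3
        · exact hsmall z h3
        · exact hbig z h3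
      · rfl
    have h3 := h1 M
    have h4 := h1 N
    rw [h2] at h3
    omega
  · exact hbig x hx

end multisets

end Pool.Agent.W518.DN
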