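import Pool.Agent.W518.DN.Good

/-!
# Ordinary polynomials satisfy the condition at `p`
-/

open Polynomial

namespace Pool.Agent.W518.DN

variable (p : ℕ) [Fact p.Prime]

/-- the absolute value of an algebraic closure of `ℚ_p` -/
noncomputable def nrm : MulAlgebraNorm ℚ_[p] (AlgebraicClosure ℚ_[p]) :=
  spectralMulAlgNorm ℚ_[p] (AlgebraicClosure ℚ_[p])

lemma nrm_apply (x : AlgebraicClosure ℚ_[p]) :
    nrm p x = spectralNorm ℚ_[p] (AlgebraicClosure ℚ_[p]) x := rfl

lemma nrm_add (x y : AlgebraicClosure ℚ_[p]) : nrm p (x + y) ≤ max (nrm p x) (nrm p y) := by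
  rw [nrm_apply, nrm_apply, nrm_apply]
  exact isNonarchimedean_spectralNorm x y

lemma nrm_algebraMap (x : ℚ_[p]) : nrm p (algebraMap _ _ x) = ‖x‖ := by
  rw [nrm_apply]; exact spectralNorm_extends x

lemma nrm_int (n : ℤ) : nrm p (n : AlgebraicClosure ℚ_[p]) = ‖(n : ℚ_[p])‖ := by
  rw [← nrm_algebraMap]
  congr 1

lemma nrm_le_one {x : AlgebraicClosure ℚ_[p]} (hx : IsIntegral ℤ x) : nrm p x ≤ 1 := by
  obtain ⟨f, hf, hfx⟩ := hx
  have h1 : (f.map (Int.castRingHom ℚ_[p])).Monic := hf.map _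
  have h2 : aeval x (f.map (Int.castRingHom ℚ_[p])) = 0 := by
    rw [aeval_def, ← eval_map, Polynomial.map_map]
    have : (algebraMap ℚ_[p] (AlgebraicClosure ℚ_[p])).comp (Int.castRingHom ℚ_[p])
        = algebraMap ℤ (AlgebraicClosure ℚ_[p]) := RingHom.ext_int _ _
    rw [this, eval_map]; exact hfx
  have h3 := norm_root_le_spectralValue (f := (nrm p).toAlgebraNorm)
    (MulRingNorm.isPowMul (nrm p).toMulRingNorm) (fun x y => nrm_add p x y) h1 h2
  refine h3.trans ((spectralValue_le_one_iff h1).2 fun n => ?_)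
  rw [coeff_map]
  exact Padic.norm_int_le_one _

theorem place_of_ordinary {a g : ℕ} {h : ℤ[X]} (hm : h.Monic) (hd : h.natDegree = g)
    (hp0 : ¬ (p : ℤ) ∣ h.coeff 0) (H : ℚ_[p][X]) (hH : H.Monic) (hHi : Irreducible H)
    (hdvd : H ∣ (lift ((p : ℤ) ^ a) g h).map (Int.castRingHom ℚ_[p])) :
    (a : ℤ) ∣ (H.coeff 0).valuation := by
  have hp := Fact.out (p := p.Prime)
  have hq : p ^ a ≠ 0 := pow_ne_zero _ hp.ne_zero
  have hqZ : (p : ℤ) ^ a = ((p ^ a : ℕ) : ℤ) := by push_cast; rfl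
  rw [hqZ] at hdvd
  obtain ⟨α, hα⟩ := IsAlgClosed.exists_aeval_eq_zero (AlgebraicClosure ℚ_[p]) H
    (degree_pos_of_irreducible hHi).ne'
  have hmin : H = minpoly ℚ_[p] α := minpoly.eq_of_irreducible_of_monic hHi hα hH
  have hPα : ((lift ((p ^ a : ℕ) : ℤ) g h).map
      (Int.castRingHom (AlgebraicClosure ℚ_[p]))).IsRoot α := by
    obtain ⟨G, hG⟩ := hdvd
    have h1 : (lift ((p ^ a : ℕ) : ℤ) g h).map (Int.castRingHom (AlgebraicClosure ℚ_[p]))
        = ((lift ((p ^ a : ℕ) : ℤ) g h).map (Int.castRingHom ℚ_[p])).map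
          (algebraMap ℚ_[p] (AlgebraicClosure ℚ_[p])) := by
      rw [Polynomial.map_map]; congr 1
    rw [h1, hG, Polynomial.map_mul, IsRoot.def, eval_mul, eval_map_algebraMap, hα, zero_mul]
  obtain ⟨hα0, hα', hy⟩ := root_symm hm hd hq hPα
  have hPm : (lift ((p ^ a : ℕ) : ℤ) g h).Monic := (lift_monic _ _ _ hm hd).1
  have hint : ∀ x : AlgebraicClosure ℚ_[p], ((lift ((p ^ a : ℕ) : ℤ) g h).map
      (Int.castRingHom (AlgebraicClosure ℚ_[p]))).IsRoot x → IsIntegral ℤ x := by
    intro x hx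
    refine ⟨_, hPm, ?_⟩
    rw [IsRoot.def, eval_map] at hx
    have h0 : algebraMap ℤ (AlgebraicClosure ℚ_[p]) = Int.castRingHom _ := RingHom.ext_int _ _
    rw [h0]; exact hx
  have hi1 := hint _ hPα
  have hi2 := hint _ hα'
  set q : AlgebraicClosure ℚ_[p] := ((p ^ a : ℕ) : AlgebraicClosure ℚ_[p]) with hqdef
  set y := α + q / α with hydef
  have hyi : IsIntegral ℤ y := hi1.add hi2
  -- the absolute value of `y` is one
  have hy1 : 1 ≤ nrm p y := by
    have h1 : (h.map (Int.castRingHom (AlgebraicClosure ℚ_[p]))).eval y = 0 := hy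
    have h2 : h = X * h.divX + C (h.coeff 0) := (X_mul_divX_add h).symm
    have h3 : (h.map (Int.castRingHom (AlgebraicClosure ℚ_[p]))).eval y
        = y * (h.divX.map (Int.castRingHom (AlgebraicClosure ℚ_[p]))).eval y
          + ((h.coeff 0 : ℤ) : AlgebraicClosure ℚ_[p]) := by
      conv_lhs => rw [h2]
      simp
    rw [h1] at h3
    set w := (h.divX.map (Int.castRingHom (AlgebraicClosure ℚ_[p]))).eval y with hw
    have hwi : IsIntegral ℤ w := by
      rw [hw, eval_map, eval₂_eq_sum_range]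
      refine IsIntegral.sum _ fun i _ => IsIntegral.mul ?_ (hyi.pow i)
      exact isIntegral_algebraMap (R := ℤ)
    have h4 : ((h.coeff 0 : ℤ) : AlgebraicClosure ℚ_[p]) = -(y * w) := by
      linear_combination -h3
    have h5 : nrm p ((h.coeff 0 : ℤ) : AlgebraicClosure ℚ_[p]) = 1 := by
      rw [nrm_int]
      refine le_antisymm (Padic.norm_int_le_one _) ?_
      by_contra hlt
      exact hp0 (Padic.norm_intCast_lt_one_iff.1 (not_le.1 hlt))
    rw [h4, map_neg_eq_map, map_mul] at h5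
    have h6 := nrm_le_one p hwi
    have h7 : 0 ≤ nrm p y := apply_nonneg _ _
    nlinarith
  have hqα : nrm p α * nrm p (q / α) = nrm p q := by
    rw [← map_mul, mul_div_cancel₀ _ hα0]
  have h1 := nrm_le_one p hi1
  have h2 := nrm_le_one p hi2
  have h3 := nrm_add p α (q / α)
  rw [← hydef] at h3
  have hnq : nrm p q = ((p : ℝ) ^ a)⁻¹ := by
    rw [hqdef, show ((p ^ a : ℕ) : AlgebraicClosure ℚ_[p])
      = algebraMap ℚ_[p] _ ((p : ℚ_[p]) ^ a) by simp, nrm_algebraMap, norm_pow, Padic.norm_p,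
      inv_pow]
  have hcase : nrm p α = 1 ∨ nrm p α = ((p : ℝ) ^ a)⁻¹ := by
    by_cases h4 : nrm p α = 1
    · left; exact h4
    · right
      have h5 : nrm p α < 1 := lt_of_le_of_ne h1 h4
      have h6 : nrm p (q / α) = 1 := by
        refine le_antisymm h2 ?_
        by_contra h7
        rw [not_le] at h7
        exact absurd (hy1.trans h3) (not_le.2 (max_lt h5 h7))
      rw [← hnq, ← hqα, h6, mul_one]
  -- the constant coefficient
  set d := H.natDegree with hddef
  have hdpos : 0 < d := natDegree_pos_iff_degree_pos.2 (degree_pos_of_irreducible hHi)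
  have hspec : nrm p α = ‖H.coeff 0‖ ^ (1 / (d : ℝ)) := by
    rw [nrm_apply, hddef, spectralNorm.spectralNorm_eq_norm_coeff_zero_rpow, ← hmin]
  have hspec' : nrm p α ^ d = ‖H.coeff 0‖ := by
    rw [hspec, ← Real.rpow_natCast, ← Real.rpow_mul (norm_nonneg _), one_div,
      inv_mul_cancel₀ (by exact_mod_cast hdpos.ne'), Real.rpow_one]
  have hc0 : H.coeff 0 ≠ 0 := by
    intro h0
    rw [h0, norm_zero] at hspec'
    have h4 := eq_zero_of_pow_eq_zero hspec'
    rcases hcase with h5 | h5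
    · rw [h5] at h4; exact one_ne_zero h4
    · rw [h5] at h4
      exact (inv_ne_zero (pow_ne_zero _ (by exact_mod_cast hp.ne_zero))) h4
  have hp1 : (1 : ℝ) < p := by exact_mod_cast hp.one_lt
  rw [Padic.norm_eq_zpow_neg_valuation hc0] at hspec'
  rcases hcase with h5 | h5
  · rw [h5, one_pow] at hspec'
    have h6 : (p : ℝ) ^ (0 : ℤ) = (p : ℝ) ^ (-(H.coeff 0).valuation) := by
      rw [zpow_zero, hspec']
    have h7 := zpow_right_injective₀ (by linarith) hp1.ne' h6
    have h8 : (H.coeff 0).valuation = 0 := by omega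
    rw [h8]; exact dvd_zero _
  · rw [h5] at hspec'
    have h6 : (p : ℝ) ^ (-((a : ℤ) * d)) = (p : ℝ) ^ (-(H.coeff 0).valuation) := by
      rw [← hspec', ← inv_pow, ← pow_mul, zpow_neg, ← inv_zpow]
      norm_cast
    have h7 := zpow_right_injective₀ (by linarith) hp1.ne' h6
    have h8 : (H.coeff 0).valuation = a * d := by omega
    rw [h8]; exact dvd_mul_right _ _

end Pool.Agent.W518.DN
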