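import Pool.Agent.W518.DN.NP
import Pool.Agent.W518.DN.Place

/-!
# Newton polygons of Weil polynomials
-/

open Polynomial

namespace Pool.Agent.W518.DN

/-- `p ^ (-x)` -/
noncomputable def pw (p : ℕ) (x : ℚ) : ℝ := (p : ℝ) ^ (-(x : ℝ))

section pw

variable {p : ℕ} (hp : 2 ≤ p)
include hp

lemma pw_pos (x : ℚ) : 0 < pw p x := Real.rpow_pos_of_pos (by positivity) _

lemma pw_add (x y : ℚ) : pw p (x + y) = pw p x * pw p y := by
  rw [pw, pw, pw, ← Real.rpow_add (by positivity)]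
  congr 1; push_cast; ring

omit hp in
lemma pw_zero : pw p 0 = 1 := by simp [pw]

lemma pw_lt_iff {x y : ℚ} : pw p x < pw p y ↔ y < x := by
  have h1 : (1 : ℝ) < p := by exact_mod_cast (by omega : 1 < p)
  rw [pw, pw, Real.rpow_lt_rpow_left_iff h1, neg_lt_neg_iff]
  exact_mod_cast Iff.rfl

lemma pw_le_iff {x y : ℚ} : pw p x ≤ pw p y ↔ y ≤ x := by
  rw [← not_lt, pw_lt_iff hp, not_lt]

lemma pw_inj {x y : ℚ} (h : pw p x = pw p y) : x = y :=
  le_antisymm ((pw_le_iff hp).1 h.ge) ((pw_le_iff hp).1 h.le)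

lemma pw_nsmul (x : ℚ) (n : ℕ) : pw p (n * x) = pw p x ^ n := by
  induction n with
  | zero => simp [pw_zero]
  | succ n ih => rw [pow_succ, ← ih, ← pw_add hp]; congr 1; push_cast; ring

lemma pw_sum {ι : Type*} (s : Finset ι) (f : ι → ℚ) : pw p (∑ i ∈ s, f i) = ∏ i ∈ s, pw p (f i) := by
  classical
  induction s using Finset.induction_on with
  | empty => simp [pw_zero]
  | insert i s hi ih => rw [Finset.sum_insert hi, Finset.prod_insert hi, pw_add hp, ih]

lemma pw_int (n : ℤ) : pw p n = (p : ℝ) ^ (-n) := by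
  have h0 : (0 : ℝ) < p := by positivity
  rw [pw, ← Real.rpow_intCast]
  push_cast; rfl

end pw

/-- partial sums of the slopes -/
def Ssum (μ : ℕ → ℚ) (k : ℕ) : ℚ := ∑ j ∈ Finset.range k, μ j

section newton

variable {p : ℕ} (hp : 2 ≤ p) {μ : ℕ → ℚ} (hmono : Monotone μ) (hhalf : ∀ k, μ k ≤ 1 / 2)
  {a g : ℕ} (ha : 0 < a)

/-- the Gauss norm predicted by the slopes -/
noncomputable def Gfun (p a g : ℕ) (μ : ℕ → ℚ) (r : ℝ) : ℝ :=
  ∏ j ∈ Finset.range g, max r (pw p (a * μ j))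

include hp in
lemma Gfun_eq {k : ℕ} (hk : k ≤ g) {r : ℝ}
    (h1 : ∀ j < k, r ≤ pw p (a * μ j)) (h2 : ∀ j, k ≤ j → j < g → pw p (a * μ j) ≤ r) :
    Gfun p a g μ r = pw p (a * Ssum μ k) * r ^ (g - k) := by
  rw [Gfun, ← Finset.prod_range_mul_prod_Ico _ hk, Ssum, Finset.mul_sum, pw_sum hp]
  congr 1
  · refine Finset.prod_congr rfl fun j hj => max_eq_right (h1 j (Finset.mem_range.1 hj))
  · rw [Finset.prod_congr rfl (g := fun _ => r) fun j hj => ?_]
    · simp
    · rw [Finset.mem_Ico] at hj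
      exact max_eq_left (h2 j hj.1 hj.2)

include hp in
lemma Gfun_ge {k : ℕ} (hk : k ≤ g) {r : ℝ} (hr : 0 ≤ r) :
    pw p (a * Ssum μ k) * r ^ (g - k) ≤ Gfun p a g μ r := by
  rw [Gfun, ← Finset.prod_range_mul_prod_Ico _ hk, Ssum, Finset.mul_sum, pw_sum hp]
  refine mul_le_mul ?_ ?_ (by positivity) (Finset.prod_nonneg fun j _ => hr.trans (le_max_left _ _))
  · exact Finset.prod_le_prod (fun j _ => (pw_pos hp _).le) fun j _ => le_max_right _ _
  · calc r ^ (g - k) = ∏ _j ∈ Finset.Ico k g, r := by simp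
      _ ≤ _ := Finset.prod_le_prod (fun _ _ => hr) fun j _ => le_max_left _ _

variable {K : Type*} [Field K] {v : AbsoluteValue K ℝ}

include hp hmono hhalf ha in
/-- Slopes determine bounds for the coefficients. -/
theorem coeff_le_of_gauss {h : K[X]}
    (hG : ∀ r, pw p (a * (1 / 2)) ≤ r → h.gaussNorm v r = Gfun p a g μ r) {k : ℕ} (hk : k ≤ g) :
    v (h.coeff (g - k)) ≤ pw p (a * Ssum μ k) := by
  have ha' : (0 : ℚ) < a := by exact_mod_cast ha
  set r : ℝ := pw p (a * μ k) with hr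
  have hr0 : 0 < r := pw_pos hp _
  have hrr : pw p (a * (1 / 2)) ≤ r := by
    rw [hr, pw_le_iff hp]; exact mul_le_mul_of_nonneg_left (hhalf k) ha'.le
  have h1 : Gfun p a g μ r = pw p (a * Ssum μ k) * r ^ (g - k) := by
    refine Gfun_eq hp hk (fun j hj => ?_) fun j hj _ => ?_
    · rw [hr, pw_le_iff hp]; exact mul_le_mul_of_nonneg_left (hmono hj.le) ha'.le
    · rw [hr, pw_le_iff hp]; exact mul_le_mul_of_nonneg_left (hmono hj) ha'.le
  have h2 := le_gaussNorm v h hr0.le (g - k)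
  rw [hG r hrr, h1] at h2
  exact le_of_mul_le_mul_right h2 (pow_pos hr0 _)

include hp ha in
/-- Conditions on the coefficients determine the slopes. -/
theorem gauss_of_coeff (hmono : Monotone μ) {h : K[X]} (hm : h.Monic) (hd : h.natDegree = g)
    (hC1 : ∀ k ≤ g, v (h.coeff (g - k)) ≤ pw p (a * Ssum μ k))
    (hC2 : ∀ k, 1 ≤ k → k ≤ g → μ (k - 1) < μ k → v (h.coeff (g - k)) = pw p (a * Ssum μ k))
    (hg : μ g = 1 / 2) {r : ℝ} (hr : pw p (a * (1 / 2)) ≤ r) :
    h.gaussNorm v r = Gfun p a g μ r := by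
  classical
  have ha' : (0 : ℚ) < a := by exact_mod_cast ha
  have hr0 : 0 < r := (pw_pos hp _).trans_le hr
  -- the number of large slopes
  have hex : ∃ k, k ≤ g ∧ pw p (a * μ k) ≤ r := ⟨g, le_rfl, by rw [hg]; exact hr⟩
  let k := Nat.find hex
  have hk := Nat.find_spec hex
  change k ≤ g ∧ pw p (a * μ k) ≤ r at hk
  have hkmin : ∀ j < k, r < pw p (a * μ j) := by
    intro j hj
    have := Nat.find_min hex hj
    rw [not_and, not_le] at this
    exact this (hj.le.trans hk.1)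
  have hval : v (h.coeff (g - k)) = pw p (a * Ssum μ k) := by
    rcases Nat.eq_zero_or_pos k with h0 | h0
    · rw [h0, Nat.sub_zero, ← hd, hm.coeff_natDegree, map_one, Ssum]
      simp [pw_zero]
    · refine hC2 k h0 hk.1 ?_
      have h1 := hkmin (k - 1) (by omega)
      have h2 := hk.2.trans_lt h1
      rw [pw_lt_iff hp] at h2
      exact lt_of_mul_lt_mul_left h2 ha'.le
  have hG : Gfun p a g μ r = pw p (a * Ssum μ k) * r ^ (g - k) :=
    Gfun_eq hp hk.1 (fun j hj => (hkmin j hj).le) fun j hj _ => by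
      refine le_trans ?_ hk.2
      rw [pw_le_iff hp]; exact mul_le_mul_of_nonneg_left (hmono hj) ha'.le
  refine gn_eq hr0.le (fun i => ?_) (g - k) (by rw [hval, hG])
  by_cases hi : i ≤ g
  · have h1 := hC1 (g - i) (by omega)
    rw [show g - (g - i) = i by omega] at h1
    have h2 := Gfun_ge hp (μ := μ) (a := a) (show g - i ≤ g by omega) hr0.le
    rw [show g - (g - i) = i by omega] at h2
    exact (mul_le_mul_of_nonneg_right h1 (by positivity)).trans h2
  · rw [coeff_eq_zero_of_natDegree_lt (by omega), map_zero, zero_mul]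
    exact Finset.prod_nonneg fun j _ => hr0.le.trans (le_max_left _ _)

end newton

end Pool.Agent.W518.DN
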