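import Pool.Agent.W518.DN.Place

/-!
# Many ordinary Weil polynomials
-/

open Polynomial

namespace Pool.Agent.W518.DN

open Pool.Agent.W518.TC

section realroots

lemma fac_of_roots {g : ℕ} {f : ℝ[X]} (hm : f.Monic) (hd : f.natDegree = g) (y : Fin g → ℝ)
    (hy : Function.Injective y) (hyr : ∀ i, f.IsRoot (y i)) : f = ∏ i, (X - C (y i)) := by
  have h1 : Finset.univ.val.map y ≤ f.roots := by
    rw [Multiset.le_iff_subset (Finset.univ.nodup.map hy)]
    intro z hz
    obtain ⟨i, _, rfl⟩ := Multiset.mem_map.1 hz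
    exact (mem_roots hm.ne_zero).2 (hyr i)
  have h2 : Finset.univ.val.map y = f.roots := by
    refine Multiset.eq_of_le_of_card_le h1 ?_
    refine (card_roots' f).trans ?_
    rw [hd]; simp
  have h3 : Multiset.card f.roots = f.natDegree := by rw [← h2, hd]; simp
  have h4 := prod_multiset_X_sub_C_of_monic_of_roots_card_eq hm h3
  rw [← h4, ← h2, Multiset.map_map]
  rfl

theorem isFrobPoly_of_places {p a g : ℕ} [Fact p.Prime] {h : ℤ[X]} (hm : h.Monic)
    (hd : h.natDegree = g) (hpl : ∀ H : ℚ_[p][X], H.Monic → Irreducible H →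
      H ∣ (lift ((p : ℤ) ^ a) g h).map (Int.castRingHom ℚ_[p]) → (a : ℤ) ∣ (H.coeff 0).valuation)
    (y : Fin g → ℝ)
    (hy : Function.Injective y) (hyr : ∀ i, (h.map (Int.castRingHom ℝ)).IsRoot (y i))
    (hyb : ∀ i, (y i) ^ 2 < 4 * (p : ℝ) ^ a) : IsFrobPoly p a (lift ((p : ℤ) ^ a) g h) := by
  have hp := Fact.out (p := p.Prime)
  have hq : p ^ a ≠ 0 := pow_ne_zero _ hp.ne_zero
  have hqZ : (p : ℤ) ^ a = ((p ^ a : ℕ) : ℤ) := by push_cast; rfl
  have hfac := fac_of_roots (hm.map _) (by rw [hm.natDegree_map, hd]) y hy hyr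
  have hevR : ∀ w : ℝ, (h.map (Int.castRingHom ℝ)).IsRoot w → ∃ i, w = y i := by
    intro w hw
    rw [hfac, IsRoot.def, eval_prod, Finset.prod_eq_zero_iff] at hw
    obtain ⟨i, _, hi⟩ := hw
    exact ⟨i, by simpa [sub_eq_zero] using hi⟩
  have hevC : ∀ w : ℂ, (h.map (Int.castRingHom ℂ)).IsRoot w → ∃ i, w = (y i : ℂ) := by
    intro w hw
    have h1 : h.map (Int.castRingHom ℂ) = (h.map (Int.castRingHom ℝ)).map Complex.ofRealHom := by
      rw [Polynomial.map_map]; congr 1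
    rw [h1, hfac, Polynomial.map_prod, IsRoot.def, eval_prod, Finset.prod_eq_zero_iff] at hw
    obtain ⟨i, _, hi⟩ := hw
    exact ⟨i, by simpa [sub_eq_zero] using hi⟩
  have hnoreal : ∀ x : ℝ, ¬ ((lift ((p : ℤ) ^ a) g h).map (Int.castRingHom ℝ)).IsRoot x := by
    intro x hx
    rw [hqZ] at hx
    obtain ⟨hx0, -, hw⟩ := root_symm hm hd hq hx
    obtain ⟨i, hi⟩ := hevR _ hw
    have h1 := hyb i
    rw [← hi] at h1
    have h2 : (x + ((p ^ a : ℕ) : ℝ) / x) ^ 2
        = (x - ((p ^ a : ℕ) : ℝ) / x) ^ 2 + 4 * (p : ℝ) ^ a := by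
      push_cast; field_simp; ring
    rw [h2] at h1
    nlinarith [sq_nonneg (x - ((p ^ a : ℕ) : ℝ) / x)]
  have hPm : (lift ((p : ℤ) ^ a) g h).Monic := (lift_monic _ _ _ hm hd).1
  refine ⟨hPm, ?_, ?_, ?_⟩
  · intro z hz
    rw [hqZ] at hz
    obtain ⟨hz0, -, hw⟩ := root_symm hm hd hq hz
    obtain ⟨i, hi⟩ := hevC _ hw
    set q : ℂ := ((p ^ a : ℕ) : ℂ) with hqd
    have hz0' : (starRingEnd ℂ) z ≠ 0 := by simpa using hz0
    have hconj : (starRingEnd ℂ) z + q / (starRingEnd ℂ) z = z + q / z := by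
      rw [hi]
      have := congrArg (starRingEnd ℂ) hi
      rw [map_add, map_div₀, Complex.conj_ofReal] at this
      have hqq : (starRingEnd ℂ) q = q := by rw [hqd, map_natCast]
      rw [hqq] at this
      exact this
    have h1 : ((starRingEnd ℂ) z - z) * ((starRingEnd ℂ) z - q / z) = 0 := by
      have h2 : ((starRingEnd ℂ) z - z) * ((starRingEnd ℂ) z - q / z)
          = (starRingEnd ℂ) z * ((starRingEnd ℂ) z + q / (starRingEnd ℂ) z)
            - (starRingEnd ℂ) z * (z + q / z) := by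
        field_simp; ring
      rw [h2, hconj, sub_self]
    rcases mul_eq_zero.1 h1 with h2 | h2
    · exfalso
      have h3 : (starRingEnd ℂ) z = z := sub_eq_zero.1 h2
      obtain ⟨x, rfl⟩ := Complex.conj_eq_iff_real.1 h3
      apply hnoreal x
      have h4 : (lift ((p : ℤ) ^ a) g h).map (Int.castRingHom ℂ)
          = ((lift ((p : ℤ) ^ a) g h).map (Int.castRingHom ℝ)).map Complex.ofRealHom := by
        rw [Polynomial.map_map]; congr 1
      rw [← hqZ, h4] at hz
      rw [IsRoot.def] at hz ⊢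
      have h5 : Complex.ofRealHom (eval x ((lift ((p : ℤ) ^ a) g h).map (Int.castRingHom ℝ)))
          = 0 := by
        rw [← eval_map_apply]; exact hz
      exact Complex.ofReal_eq_zero.1 h5
    · have h3 : (starRingEnd ℂ) z = q / z := sub_eq_zero.1 h2
      have h4 : z * (starRingEnd ℂ) z = q := by rw [h3, mul_div_cancel₀ _ hz0]
      rw [Complex.mul_conj'] at h4
      have h5 : ((‖z‖ ^ 2 : ℝ) : ℂ) = (((p : ℝ) ^ a : ℝ) : ℂ) := by
        push_cast; rw [h4, hqd]; push_cast; rfl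
      exact_mod_cast h5
  · rintro f hf hfi ⟨r, hr⟩
    by_cases hdvd : f ∣ (lift ((p : ℤ) ^ a) g h).map (Int.castRingHom ℚ)
    · exfalso
      apply hnoreal r
      obtain ⟨G, hG⟩ := hdvd
      have h4 : (lift ((p : ℤ) ^ a) g h).map (Int.castRingHom ℝ)
          = ((lift ((p : ℤ) ^ a) g h).map (Int.castRingHom ℚ)).map (algebraMap ℚ ℝ) := by
        rw [Polynomial.map_map]; congr 1
      rw [h4, hG, Polynomial.map_mul, IsRoot.def, eval_mul, hr.eq_zero, zero_mul]
    · rw [multiplicity_eq_zero.2 hdvd]; exact dvd_zero _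
  · intro f hf hfi H hH hHi hHf
    by_cases hdvd : f ∣ (lift ((p : ℤ) ^ a) g h).map (Int.castRingHom ℚ)
    · apply Dvd.dvd.mul_left
      apply hpl H hH hHi
      obtain ⟨G, hG⟩ := hdvd
      have h4 : (lift ((p : ℤ) ^ a) g h).map (Int.castRingHom ℚ_[p])
          = ((lift ((p : ℤ) ^ a) g h).map (Int.castRingHom ℚ)).map (algebraMap ℚ ℚ_[p]) := by
        rw [Polynomial.map_map]; congr 1
      rw [h4, hG, Polynomial.map_mul]
      exact hHf.mul_right _
    · rw [multiplicity_eq_zero.2 hdvd]; simp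

theorem isFrobPoly_of_real {p a g : ℕ} [Fact p.Prime] {h : ℤ[X]} (hm : h.Monic)
    (hd : h.natDegree = g) (hp0 : ¬ (p : ℤ) ∣ h.coeff 0) (y : Fin g → ℝ)
    (hy : Function.Injective y) (hyr : ∀ i, (h.map (Int.castRingHom ℝ)).IsRoot (y i))
    (hyb : ∀ i, (y i) ^ 2 < 4 * (p : ℝ) ^ a) : IsFrobPoly p a (lift ((p : ℤ) ^ a) g h) :=
  isFrobPoly_of_places hm hd (fun H hH hHi hdvd => place_of_ordinary p hm hd hp0 H hH hHi hdvd)
    y hy hyr hyb

/-- Sign changes give distinct zeros. -/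
theorem exists_zeros {g : ℕ} (f : ℝ → ℝ) (hf : Continuous f) (t : Fin (g + 1) → ℝ)
    (ht : StrictMono t) (hs : ∀ i : Fin g, f (t i.castSucc) * f (t i.succ) < 0) :
    ∃ y : Fin g → ℝ, Function.Injective y ∧ ∀ i, f (y i) = 0 ∧ t i.castSucc < y i ∧
      y i < t i.succ := by
  have hex : ∀ i : Fin g, ∃ z, f z = 0 ∧ t i.castSucc < z ∧ z < t i.succ := by
    intro i
    have hlt : t i.castSucc < t i.succ := ht (Fin.castSucc_lt_succ)
    rcases mul_neg_iff.1 (hs i) with ⟨h1, h2⟩ | ⟨h1, h2⟩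
    · obtain ⟨z, hz, hz0⟩ := intermediate_value_Ioo' hlt.le hf.continuousOn ⟨h2, h1⟩
      exact ⟨z, hz0, hz.1, hz.2⟩
    · obtain ⟨z, hz, hz0⟩ := intermediate_value_Ioo hlt.le hf.continuousOn ⟨h1, h2⟩
      exact ⟨z, hz0, hz.1, hz.2⟩
  choose y hy0 hy1 hy2 using hex
  refine ⟨y, ?_, fun i => ⟨hy0 i, hy1 i, hy2 i⟩⟩
  have hmono : StrictMono y := by
    intro i j hij
    have h1 : t i.succ ≤ t j.castSucc := ht.monotone (by
      rw [Fin.le_def]; simp; exact hij)
    exact (hy2 i).trans_le (h1.trans (hy1 j).le)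
  exact hmono.injective

/-- nodes of the reference polynomial -/
noncomputable def nodeS (g : ℕ) (i : Fin g) : ℝ := -1 + (2 * (i : ℝ) + 1) / g

/-- sample points -/
noncomputable def nodeT (g : ℕ) (j : Fin (g + 1)) : ℝ := -1 + 2 * (j : ℝ) / g

/-- reference polynomial -/
noncomputable def refP (g : ℕ) : ℝ[X] := ∏ i : Fin g, (X - C (nodeS g i))

lemma refP_monic (g : ℕ) : (refP g).Monic := monic_prod_of_monic _ _ fun _ _ => monic_X_sub_C _

lemma refP_natDegree (g : ℕ) : (refP g).natDegree = g := by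
  rw [refP, natDegree_prod_of_monic _ _ fun i _ => monic_X_sub_C _]
  simp

lemma nodeT_strictMono {g : ℕ} (hg : 1 ≤ g) : StrictMono (nodeT g) := by
  intro i j hij
  have hg' : (0 : ℝ) < g := by exact_mod_cast hg
  have : (i : ℝ) < (j : ℝ) := by exact_mod_cast hij
  simp only [nodeT]
  gcongr

lemma nodeT_abs {g : ℕ} (hg : 1 ≤ g) (j : Fin (g + 1)) : |nodeT g j| ≤ 1 := by
  have hg' : (0 : ℝ) < g := by exact_mod_cast hg
  have h1 : ((j : ℕ) : ℝ) ≤ g := by exact_mod_cast Nat.lt_succ_iff.1 j.2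
  have h2 : 2 * ((j : ℕ) : ℝ) / g ≤ 2 := by rw [div_le_iff₀ hg']; linarith
  have h3 : 0 ≤ 2 * ((j : ℕ) : ℝ) / g := by positivity
  rw [abs_le, nodeT]
  constructor <;> linarith

lemma node_sub {g : ℕ} (hg : 1 ≤ g) (j : Fin (g + 1)) (i : Fin g) :
    nodeT g j - nodeS g i = ((2 * (j : ℤ) - 2 * (i : ℤ) - 1 : ℤ) : ℝ) / g := by
  have hg' : (g : ℝ) ≠ 0 := by positivity
  rw [nodeT, nodeS]; push_cast; field_simp; ring

lemma refP_abs {g : ℕ} (hg : 1 ≤ g) (j : Fin (g + 1)) :
    (1 / (g : ℝ)) ^ g ≤ |(refP g).eval (nodeT g j)| := by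
  have hg' : (0 : ℝ) < g := by exact_mod_cast hg
  rw [refP, eval_prod, Finset.abs_prod]
  have h1 : (1 / (g : ℝ)) ^ g = ∏ _i : Fin g, (1 / (g : ℝ)) := by simp
  rw [h1]
  refine Finset.prod_le_prod (fun i _ => by positivity) fun i _ => ?_
  rw [eval_sub, eval_X, eval_C, node_sub hg, abs_div, abs_of_pos hg']
  gcongr
  have : (1 : ℤ) ≤ |2 * ((j : ℕ) : ℤ) - 2 * ((i : ℕ) : ℤ) - 1| := by
    rcases le_total 0 (2 * ((j : ℕ) : ℤ) - 2 * ((i : ℕ) : ℤ) - 1) with h | h
    · rw [abs_of_nonneg h]; omega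
    · rw [abs_of_nonpos h]; omega
  exact_mod_cast this

lemma refP_sign {g : ℕ} (hg : 1 ≤ g) (i : Fin g) :
    (refP g).eval (nodeT g i.castSucc) * (refP g).eval (nodeT g i.succ) < 0 := by
  have hg' : (0 : ℝ) < g := by exact_mod_cast hg
  rw [refP, eval_prod, eval_prod, ← Finset.prod_mul_distrib,
    ← Finset.mul_prod_erase _ _ (Finset.mem_univ i)]
  simp only [eval_sub, eval_X, eval_C]
  refine mul_neg_of_neg_of_pos ?_ (Finset.prod_pos fun k hk => ?_)
  · rw [node_sub hg, node_sub hg]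
    refine mul_neg_of_neg_of_pos (div_neg_of_neg_of_pos ?_ hg') (div_pos ?_ hg')
    · have : (2 * (((i.castSucc : Fin (g + 1)) : ℕ) : ℤ) - 2 * ((i : ℕ) : ℤ) - 1 : ℤ) < 0 := by
        rw [Fin.val_castSucc]; omega
      exact_mod_cast this
    · have : 0 < (2 * (((i.succ : Fin (g + 1)) : ℕ) : ℤ) - 2 * ((i : ℕ) : ℤ) - 1 : ℤ) := by
        rw [Fin.val_succ]; push_cast; omega
      exact_mod_cast this
  · have hki : k ≠ i := Finset.ne_of_mem_erase hk
    have hki' : (k : ℕ) ≠ (i : ℕ) := fun h => hki (Fin.ext h)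
    rw [node_sub hg, node_sub hg, div_mul_div_comm]
    refine div_pos ?_ (by positivity)
    have : 0 < (2 * (((i.castSucc : Fin (g + 1)) : ℕ) : ℤ) - 2 * ((k : ℕ) : ℤ) - 1 : ℤ) *
        (2 * (((i.succ : Fin (g + 1)) : ℕ) : ℤ) - 2 * ((k : ℕ) : ℤ) - 1 : ℤ) := by
      rw [Fin.val_succ, Fin.val_castSucc]
      push_cast
      rcases Nat.lt_or_gt_of_ne hki' with h | h
      · exact mul_pos (by omega) (by omega)
      · exact mul_pos_of_neg_of_neg (by omega) (by omega)
    exact_mod_cast this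

/-- admissible perturbation -/
noncomputable def del (g : ℕ) : ℝ := (1 / (g : ℝ)) ^ g / (2 * g)

lemma del_pos {g : ℕ} (hg : 1 ≤ g) : 0 < del g := by
  have hg' : (0 : ℝ) < g := by exact_mod_cast hg
  rw [del]; positivity

/-- integral polynomials close to the reference polynomial have only real roots in the right
interval -/
theorem exists_real_roots {g : ℕ} (hg : 1 ≤ g) {Q : ℝ} (hQ : 0 < Q) (b : Fin g → ℤ)
    (hb : ∀ i : Fin g, |(b i : ℝ) - (refP g).coeff i * Q ^ (g - (i : ℕ))| ≤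
      del g * Q ^ (g - (i : ℕ))) :
    ∃ y : Fin g → ℝ, Function.Injective y ∧
      ∀ i, ((hp b).map (Int.castRingHom ℝ)).IsRoot (y i) ∧ (y i) ^ 2 < 4 * Q ^ 2 := by
  have hg' : (0 : ℝ) < g := by exact_mod_cast hg
  set β : Fin g → ℝ := fun i => (b i : ℝ) / Q ^ (g - (i : ℕ)) with hβ
  set f : ℝ → ℝ := fun x => x ^ g + ∑ i : Fin g, β i * x ^ (i : ℕ) with hf
  have hfc : Continuous f := by fun_prop
  have href : ∀ x, (refP g).eval x = x ^ g + ∑ i : Fin g, (refP g).coeff i * x ^ (i : ℕ) := by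
    intro x
    conv_lhs => rw [← hp_of_monic (refP g) (refP_monic g) (refP_natDegree g)]
    simp [hp, eval_finsetSum]
  have hclose : ∀ j, |f (nodeT g j) - (refP g).eval (nodeT g j)| ≤ (1 / (g : ℝ)) ^ g / 2 := by
    intro j
    rw [href, hf]
    simp only
    have h1 : nodeT g j ^ g + ∑ i : Fin g, β i * nodeT g j ^ (i : ℕ) -
        (nodeT g j ^ g + ∑ i : Fin g, (refP g).coeff i * nodeT g j ^ (i : ℕ))
        = ∑ i : Fin g, (β i - (refP g).coeff i) * nodeT g j ^ (i : ℕ) := by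
      simp only [sub_mul, Finset.sum_sub_distrib]; ring
    rw [h1]
    refine (Finset.abs_sum_le_sum_abs _ _).trans ?_
    have h2 : ∀ i : Fin g, |(β i - (refP g).coeff i) * nodeT g j ^ (i : ℕ)| ≤ del g := by
      intro i
      rw [abs_mul, abs_pow]
      have h3 : |nodeT g j| ^ (i : ℕ) ≤ 1 := pow_le_one₀ (abs_nonneg _) (nodeT_abs hg j)
      have hQi : 0 < Q ^ (g - (i : ℕ)) := pow_pos hQ _
      have h4 : |β i - (refP g).coeff i| ≤ del g := by
        have h5 : β i - (refP g).coeff i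
            = ((b i : ℝ) - (refP g).coeff i * Q ^ (g - (i : ℕ))) / Q ^ (g - (i : ℕ)) := by
          rw [hβ]; field_simp
        rw [h5, abs_div, abs_of_pos hQi, div_le_iff₀ hQi]
        exact hb i
      calc _ ≤ del g * 1 := mul_le_mul h4 h3 (by positivity) (del_pos hg).le
        _ = del g := mul_one _
    calc _ ≤ ∑ _i : Fin g, del g := Finset.sum_le_sum fun i _ => h2 i
      _ = g * del g := by simp
      _ = _ := by rw [del]; field_simp
  have hsame : ∀ j, 0 < f (nodeT g j) * (refP g).eval (nodeT g j) := by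
    intro j
    have h1 := hclose j
    have h2 := refP_abs hg j
    have h3 : (0 : ℝ) < (1 / (g : ℝ)) ^ g := by positivity
    set A := f (nodeT g j)
    set B := (refP g).eval (nodeT g j)
    rcases le_total 0 B with hB | hB
    · rw [abs_of_nonneg hB] at h2
      have := (abs_le.1 h1).1
      exact mul_pos (by linarith) (by linarith)
    · rw [abs_of_nonpos hB] at h2
      have := (abs_le.1 h1).2
      exact mul_pos_of_neg_of_neg (by linarith) (by linarith)
  obtain ⟨y, hyinj, hy⟩ := exists_zeros f hfc (nodeT g) (nodeT_strictMono hg) (by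
    intro i
    have h1 := hsame i.castSucc
    have h2 := hsame i.succ
    have h3 := refP_sign hg i
    by_contra hcon
    rw [not_lt] at hcon
    have h4 : 0 < (f (nodeT g i.castSucc) * f (nodeT g i.succ)) *
        ((refP g).eval (nodeT g i.castSucc) * (refP g).eval (nodeT g i.succ)) := by
      have := mul_pos h1 h2
      nlinarith
    have h5 := mul_nonpos_of_nonneg_of_nonpos hcon h3.le
    linarith)
  refine ⟨fun i => Q * y i, fun i j hij => hyinj (mul_left_cancel₀ hQ.ne' hij), fun i => ⟨?_, ?_⟩⟩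
  · have h1 := (hy i).1
    rw [IsRoot.def]
    have h2 : ((hp b).map (Int.castRingHom ℝ)).eval (Q * y i) = Q ^ g * f (y i) := by
      rw [hp_map, hp, hf]
      simp only [eval_add, eval_pow, eval_X, eval_finsetSum, eval_mul, eval_C]
      rw [mul_add, mul_pow, Finset.mul_sum]
      congr 1
      refine Finset.sum_congr rfl fun k _ => ?_
      have h3 : Q ^ g = Q ^ (g - (k : ℕ)) * Q ^ (k : ℕ) := by
        rw [← pow_add, Nat.sub_add_cancel k.2.le]
      have hQi : Q ^ (g - (k : ℕ)) ≠ 0 := (pow_pos hQ _).ne'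
      rw [hβ, h3]
      simp only [eq_intCast]
      rw [mul_pow]
      field_simp
    rw [h2, h1, mul_zero]
  · have h1 := (hy i).2.1
    have h2 := (hy i).2.2
    have h3 := (abs_le.1 (nodeT_abs hg i.castSucc)).1
    have h4 := (abs_le.1 (nodeT_abs hg i.succ)).2
    have h5 : (y i) ^ 2 < 1 := by nlinarith
    have h6 : 0 < Q ^ 2 := by positivity
    simp only [mul_pow]
    nlinarith

end realroots

end Pool.Agent.W518.DN
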