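import Pool.Agent.W518.TC.Defs

/-!
# Weil polynomials and their real (trace) polynomials
-/

open Polynomial

namespace Pool.Agent.W518.DN

open Pool.Agent.W518.TC

section lift

variable {A : Type*} [CommRing A]

lemma natDegree_sq_le (q : A) : (X ^ 2 + C q : A[X]).natDegree ≤ 2 :=
  natDegree_add_le_of_degree_le (natDegree_X_pow_le 2) (by simp)

/-- `X ^ g * h (X + q / X)` as a polynomial. -/
noncomputable def lift (q : A) (g : ℕ) (h : A[X]) : A[X] :=
  ∑ k ∈ Finset.range (g + 1), C (h.coeff k) * X ^ (g - k) * (X ^ 2 + C q) ^ k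

lemma lift_add (q : A) (g : ℕ) (h h' : A[X]) : lift q g (h + h') = lift q g h + lift q g h' := by
  simp only [lift, coeff_add, C_add, add_mul, Finset.sum_add_distrib]

lemma lift_C_mul_X_pow_self (q : A) (g : ℕ) (c : A) :
    lift q g (C c * X ^ g) = C c * (X ^ 2 + C q) ^ g := by
  rw [lift, Finset.sum_eq_single g]
  · simp
  · intro k hk hkg
    rw [coeff_C_mul, coeff_X_pow, if_neg hkg]; simp
  · intro h; simp at h

lemma lift_succ (q : A) (g : ℕ) (h : A[X]) (hh : h.natDegree ≤ g) :
    lift q (g + 1) h = X * lift q g h := by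
  rw [lift, Finset.sum_range_succ, coeff_eq_zero_of_natDegree_lt (by omega), lift, Finset.mul_sum]
  simp only [C_0, zero_mul, add_zero]
  refine Finset.sum_congr rfl fun k hk => ?_
  rw [Finset.mem_range] at hk
  rw [show g + 1 - k = (g - k) + 1 by omega, pow_succ]
  ring

lemma lift_map {B : Type*} [CommRing B] (f : A →+* B) (q : A) (g : ℕ) (h : A[X]) :
    (lift q g h).map f = lift (f q) g (h.map f) := by
  simp [lift, Polynomial.map_sum]

lemma lift_natDegree_le (q : A) (g : ℕ) (h : A[X]) : (lift q g h).natDegree ≤ 2 * g := by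
  refine natDegree_sum_le_of_forall_le _ _ fun k hk => ?_
  rw [Finset.mem_range] at hk
  refine (natDegree_mul_le).trans ?_
  have h1 : (C (h.coeff k) * X ^ (g - k) : A[X]).natDegree ≤ g - k :=
    natDegree_C_mul_X_pow_le _ _
  have h2 : ((X ^ 2 + C q) ^ k : A[X]).natDegree ≤ k * 2 := by
    refine natDegree_pow_le.trans ?_
    exact Nat.mul_le_mul_left _ (natDegree_sq_le q)
  omega

lemma lift_monic [Nontrivial A] (q : A) (g : ℕ) (h : A[X]) (hm : h.Monic) (hd : h.natDegree = g) :
    (lift q g h).Monic ∧ (lift q g h).natDegree = 2 * g := by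
  have hlead : (lift q g h).coeff (2 * g) = 1 := by
    rw [lift, finsetSum_coeff, Finset.sum_eq_single g]
    · have h1 : h.coeff g = 1 := by rw [← hd]; exact hm
      rw [h1, Nat.sub_self, pow_zero, C_1, one_mul, one_mul]
      have h2 : ((X ^ 2 + C q) ^ g : A[X]).Monic := (monic_X_pow_add_C q two_ne_zero).pow g
      have h3 : ((X ^ 2 + C q) ^ g : A[X]).natDegree = 2 * g := by
        rw [(monic_X_pow_add_C q two_ne_zero).natDegree_pow, natDegree_X_pow_add_C, mul_comm]
      rw [← h3]; exact h2
    · intro k hk hkg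
      rw [Finset.mem_range] at hk
      apply coeff_eq_zero_of_natDegree_lt
      refine lt_of_le_of_lt (natDegree_mul_le) ?_
      have h1 : (C (h.coeff k) * X ^ (g - k) : A[X]).natDegree ≤ g - k :=
        natDegree_C_mul_X_pow_le _ _
      have h2 : ((X ^ 2 + C q) ^ k : A[X]).natDegree ≤ k * 2 :=
        natDegree_pow_le.trans (Nat.mul_le_mul_left _ (natDegree_sq_le q))
      omega
    · intro h; simp at h
  have hdeg : (lift q g h).natDegree = 2 * g :=
    le_antisymm (lift_natDegree_le q g h) (le_natDegree_of_ne_zero (by rw [hlead]; exact one_ne_zero))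
  exact ⟨by rw [Monic, leadingCoeff, hdeg, hlead], hdeg⟩

lemma lift_eval {F : Type*} [Field F] (q : F) (g : ℕ) (h : F[X]) (hd : h.natDegree ≤ g) (x : F)
    (hx : x ≠ 0) : (lift q g h).eval x = x ^ g * h.eval (x + q / x) := by
  have h1 : h.eval (x + q / x) = ∑ k ∈ Finset.range (g + 1), h.coeff k * (x + q / x) ^ k :=
    eval_eq_sum_range' (by omega) _
  rw [h1, lift, eval_finsetSum, Finset.mul_sum]
  refine Finset.sum_congr rfl fun k hk => ?_
  rw [Finset.mem_range] at hk
  simp only [eval_mul, eval_C, eval_pow, eval_X, eval_add]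
  have h2 : x ^ 2 + q = x * (x + q / x) := by field_simp
  rw [h2, mul_pow]
  have h3 : x ^ g = x ^ (g - k) * x ^ k := by rw [← pow_add]; congr 1; omega
  rw [h3]; ring

/-- `P` is `q`-reciprocal of weight `g`. -/
def Recip (q : A) (g : ℕ) (P : A[X]) : Prop :=
  P.natDegree ≤ 2 * g ∧ ∀ i ≤ g, P.coeff (g - i) = q ^ i * P.coeff (g + i)

lemma recip_pow (q : A) (g : ℕ) : Recip q g ((X ^ 2 + C q) ^ g) := by
  refine ⟨?_, ?_⟩
  · refine (natDegree_pow_le.trans (Nat.mul_le_mul_left _ (natDegree_sq_le q))).trans ?_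
    omega
  · intro i hi
    have h1 : ((X ^ 2 + C q) ^ g : A[X]) = expand A 2 ((X + C q) ^ g) := by simp
    rw [h1, coeff_expand (by norm_num), coeff_expand (by norm_num)]
    by_cases hpar : 2 ∣ g - i
    · have hpar' : 2 ∣ g + i := by omega
      rw [if_pos hpar, if_pos hpar', coeff_X_add_C_pow, coeff_X_add_C_pow]
      obtain ⟨j, hj⟩ := hpar
      have e1 : (g - i) / 2 = j := by omega
      have e2 : (g + i) / 2 = g - j := by omega
      rw [e1, e2, show g - (g - j) = j by omega, Nat.choose_symm (by omega),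
        show g - j = i + j by omega, pow_add]
      ring
    · have hpar' : ¬ 2 ∣ g + i := by omega
      rw [if_neg hpar, if_neg hpar', mul_zero]

theorem exists_lift (q : A) (g : ℕ) : ∀ P : A[X], Recip q g P →
    ∃ h : A[X], h.natDegree ≤ g ∧ P = lift q g h := by
  induction g with
  | zero =>
    rintro P ⟨hd, _⟩
    refine ⟨P, by simpa using hd, ?_⟩
    rw [lift]
    have : P = C (P.coeff 0) := eq_C_of_natDegree_le_zero (by simpa using hd)
    simp only [zero_add, Finset.range_one, Finset.sum_singleton, Nat.sub_self, pow_zero, mul_one]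
    exact this
  | succ g ih =>
    rintro P ⟨hd, hP⟩
    set c := P.coeff (2 * (g + 1)) with hc
    set P1 := P - C c * (X ^ 2 + C q) ^ (g + 1) with hP1
    obtain ⟨hd0, h0⟩ := recip_pow q (g + 1)
    have hr1 : ∀ i ≤ g + 1, P1.coeff (g + 1 - i) = q ^ i * P1.coeff (g + 1 + i) := by
      intro i hi
      rw [hP1, coeff_sub, coeff_sub, coeff_C_mul, coeff_C_mul, hP i hi, h0 i hi]
      ring
    have hlead : P1.coeff (2 * (g + 1)) = 0 := by
      have h1 : ((X ^ 2 + C q) ^ (g + 1) : A[X]).coeff (2 * (g + 1)) = 1 := by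
        have h2 : ((X ^ 2 + C q) ^ (g + 1) : A[X]) = expand A 2 ((X + C q) ^ (g + 1)) := by simp
        rw [h2, mul_comm 2 (g + 1), coeff_expand_mul (by norm_num), coeff_X_add_C_pow]
        simp
      rw [hP1, coeff_sub, coeff_C_mul, h1, mul_one, sub_self]
    have hz : P1.coeff 0 = 0 := by
      have := hr1 (g + 1) le_rfl
      rw [Nat.sub_self, show g + 1 + (g + 1) = 2 * (g + 1) by ring, hlead, mul_zero] at this
      exact this
    have hd1 : P1.natDegree ≤ 2 * (g + 1) := by
      refine (natDegree_sub_le _ _).trans (max_le hd ?_)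
      exact (natDegree_C_mul_le _ _).trans hd0
    have hX : P1 = X * P1.divX := by
      conv_lhs => rw [← divX_mul_X_add P1, hz, C_0, add_zero, mul_comm]
    obtain ⟨h2, hh2, e2⟩ := ih P1.divX ⟨by
        rw [natDegree_le_iff_coeff_eq_zero]
        intro N hN
        rw [coeff_divX]
        by_cases hN' : N + 1 = 2 * (g + 1)
        · rw [hN']; exact hlead
        · exact coeff_eq_zero_of_natDegree_lt (by omega), fun i hi => by
        rw [coeff_divX, coeff_divX, show g - i + 1 = g + 1 - i by omega,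
          show g + i + 1 = g + 1 + i by ring]
        exact hr1 i (by omega)⟩
    refine ⟨h2 + C c * X ^ (g + 1), ?_, ?_⟩
    · refine (natDegree_add_le _ _).trans (max_le (by omega) (natDegree_C_mul_X_pow_le _ _))
    · rw [lift_add, lift_C_mul_X_pow_self, lift_succ q g h2 hh2, ← e2, ← hX, hP1]
      ring

end lift

end Pool.Agent.W518.DN
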