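import Pool.Agent.W518.DN.Slopes

/-!
# The residue field of the algebraic closure of `ℚ_p`
-/

open Polynomial

namespace Pool.Agent.W518.DN

variable (p : ℕ) [hp : Fact p.Prime]

/-- integers -/
noncomputable def OO : Subring (AlgebraicClosure ℚ_[p]) where
  carrier := {x | nv p x ≤ 1}
  mul_mem' {x y} hx hy := by
    change nv p (x * y) ≤ 1
    rw [map_mul]; exact mul_le_one₀ hx ((nv p).nonneg _) hy
  one_mem' := by change nv p 1 ≤ 1; rw [map_one]
  add_mem' {x y} hx hy := (nv_na p x y).trans (max_le hx hy)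
  zero_mem' := by change nv p 0 ≤ 1; rw [map_zero]; exact zero_le_one
  neg_mem' {x} hx := by change nv p (-x) ≤ 1; rw [map_neg_eq_map]; exact hx

lemma mem_OO {x : AlgebraicClosure ℚ_[p]} : x ∈ OO p ↔ nv p x ≤ 1 := Iff.rfl

/-- the maximal ideal -/
noncomputable def MM : Ideal (OO p) where
  carrier := {x | nv p (x : AlgebraicClosure ℚ_[p]) < 1}
  add_mem' {x y} hx hy := (nv_na p _ _).trans_lt (max_lt hx hy)
  zero_mem' := by
    change nv p ((0 : OO p) : AlgebraicClosure ℚ_[p]) < 1
    rw [Subring.coe_zero, map_zero]; exact zero_lt_one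
  smul_mem' c x hx := by
    change nv p ((c * x : OO p) : AlgebraicClosure ℚ_[p]) < 1
    rw [Subring.coe_mul, map_mul]
    exact mul_lt_one_of_nonneg_of_lt_one_right c.2 ((nv p).nonneg _) hx

lemma mem_MM {x : OO p} : x ∈ MM p ↔ nv p (x : AlgebraicClosure ℚ_[p]) < 1 := Iff.rfl

instance MM_max : (MM p).IsMaximal := by
  rw [Ideal.isMaximal_iff]
  constructor
  · rw [mem_MM, Subring.coe_one, map_one]; exact lt_irrefl _
  · intro J x hJ hx hxJ
    rw [mem_MM, not_lt] at hx
    have h1 : nv p (x : AlgebraicClosure ℚ_[p]) = 1 := le_antisymm x.2 hx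
    have hx0 : (x : AlgebraicClosure ℚ_[p]) ≠ 0 := by
      intro h0; rw [h0, map_zero] at h1; exact zero_ne_one h1
    let y : OO p := ⟨(x : AlgebraicClosure ℚ_[p])⁻¹, by
      rw [mem_OO, map_inv₀, h1, inv_one]⟩
    have h2 : y * x = 1 := by
      apply Subtype.ext
      rw [Subring.coe_mul, Subring.coe_one]
      exact inv_mul_cancel₀ hx0
    rw [← h2]; exact J.mul_mem_left _ hxJ

/-- the residue field -/
abbrev kk : Type := OO p ⧸ MM p

noncomputable instance : Field (kk p) := Ideal.Quotient.field (MM p)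

/-- reduction -/
noncomputable def red : OO p →+* kk p := Ideal.Quotient.mk (MM p)

lemma red_eq_zero {x : OO p} : red p x = 0 ↔ nv p (x : AlgebraicClosure ℚ_[p]) < 1 :=
  Ideal.Quotient.eq_zero_iff_mem

lemma nv_p : nv p (p : AlgebraicClosure ℚ_[p]) = (p : ℝ)⁻¹ := by
  rw [← Padic.norm_p, ← nv_algebraMap]; simp

instance : CharP (kk p) p := by
  obtain ⟨c, hc⟩ := CharP.exists (kk p)
  have h1 : ((p : ℕ) : kk p) = 0 := by
    rw [← map_natCast (red p), red_eq_zero, Subring.coe_natCast, nv_p]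
    exact inv_lt_one_of_one_lt₀ (by exact_mod_cast hp.out.one_lt)
  have h2 : c ∣ p := (CharP.cast_eq_zero_iff _ c p).1 h1
  rcases (Nat.dvd_prime hp.out).1 h2 with h3 | h3
  · subst h3
    exact absurd rfl (CharP.char_ne_one (kk p) 1)
  · subst h3; exact hc

/-- the prime field -/
noncomputable def jj : ZMod p →+* kk p := ZMod.castHom dvd_rfl _

lemma jj_int (n : ℤ) : jj p (n : ZMod p) = red p (n : OO p) := by
  rw [map_intCast, map_intCast]

/-- `ℤ_p` maps to the integers. -/
noncomputable def iot : ℤ_[p] →+* OO p where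
  toFun x := ⟨algebraMap ℚ_[p] _ (x : ℚ_[p]), by rw [mem_OO, nv_algebraMap]; exact x.2⟩
  map_one' := by apply Subtype.ext; simp
  map_mul' x y := by apply Subtype.ext; simp
  map_zero' := by apply Subtype.ext; simp
  map_add' x y := by apply Subtype.ext; simp

lemma iot_coe (x : ℤ_[p]) : (iot p x : AlgebraicClosure ℚ_[p]) = algebraMap ℚ_[p] _ (x : ℚ_[p]) :=
  rfl

lemma red_iot (x : ℤ_[p]) : red p (iot p x) = jj p (PadicInt.toZMod x) := by
  have h1 := PadicInt.toZMod_spec x
  set n := PadicInt.toZMod x with hn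
  have h2 : (ZMod.cast n : ℤ_[p]) = ((n.val : ℕ) : ℤ_[p]) := (ZMod.natCast_val n).symm
  rw [h2, IsLocalRing.mem_maximalIdeal, PadicInt.mem_nonunits] at h1
  have h3 : red p (iot p (x - ((n.val : ℕ) : ℤ_[p]))) = 0 := by
    rw [red_eq_zero, iot_coe, nv_algebraMap]; exact h1
  rw [map_sub, map_sub, map_natCast, map_natCast, sub_eq_zero] at h3
  rw [h3]
  conv_rhs => rw [← ZMod.natCast_zmod_val n]
  rw [map_natCast]

/-- The roots of the minimal polynomial have the same absolute value. -/
lemma nv_conj {α β : AlgebraicClosure ℚ_[p]} (h : aeval β (minpoly ℚ_[p] α) = 0) :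
    nv p β = nv p α := by
  have hα : IsIntegral ℚ_[p] α := Algebra.IsIntegral.isIntegral α
  have h1 : minpoly ℚ_[p] α = minpoly ℚ_[p] β :=
    minpoly.eq_of_irreducible_of_monic (minpoly.irreducible hα) h (minpoly.monic hα)
  rw [nv_apply, nv_apply, spectralNorm, spectralNorm, h1]

/-- Coefficients of minimal polynomials. -/
lemma coeff_minpoly_le (α : AlgebraicClosure ℚ_[p]) (i : ℕ) :
    ‖(minpoly ℚ_[p] α).coeff i‖ ≤ nv p α ^ ((minpoly ℚ_[p] α).natDegree - i) := by
  set H := minpoly ℚ_[p] α with hH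
  have hα : IsIntegral ℚ_[p] α := Algebra.IsIntegral.isIntegral α
  have hm : H.Monic := minpoly.monic hα
  rcases lt_trichotomy i H.natDegree with hi | hi | hi
  · have h1 : spectralValueTerms H i ≤ spectralValue H :=
      le_ciSup (spectralValueTerms_bddAbove H) i
    rw [spectralValueTerms_of_lt_natDegree H hi] at h1
    have h2 : spectralValue H = nv p α := rfl
    rw [h2] at h1
    have h3 : (0 : ℝ) < (H.natDegree - i : ℝ) := by
      rw [sub_pos]; exact_mod_cast hi
    have h4 : ‖H.coeff i‖ = (‖H.coeff i‖ ^ (1 / (H.natDegree - i : ℝ))) ^ (H.natDegree - i) := by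
      rw [← Real.rpow_natCast, ← Real.rpow_mul (norm_nonneg _), Nat.cast_sub hi.le, one_div,
        inv_mul_cancel₀ h3.ne', Real.rpow_one]
    rw [h4]
    exact pow_le_pow_left₀ (by positivity) h1 _
  · rw [hi, Nat.sub_self, pow_zero, hm.coeff_natDegree, norm_one]
  · rw [coeff_eq_zero_of_natDegree_lt hi, norm_zero]
    exact pow_nonneg ((nv p).nonneg _) _

/-- Reduction of the minimal polynomial of an integral element. -/
theorem exists_red {γ : AlgebraicClosure ℚ_[p]} (hγ : nv p γ ≤ 1) :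
    ∃ Hb : (ZMod p)[X], Hb.Monic ∧ Hb.natDegree = (minpoly ℚ_[p] γ).natDegree ∧
      ∃ G : Multiset (OO p), (∀ x ∈ G, aeval (x : AlgebraicClosure ℚ_[p]) (minpoly ℚ_[p] γ) = 0) ∧
        Hb.map (jj p) = (G.map fun x => X - C (red p x)).prod := by
  set H := minpoly ℚ_[p] γ with hH
  have hα : IsIntegral ℚ_[p] γ := Algebra.IsIntegral.isIntegral γ
  have hm : H.Monic := minpoly.monic hα
  have hco : ∀ i, ‖H.coeff i‖ ≤ 1 := fun i =>
    (coeff_minpoly_le p γ i).trans (pow_le_one₀ ((nv p).nonneg _) hγ)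
  have hlift : H ∈ Polynomial.lifts (PadicInt.Coe.ringHom (p := p)) := by
    rw [Polynomial.lifts_iff_coeff_lifts]
    intro n
    exact ⟨⟨H.coeff n, hco n⟩, rfl⟩
  obtain ⟨HO, hHO, hHOd, hHOm⟩ := Polynomial.lifts_and_natDegree_eq_and_monic hlift hm
  have hsplit : (H.map (algebraMap ℚ_[p] (AlgebraicClosure ℚ_[p]))).Splits :=
    IsAlgClosed.splits _
  have hrt : ∀ x ∈ (H.map (algebraMap ℚ_[p] (AlgebraicClosure ℚ_[p]))).roots,
      aeval x H = 0 := by
    intro x hx
    have := ((mem_roots (hm.map _).ne_zero).1 hx)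
    rwa [IsRoot.def, eval_map_algebraMap] at this
  obtain ⟨G, hG⟩ : ∃ G : Multiset (OO p), G.map (fun x : OO p => (x : AlgebraicClosure ℚ_[p]))
      = (H.map (algebraMap ℚ_[p] (AlgebraicClosure ℚ_[p]))).roots := by
    have hlift' : ∀ s : Multiset (AlgebraicClosure ℚ_[p]), (∀ b ∈ s, nv p b ≤ 1) →
        ∃ R : Multiset (OO p), R.map (fun x : OO p => (x : AlgebraicClosure ℚ_[p])) = s := by
      intro s
      induction s using Multiset.induction_on with
      | empty => intro _; exact ⟨0, rfl⟩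
      | cons b s ih =>
        intro hb
        obtain ⟨t, rfl⟩ := ih fun b' hb' => hb b' (Multiset.mem_cons_of_mem hb')
        exact ⟨⟨b, hb b (Multiset.mem_cons_self _ _)⟩ ::ₘ t, by simp⟩
    apply hlift'
    intro b hb
    rw [nv_conj p (hrt b hb)]; exact hγ
  refine ⟨HO.map PadicInt.toZMod, hHOm.map _, by rw [hHOm.natDegree_map, hHOd], G, ?_, ?_⟩
  · intro x hx
    apply hrt
    rw [← hG]
    exact Multiset.mem_map_of_mem _ hx
  · have h1 : HO.map (iot p) = (G.map fun x => X - C x).prod := by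
      apply map_injective (OO p).subtype Subtype.coe_injective
      rw [Polynomial.map_map, Polynomial.map_multiset_prod, Multiset.map_map]
      have h2 : ((OO p).subtype.comp (iot p)) =
          (algebraMap ℚ_[p] (AlgebraicClosure ℚ_[p])).comp (PadicInt.Coe.ringHom (p := p)) := rfl
      rw [h2, ← Polynomial.map_map, hHO, hsplit.eq_prod_roots, (hm.map _).leadingCoeff, C_1,
        one_mul, ← hG, Multiset.map_map]
      congr 1
      refine Multiset.map_congr rfl fun x _ => ?_
      simp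
    have h3 : (jj p).comp PadicInt.toZMod = (red p).comp (iot p) := by
      ext x
      exact (red_iot p x).symm
    rw [Polynomial.map_map, h3, ← Polynomial.map_map, h1, Polynomial.map_multiset_prod,
      Multiset.map_map]
    congr 1
    refine Multiset.map_congr rfl fun x _ => ?_
    simp

/-- If all conjugates of `γ` reduce to roots of an irreducible quadratic polynomial then the
degree of `γ` is even. -/
theorem even_degree {γ : AlgebraicClosure ℚ_[p]} (hγ : nv p γ ≤ 1) (Q : (ZMod p)[X])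
    (hQ : Irreducible Q) (hQd : Q.natDegree = 2)
    (hred : ∀ x : OO p, aeval (x : AlgebraicClosure ℚ_[p]) (minpoly ℚ_[p] γ) = 0 →
      (Q.map (jj p)).eval (red p x) = 0) :
    2 ∣ (minpoly ℚ_[p] γ).natDegree := by
  obtain ⟨Hb, hHm, hHd, G, hG, hHG⟩ := exists_red p hγ
  have h1 : Hb ∣ Q ^ (Multiset.card G) := by
    rw [← Polynomial.map_dvd_map (jj p) (jj p).injective hHm, hHG, Polynomial.map_pow]
    have h2 : (Q.map (jj p)) ^ Multiset.card G = (G.map fun _ => Q.map (jj p)).prod := by
      rw [Multiset.map_const', Multiset.prod_replicate]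
    rw [h2]
    apply Multiset.prod_dvd_prod_of_dvd
    intro x hx
    rw [dvd_iff_isRoot]
    exact hred x (hG x hx)
  obtain ⟨i, _, hi⟩ := (dvd_prime_pow hQ.prime _).1 h1
  rw [← hHd, natDegree_eq_of_degree_eq (degree_eq_degree_of_associated hi), natDegree_pow, hQd]
  exact dvd_mul_left _ _

end Pool.Agent.W518.DN
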