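import Pool.Agent.W518.DN.NP2

/-!
# Slopes of Weil polynomials
-/

open Polynomial

namespace Pool.Agent.W518.DN

section pairs

variable {K : Type*} [Field K] [IsAlgClosed K]

lemma exists_pairs {q : K} (hq : q ≠ 0) (s : Multiset K) :
    ∃ A : Multiset K, (∀ α ∈ A, α ≠ 0) ∧ s = A.map (fun α => α + q / α) ∧
      lift q (Multiset.card s) (s.map fun y => X - C y).prod =
        (A.map fun α => X - C α).prod * (A.map fun α => X - C (q / α)).prod := by
  have hex : ∃ A : Multiset K, (∀ α ∈ A, α ≠ 0) ∧ s = A.map (fun α => α + q / α) := by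
    induction s using Multiset.induction_on with
    | empty => exact ⟨0, by simp, by simp⟩
    | cons y s ih =>
      obtain ⟨A, hA, rfl⟩ := ih
      obtain ⟨z, hz⟩ := IsAlgClosed.exists_root (X ^ 2 - C y * X + C q) (by
        have : (X ^ 2 - C y * X + C q : K[X]).degree = 2 := by compute_degree!
        rw [this]; norm_num)
      rw [IsRoot.def] at hz
      simp only [eval_add, eval_sub, eval_pow, eval_X, eval_mul, eval_C] at hz
      have hz0 : z ≠ 0 := by
        rintro rfl
        apply hq
        linear_combination hz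
      refine ⟨z ::ₘ A, ?_, ?_⟩
      · intro α hα
        rcases Multiset.mem_cons.1 hα with rfl | hα
        · exact hz0
        · exact hA α hα
      · rw [Multiset.map_cons]
        congr 1
        field_simp
        linear_combination -hz
  obtain ⟨A, hA, rfl⟩ := hex
  refine ⟨A, hA, rfl, ?_⟩
  rw [lift_prod, Multiset.map_map, ← Multiset.prod_map_mul]
  congr 1
  refine Multiset.map_congr rfl fun α hα => ?_
  have h0 := hA α hα
  have h1 : α * (q / α) = q := mul_div_cancel₀ _ h0
  simp only [Function.comp_def, C_add]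
  have h2 : (C α * C (q / α) : K[X]) = C q := by rw [← C_mul, h1]
  linear_combination -h2

end pairs

variable (p : ℕ) [hp : Fact p.Prime]

/-- the absolute value on the algebraic closure of `ℚ_p` -/
noncomputable def nv : AbsoluteValue (AlgebraicClosure ℚ_[p]) ℝ where
  toFun := nrm p
  map_mul' x y := map_mul _ x y
  nonneg' x := apply_nonneg _ _
  eq_zero' x := map_eq_zero_iff_eq_zero _
  add_le' x y := map_add_le_add _ x y

lemma nv_apply (x : AlgebraicClosure ℚ_[p]) :
    nv p x = spectralNorm ℚ_[p] (AlgebraicClosure ℚ_[p]) x := rfl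

lemma nv_na : IsNonarchimedean (nv p) := fun x y => nrm_add p x y

lemma nv_algebraMap (x : ℚ_[p]) : nv p (algebraMap _ _ x) = ‖x‖ := nrm_algebraMap p x

/-- The polynomial `P` of degree `2 * g` has the slopes `s i` and `1 - s i`: the absolute values of
its roots in an algebraic closure of `ℚ_p` are `q ^ (-s i)` and `q ^ (-(1 - s i))`, where
`q = p ^ a`. -/
def HasSlopes (a : ℕ) {g : ℕ} (s : Fin g → ℚ) (P : ℤ[X]) : Prop :=
  (P.map (Int.castRingHom (AlgebraicClosure ℚ_[p]))).roots.map
      (fun x => spectralNorm ℚ_[p] (AlgebraicClosure ℚ_[p]) x) =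
    Finset.univ.val.map (fun i => (p : ℝ) ^ (-((a * s i : ℚ) : ℝ))) +
      Finset.univ.val.map (fun i => (p : ℝ) ^ (-((a * (1 - s i) : ℚ) : ℝ)))

/-- extension of the slopes by `1 / 2` -/
def extS {g : ℕ} (s : Fin g → ℚ) (k : ℕ) : ℚ := if h : k < g then s ⟨k, h⟩ else 1 / 2

lemma extS_mono {g : ℕ} {s : Fin g → ℚ} (hmono : Monotone s) (hhalf : ∀ i, s i ≤ 1 / 2) :
    Monotone (extS s) := by
  intro k l hkl
  unfold extS
  split_ifs with h1 h2 h2
  · exact hmono (by exact hkl)
  · exact hhalf _
  · omega
  · exact le_rfl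

lemma extS_le {g : ℕ} {s : Fin g → ℚ} (hhalf : ∀ i, s i ≤ 1 / 2) (k : ℕ) : extS s k ≤ 1 / 2 := by
  unfold extS
  split_ifs with h1
  · exact hhalf _
  · exact le_rfl

omit hp in
lemma Gfun_extS {a g : ℕ} {s : Fin g → ℚ} (r : ℝ) :
    Gfun p a g (extS s) r = ∏ i : Fin g, max r (pw p (a * s i)) := by
  rw [Gfun, Finset.prod_range]
  refine Finset.prod_congr rfl fun i _ => ?_
  simp [extS, i.2]

/-- The Gauss norms of a Weil polynomial and of its trace polynomial. -/
theorem slopes_aux {a g : ℕ} {h : ℤ[X]} (hm : h.Monic) (hd : h.natDegree = g) {s : Fin g → ℚ}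
    (hhalf : ∀ i, s i ≤ 1 / 2) :
    (HasSlopes p a s (lift ((p : ℤ) ^ a) g h) ↔
      ∀ r, pw p (a * (1 / 2)) ≤ r →
        (h.map (Int.castRingHom (AlgebraicClosure ℚ_[p]))).gaussNorm (nv p) r =
          Gfun p a g (extS s) r) := by
  classical
  have hp2 := hp.out.two_le
  set C' := AlgebraicClosure ℚ_[p]
  set hC := h.map (Int.castRingHom C') with hhC
  set q : C' := (((p : ℤ) ^ a : ℤ) : C') with hq
  have hq0 : q ≠ 0 := by
    rw [hq]; push_cast
    exact pow_ne_zero _ (by exact_mod_cast hp.out.ne_zero)
  have hhm : hC.Monic := hm.map _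
  have hhd : hC.natDegree = g := by rw [hhC, hm.natDegree_map, hd]
  have hsplit : hC.Splits := IsAlgClosed.splits hC
  have hfac : hC = (hC.roots.map fun y => X - C y).prod := by
    conv_lhs => rw [hsplit.eq_prod_roots, hhm.leadingCoeff, C_1, one_mul]
  have hcard : Multiset.card hC.roots = g := by rw [← hhd, hsplit.natDegree_eq_card_roots]
  have hPmap : (lift ((p : ℤ) ^ a) g h).map (Int.castRingHom C') = lift q g hC := by
    rw [lift_map]; simp [hq, hhC]
  obtain ⟨A, hA0, hAr, hAf⟩ := exists_pairs hq0 hC.roots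
  rw [hcard, ← hfac] at hAf
  have hAcard : Multiset.card A = g := by
    rw [← hcard]; conv_rhs => rw [hAr]
    simp
  have hroots : ((lift ((p : ℤ) ^ a) g h).map (Int.castRingHom C')).roots
      = A + A.map fun α => q / α := by
    rw [hPmap, hAf]
    have h1 : (A.map fun α => X - C (q / α)).prod
        = ((A.map fun α => q / α).map fun α => X - C α).prod := by
      rw [Multiset.map_map]; rfl
    rw [h1, ← Multiset.prod_add, ← Multiset.map_add, roots_multiset_prod_X_sub_C]
  have hvq : nv p q = pw p a := by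
    have h1 : q = algebraMap ℚ_[p] C' ((p : ℚ_[p]) ^ a) := by rw [hq]; simp
    rw [h1, nv_algebraMap, norm_pow, Padic.norm_p, pw, Real.rpow_neg (by positivity), inv_pow]
    congr 1
    push_cast
    exact (Real.rpow_natCast _ _).symm
  set r0 := pw p (a * (1 / 2)) with hr0
  have hr0pos : 0 < r0 := pw_pos hp2 _
  have hr02 : r0 ^ 2 = pw p a := by
    rw [hr0, sq, ← pw_add hp2]; congr 1; ring
  -- the two multisets
  set M := ((lift ((p : ℤ) ^ a) g h).map (Int.castRingHom C')).roots.map (nv p) with hMdef
  set N : Multiset ℝ := Finset.univ.val.map (fun i => pw p (a * s i)) +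
      Finset.univ.val.map (fun i => pw p (a * (1 - s i))) with hNdef
  have hiff : HasSlopes p a s (lift ((p : ℤ) ^ a) g h) ↔ M = N := Iff.rfl
  have hMprod : ∀ r, r0 ≤ r → (M.map fun x => max r x).prod = r ^ g * hC.gaussNorm (nv p) r := by
    intro r hr
    have hrpos := hr0pos.trans_le hr
    have h1 : nv p q ≤ r ^ 2 := by
      rw [hvq, ← hr02]; exact pow_le_pow_left₀ hr0pos.le hr 2
    have h2 := gn_lift (nv_na p) hrpos q h1 hC.roots
    rw [hcard, ← hfac] at h2
    rw [← h2, ← hPmap]
    have h3 : ((lift ((p : ℤ) ^ a) g h).map (Int.castRingHom C'))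
        = (((lift ((p : ℤ) ^ a) g h).map (Int.castRingHom C')).roots.map fun y => X - C y).prod := by
      rw [hroots, Multiset.map_add, Multiset.prod_add, Multiset.map_map, hPmap, hAf]
      rfl
    conv_rhs => rw [h3]
    rw [gn_linear (nv_na p) hrpos, hMdef, Multiset.map_map]
    rfl
  have hNprod : ∀ r, r0 ≤ r → (N.map fun x => max r x).prod = r ^ g * Gfun p a g (extS s) r := by
    intro r hr
    rw [hNdef, Multiset.map_add, Multiset.prod_add, Multiset.map_map, Multiset.map_map,
      Finset.prod_map_val, Finset.prod_map_val, Gfun_extS, mul_comm]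
    congr 1
    have h1 : ∀ i : Fin g, ((fun x => max r x) ∘ fun i => pw p (a * (1 - s i))) i = r := by
      intro i
      refine max_eq_left (le_trans ?_ hr)
      rw [hr0, pw_le_iff hp2]
      exact mul_le_mul_of_nonneg_left (by linarith [hhalf i]) (by positivity)
    rw [Finset.prod_congr rfl fun i _ => h1 i]
    simp
  rw [hiff]
  constructor
  · intro hMN r hr
    have h1 := hMprod r hr
    rw [hMN, hNprod r hr] at h1
    exact (mul_left_cancel₀ (pow_ne_zero _ (hr0pos.trans_le hr).ne') h1).symm
  · intro hG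
    refine eq_of_symm hr0pos ?_ ?_ ?_ ?_ ?_ fun r hr => by
      rw [hMprod r hr, hNprod r hr, hG r hr]
    · intro x hx
      obtain ⟨z, hz, rfl⟩ := Multiset.mem_map.1 hx
      apply (nv p).pos
      rw [hroots, Multiset.mem_add] at hz
      rcases hz with hz | hz
      · exact hA0 z hz
      · obtain ⟨w, hw, rfl⟩ := Multiset.mem_map.1 hz
        exact div_ne_zero hq0 (hA0 w hw)
    · intro x hx
      rw [hNdef, Multiset.mem_add] at hx
      rcases hx with hx | hx
      all_goals
        obtain ⟨z, hz, rfl⟩ := Multiset.mem_map.1 hx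
        exact pw_pos hp2 _
    · have e1 : M = A.map (fun α => nv p α) + A.map (fun α => nv p (q / α)) := by
        rw [hMdef, hroots, Multiset.map_add, Multiset.map_map]; rfl
      rw [e1, hr02, ← hvq, Multiset.map_add, Multiset.map_map, Multiset.map_map]
      rw [add_comm (A.map fun α => nv p α)]
      congr 1
      · refine Multiset.map_congr rfl fun α hα => ?_
        simp only [Function.comp_def, map_div₀]
      · refine Multiset.map_congr rfl fun α hα => ?_
        have h0 := hA0 α hα
        simp only [Function.comp_def, map_div₀]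
        have h1 : nv p q ≠ 0 := (nv p).ne_zero hq0
        have h2 : nv p α ≠ 0 := (nv p).ne_zero h0
        field_simp
    · rw [hNdef, hr02, Multiset.map_add, Multiset.map_map, Multiset.map_map, add_comm]
      congr 1
      · refine Multiset.map_congr rfl fun i _ => ?_
        simp only [Function.comp_def]
        rw [div_eq_iff (pw_pos hp2 _).ne', ← pw_add hp2]; congr 1; ring
      · refine Multiset.map_congr rfl fun i _ => ?_
        simp only [Function.comp_def]
        rw [div_eq_iff (pw_pos hp2 _).ne', ← pw_add hp2]; congr 1; ring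
    · rw [hMdef, hNdef, hroots]; simp [hAcard]

end Pool.Agent.W518.DN
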