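import Pool.Agent.W518.DN.Final1

/-!
# Counting Weil polynomials with a given Newton polygon
-/

open Polynomial

namespace Pool.Agent.W518.DN

open Pool.Agent.W518.TC

/-- Integers in a residue class close to a given real number. -/
noncomputable def clsInts (p E : ℕ) (r : ℤ) (c R : ℝ) : Finset ℤ :=
  (Finset.Icc ⌈(c - (p : ℝ) ^ E * r - R) / (p : ℝ) ^ (E + 1)⌉
    ⌊(c - (p : ℝ) ^ E * r + R) / (p : ℝ) ^ (E + 1)⌋).image fun m => r + p * m

lemma mem_clsInts {p E : ℕ} (hp : 0 < p) {r : ℤ} {c R : ℝ} {n : ℤ} (hn : n ∈ clsInts p E r c R) :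
    |((p : ℝ) ^ E * n) - c| ≤ R ∧ ((n : ℤ) : ZMod p) = (r : ZMod p) := by
  obtain ⟨m, hm, rfl⟩ := Finset.mem_image.1 hn
  rw [Finset.mem_Icc, Int.ceil_le, Int.le_floor] at hm
  have hpp : (0 : ℝ) < (p : ℝ) ^ (E + 1) := by positivity
  rw [div_le_iff₀ hpp, le_div_iff₀ hpp] at hm
  refine ⟨?_, by simp⟩
  rw [abs_le]
  push_cast
  have h1 : (p : ℝ) ^ E * (r + p * m) = (p : ℝ) ^ E * r + m * (p : ℝ) ^ (E + 1) := by ring
  rw [h1]
  constructor <;> linarith [hm.1, hm.2]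

lemma card_clsInts {p E : ℕ} (hp : 0 < p) (r : ℤ) (c R : ℝ) (hR : (p : ℝ) ^ (E + 1) ≤ R) :
    R / (p : ℝ) ^ (E + 1) ≤ ((clsInts p E r c R).card : ℝ) := by
  have hpp : (0 : ℝ) < (p : ℝ) ^ (E + 1) := by positivity
  rw [clsInts, Finset.card_image_of_injective _ (by
    intro m m' h
    have h1 : (p : ℤ) * m = p * m' := by simpa using h
    exact mul_left_cancel₀ (by exact_mod_cast hp.ne') h1)]
  rw [Int.card_Icc]
  set u := ⌈(c - (p : ℝ) ^ E * r - R) / (p : ℝ) ^ (E + 1)⌉ with hu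
  set v := ⌊(c - (p : ℝ) ^ E * r + R) / (p : ℝ) ^ (E + 1)⌋ with hv
  have h1 : (u : ℝ) < (c - (p : ℝ) ^ E * r - R) / (p : ℝ) ^ (E + 1) + 1 := Int.ceil_lt_add_one _
  have h2 : (c - (p : ℝ) ^ E * r + R) / (p : ℝ) ^ (E + 1) - 1 < v := Int.sub_one_lt_floor _
  have h3 : (c - (p : ℝ) ^ E * r + R) / (p : ℝ) ^ (E + 1) -
      (c - (p : ℝ) ^ E * r - R) / (p : ℝ) ^ (E + 1) = 2 * (R / (p : ℝ) ^ (E + 1)) := by
    field_simp; ring
  have h4 : 1 ≤ R / (p : ℝ) ^ (E + 1) := by rw [one_le_div hpp]; exact hR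
  have h5 : R / (p : ℝ) ^ (E + 1) ≤ ((v + 1 - u : ℤ) : ℝ) := by
    push_cast; linarith
  refine h5.trans ?_
  have := Int.self_le_toNat (v + 1 - u)
  exact_mod_cast this

section tuples

variable {κ : Type} [Fintype κ] [DecidableEq κ] (g : κ → ℕ) (s : ∀ i, Fin (g i) → ℚ)
  (p : ℕ) [hp : Fact p.Prime] (a : ℕ)

/-- Tuples of Frobenius polynomials of abelian varieties of dimension `g i` over the field with
`p ^ a` elements whose Newton polygons have the slopes `s i j` and `1 - s i j`. -/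
def Stratum : Set (κ → ℤ[X]) :=
  {P | ∀ i, IsFrobPoly p a (P i) ∧ (P i).natDegree = 2 * g i ∧ HasSlopes p a (s i) (P i)}

/-- exponents -/
noncomputable def Eexp (j : Σ i, Fin (g i)) : ℕ := sk a (extS (s j.1)) (g j.1 - (j.2 : ℕ))

/-- scaled coordinates -/
noncomputable def Psi (b : (Σ i, Fin (g i)) → ℤ) : κ → ℤ[X] :=
  Phi g (p ^ a) fun j => (p : ℤ) ^ Eexp g s a j * b j

/-- size of the scaled box -/
noncomputable def Ysz (j : Σ i, Fin (g i)) : ℝ :=
  √((p ^ a : ℕ) : ℝ) ^ (g j.1 - (j.2 : ℕ)) / (p : ℝ) ^ Eexp g s a j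

noncomputable def box2 (j : Σ i, Fin (g i)) : ℕ :=
  ⌊(2 : ℝ) ^ (g j.1 - (j.2 : ℕ)) * (g j.1).choose j.2 * Ysz g s p a j⌋₊

omit [Fintype κ] [DecidableEq κ] in
lemma Psi_injective : Function.Injective (Psi g s p a) := by
  intro b b' h
  have h1 := Phi_injective g (pow_ne_zero a hp.out.ne_zero) h
  funext j
  have h2 := congrFun h1 j
  exact mul_left_cancel₀ (pow_ne_zero _ (by exact_mod_cast hp.out.ne_zero)) h2

/-- divisibility from the absolute value -/
lemma pow_dvd_of_nv {n : ℤ} {x : ℚ} (h : nv p ((n : ℤ) : AlgebraicClosure ℚ_[p]) ≤ pw p x) :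
    (p : ℤ) ^ ⌈x⌉₊ ∣ n := by
  have hp2 := hp.out.two_le
  by_cases hn : n = 0
  · rw [hn]; exact dvd_zero _
  have h1 := nv_algebraMap p ((n : ℤ) : ℚ_[p])
  rw [map_intCast] at h1
  rw [h1] at h
  have hn0 : (n : ℚ_[p]) ≠ 0 := by exact_mod_cast hn
  obtain ⟨m, hm⟩ := norm_eq_pw p hn0
  rw [hm, pw_le_iff hp2] at h
  have hm0 : 0 ≤ m := by
    have h2 := Padic.norm_int_le_one (p := p) n
    rw [hm, ← pw_zero (p := p), pw_le_iff hp2] at h2
    exact_mod_cast h2
  have h3 : ⌈x⌉₊ ≤ m.toNat := by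
    rw [Nat.ceil_le]
    have : ((m.toNat : ℤ) : ℚ) = m := by rw [Int.toNat_of_nonneg hm0]
    calc x ≤ m := h
      _ = ((m.toNat : ℤ) : ℚ) := this.symm
      _ = _ := by push_cast; rfl
  have h4 : ‖(n : ℚ_[p])‖ ≤ (p : ℝ) ^ (-(⌈x⌉₊ : ℤ)) := by
    rw [hm, ← pw_int hp2, pw_le_iff hp2]
    have : ((⌈x⌉₊ : ℤ) : ℚ) ≤ (m : ℚ) := by
      have : (⌈x⌉₊ : ℤ) ≤ m := by omega
      exact_mod_cast this
    exact this
  have h5 := (Padic.norm_int_le_pow_iff_dvd n ⌈x⌉₊).1 h4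
  exact_mod_cast h5

variable {a} (ha : 0 < a) (hs : ∀ i, IsNewton (s i))
include ha hs

omit [DecidableEq κ] in
lemma exists_of_mem_Stratum {P : κ → ℤ[X]} (hP : P ∈ Stratum g s p a) [DecidableEq κ] :
    ∃ b ∈ Fintype.piFinset fun j => Finset.Icc (-(box2 g s p a j : ℤ)) (box2 g s p a j),
      P = Psi g s p a b := by
  have hp2 := hp.out.two_le
  choose h hm hd hPh using fun i => exists_trace (hP i).1 (hP i).2.1
  have hqZ : (p : ℤ) ^ a = ((p ^ a : ℕ) : ℤ) := by push_cast; rfl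
  have hq : 0 < p ^ a := pow_pos hp.out.pos _
  have hdvd : ∀ i, ∀ t : Fin (g i), (p : ℤ) ^ sk a (extS (s i)) (g i - (t : ℕ)) ∣ (h i).coeff t := by
    intro i t
    apply pow_dvd_of_nv
    have hsl := (hP i).2.2
    rw [hPh i, slopes_aux p (hm i) (hd i) (hs i).le_half] at hsl
    have h1 := coeff_le_of_gauss (v := nv p) hp2 (extS_monotone (hs i)) (extS_le (hs i).le_half) ha
      (g := g i) hsl (k := g i - (t : ℕ)) (by omega)
    rw [show g i - (g i - (t : ℕ)) = t by have := t.2; omega, coeff_map] at h1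
    exact h1
  choose b hbd using hdvd
  refine ⟨fun j => b j.1 j.2, ?_, ?_⟩
  · rw [Fintype.mem_piFinset]
    rintro ⟨i, t⟩
    rw [Finset.mem_Icc, ← abs_le]
    have h1 := coeff_bound hq (hm i) (hd i) (by
      intro z hz
      rw [← hqZ, ← hPh i] at hz
      rw [(hP i).1.weil z hz]; push_cast; rfl) t
    have hpE : (0 : ℝ) < (p : ℝ) ^ Eexp g s a ⟨i, t⟩ := by
      have : 0 < p := hp.out.pos
      positivity
    have h2 : ((b i t).natAbs : ℝ) ≤ (2 : ℝ) ^ (g i - (t : ℕ)) * (g i).choose t *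
        Ysz g s p a ⟨i, t⟩ := by
      rw [Ysz, ← mul_div_assoc, le_div_iff₀ hpE, Nat.cast_natAbs]
      rw [hbd i t] at h1
      push_cast at h1 ⊢
      rw [abs_mul, abs_of_pos (by have : 0 < p := hp.out.pos; positivity : (0 : ℝ) < (p : ℝ) ^ _),
        mul_pow] at h1
      calc |(b i t : ℝ)| * (p : ℝ) ^ Eexp g s a ⟨i, t⟩
          = (p : ℝ) ^ sk a (extS (s i)) (g i - (t : ℕ)) * |(b i t : ℝ)| := by rw [mul_comm]; rfl
        _ ≤ _ := h1
        _ = _ := by ring
    have h3 := Nat.le_floor h2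
    rw [Int.abs_eq_natAbs]
    exact Int.ofNat_le.2 h3
  · funext i
    rw [Psi, Phi, hTup, hPh i, hqZ]
    congr 1
    conv_lhs => rw [← hp_of_monic (h i) (hm i) (hd i)]
    congr 1
    funext t
    exact hbd i t

lemma Stratum_finite : (Stratum g s p a).Finite := by
  refine Set.Finite.subset (((Fintype.piFinset fun j =>
    Finset.Icc (-(box2 g s p a j : ℤ)) (box2 g s p a j)).finite_toSet).image
      (Psi g s p a)) ?_
  intro P hP
  obtain ⟨b, hb, e⟩ := exists_of_mem_Stratum g s p ha hs hP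
  exact ⟨b, hb, e.symm⟩

theorem Stratum_lower (hg : ∀ i, 1 ≤ g i)
    (hY : ∀ j, (p : ℝ) ≤ del (g j.1) * Ysz g s p a j) :
    ∏ j : (Σ i, Fin (g i)), (del (g j.1) / p * Ysz g s p a j) ≤
      ((Stratum g s p a).ncard : ℝ) := by
  classical
  have hp2 := hp.out.two_le
  have hppos : (0 : ℝ) < p := by exact_mod_cast hp.out.pos
  set Q : ℝ := √((p ^ a : ℕ) : ℝ) with hQ
  have hq0 : p ^ a ≠ 0 := pow_ne_zero _ hp.out.ne_zero
  have hQ2 : Q ^ 2 = (p : ℝ) ^ a := by
    rw [hQ, Real.sq_sqrt (Nat.cast_nonneg _)]; push_cast; rfl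
  have hQ1 : 1 ≤ Q := by
    rw [hQ, Real.one_le_sqrt]; exact_mod_cast Nat.one_le_iff_ne_zero.2 hq0
  have hQ0 : 0 < Q := by linarith
  have hqZ : (p : ℤ) ^ a = ((p ^ a : ℕ) : ℤ) := by push_cast; rfl
  choose c hc0 hc using fun i => exists_class p a (g i) (hs i)
  let D : (Σ i, Fin (g i)) → Finset ℤ := fun j =>
    clsInts p (Eexp g s a j) ((c j.1 (g j.1 - (j.2 : ℕ))).val : ℤ)
      ((refP (g j.1)).coeff j.2 * Q ^ (g j.1 - (j.2 : ℕ)))
      (del (g j.1) * Q ^ (g j.1 - (j.2 : ℕ)))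
  have hsub : Psi g s p a '' (Fintype.piFinset D : Set _) ⊆ Stratum g s p a := by
    rintro _ ⟨b, hb, rfl⟩ i
    have hb' : ∀ j, b j ∈ D j := Fintype.mem_piFinset.1 hb
    set B : (Σ i, Fin (g i)) → ℤ := fun j => (p : ℤ) ^ Eexp g s a j * b j with hB
    have hm : (hTup g B i).Monic := hp_monic _
    have hd : (hTup g B i).natDegree = g i := hp_natDegree _
    obtain ⟨y, hyinj, hy⟩ := exists_real_roots (hg i) hQ0 (fun t => B ⟨i, t⟩)
      (fun t => by
        have := (mem_clsInts hp.out.pos (hb' ⟨i, t⟩)).1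
        rw [hB]; push_cast; exact this)
    -- the sequence of scaled coefficients
    let β : ℕ → ℤ := fun k => if hk : 1 ≤ k ∧ k ≤ g i then b ⟨i, ⟨g i - k, by omega⟩⟩
      else ((c i k).val : ℤ)
    have hβ : (fun k => ((β k : ℤ) : ZMod p)) = c i := by
      funext k
      by_cases hk : 1 ≤ k ∧ k ≤ g i
      · have h1 : β k = b ⟨i, ⟨g i - k, by omega⟩⟩ := dif_pos hk
        have h2 := (mem_clsInts hp.out.pos (hb' ⟨i, ⟨g i - k, by omega⟩⟩)).2
        rw [h1, h2]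
        simp only
        rw [show g i - (g i - k) = k by omega]
        simp
      · have h1 : β k = ((c i k).val : ℤ) := dif_neg hk
        rw [h1]; simp
    have hcoef : ∀ k ≤ g i, (hTup g B i).coeff (g i - k) = (p : ℤ) ^ sk a (extS (s i)) k * β k := by
      intro k hk
      rcases Nat.eq_zero_or_pos k with h0 | h0
      · subst h0
        have h1 : β 0 = 1 := by
          have : β 0 = ((c i 0).val : ℤ) := dif_neg (by omega)
          rw [this, hc0 i, ZMod.val_one]; rfl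
        have h2 : sk a (extS (s i)) 0 = 0 := by simp [sk, Ssum]
        rw [h1, h2, pow_zero, one_mul, Nat.sub_zero]
        conv_lhs => rw [← hd]
        exact hm.coeff_natDegree
      · have h1 : β k = b ⟨i, ⟨g i - k, by omega⟩⟩ := dif_pos ⟨h0, hk⟩
        have h2 := hp_coeff (fun t => B ⟨i, t⟩) ⟨g i - k, by omega⟩
        rw [h1]
        refine h2.trans ?_
        simp only [hB, Eexp]
        rw [show g i - (g i - k) = k by omega]
    have hres : ResCond p a (g i) (extS (s i)) (fun k => ((β k : ℤ) : ZMod p)) := by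
      rw [hβ]; exact hc i
    have hPhi : Psi g s p a b i = lift ((p : ℤ) ^ a) (g i) (hTup g B i) := by
      rw [Psi, Phi, hqZ]
    refine ⟨?_, ?_, ?_⟩
    · rw [hPhi]
      exact isFrobPoly_of_places hm hd
        (fun H hH hHi hdvd => places_of_res p ha (hs i) hm hd β hcoef hres H hH hHi hdvd)
        y hyinj (fun t => (hy t).1) (fun t => by rw [← hQ2]; exact (hy t).2)
    · rw [hPhi, (lift_monic _ _ _ hm hd).2]
    · rw [hPhi]; exact hasSlopes_of_res p ha (hs i) hm hd β hcoef hres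
  have h1 : (Fintype.piFinset D).card ≤ (Stratum g s p a).ncard := by
    rw [← Set.ncard_coe_finset, ← Set.ncard_image_of_injective _ (Psi_injective g s p a)]
    exact Set.ncard_le_ncard hsub (Stratum_finite g s p ha hs)
  have h2 : ∏ j : (Σ i, Fin (g i)), (del (g j.1) / p * Ysz g s p a j) ≤
      ((Fintype.piFinset D).card : ℝ) := by
    rw [Fintype.card_piFinset]
    push_cast
    have hYpos : ∀ j, 0 < Ysz g s p a j := fun j => by rw [Ysz]; positivity
    refine Finset.prod_le_prod (fun j _ => ?_) fun j _ => ?_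
    · have := del_pos (hg j.1)
      have := hYpos j
      positivity
    · have hpE : (0 : ℝ) < (p : ℝ) ^ Eexp g s a j := by positivity
      have h3 : (p : ℝ) ^ (Eexp g s a j + 1) ≤ del (g j.1) * Q ^ (g j.1 - (j.2 : ℕ)) := by
        have h4 := hY j
        rw [Ysz, ← mul_div_assoc, le_div_iff₀ hpE] at h4
        rw [pow_succ, mul_comm]; exact h4
      have h4 := card_clsInts hp.out.pos ((c j.1 (g j.1 - (j.2 : ℕ))).val : ℤ)
        ((refP (g j.1)).coeff j.2 * Q ^ (g j.1 - (j.2 : ℕ))) _ h3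
      refine le_trans (le_of_eq ?_) h4
      rw [Ysz, ← hQ, pow_succ]
      field_simp
  exact h2.trans (by exact_mod_cast h1)

end tuples

end Pool.Agent.W518.DN
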